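import Pool.Agent.H60.Sy.Basic

/-!
[H60 SY CONV] Continuous alternating maps in two variables as bilinear forms (Mathlib only).

Statements to prove (keep them): `exists_toB2`.

Sketch: compose `ContinuousAlternatingMap.toContinuousMultilinearMapCLM` (or the `LinearMap` version),
`continuousMultilinearCurryLeftEquiv` and `continuousMultilinearCurryFin1`; or construct the map by
`LinearMap.mkContinuous` from `A ↦ (v ↦ w ↦ A ![v, w])` with the bound `‖A ![v, w]‖ ≤ ‖A‖ ‖v‖ ‖w‖`
(`LinearMap.mkContinuous₂`), which is `ContinuousAlternatingMap.le_opNorm` and `Fin.prod_univ_two`.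
-/

set_option autoImplicit false
set_option linter.unusedSectionVars false

open scoped ContDiff Topology
open Set Metric

namespace Pool.Agent.H60.Sy

theorem exists_toB2 (E : Type) [NormedAddCommGroup E] [NormedSpace ℝ E] :
    ∃ T : (ContinuousAlternatingMap ℝ E ℝ (Fin 2)) →L[ℝ] (E →L[ℝ] E →L[ℝ] ℝ),
      ∀ A v w, T A v w = A ![v, w] := by
  let T1 : (ContinuousAlternatingMap ℝ E ℝ (Fin 2)) →L[ℝ]
      (ContinuousMultilinearMap ℝ (fun _ : Fin 2 => E) ℝ) :=
    ContinuousAlternatingMap.toContinuousMultilinearMapCLM ℝ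
  let T2 : (ContinuousMultilinearMap ℝ (fun _ : Fin 2 => E) ℝ) →L[ℝ]
      (E →L[ℝ] ContinuousMultilinearMap ℝ (fun _ : Fin 1 => E) ℝ) :=
    (continuousMultilinearCurryLeftEquiv ℝ (fun _ : Fin 2 => E)
      ℝ).toContinuousLinearEquiv.toContinuousLinearMap
  let T3 : (ContinuousMultilinearMap ℝ (fun _ : Fin 1 => E) ℝ) →L[ℝ] (E →L[ℝ] ℝ) :=
    (continuousMultilinearCurryFin1 ℝ E ℝ).toContinuousLinearEquiv.toContinuousLinearMap
  refine ⟨(ContinuousLinearMap.compL ℝ E (ContinuousMultilinearMap ℝ (fun _ : Fin 1 => E) ℝ)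
    (E →L[ℝ] ℝ) T3).comp (T2.comp T1), ?_⟩
  intro A v w
  change A (Fin.cons v (Fin.snoc 0 w)) = A ![v, w]
  congr 1
  funext i
  fin_cases i
  · rfl
  · rfl

end Pool.Agent.H60.Sy
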