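import Pool.Agent.H60.Sy.Defs
import Pool.Agent.H60.Sy.Conv

set_option autoImplicit false
set_option linter.unusedSectionVars false

open scoped ContDiff Topology
open Set Metric

namespace Pool.Agent.H60.Sy

theorem fderiv_clm_comp {F G H : Type} [NormedAddCommGroup F] [NormedSpace ℝ F]
    [NormedAddCommGroup G] [NormedSpace ℝ G] [NormedAddCommGroup H] [NormedSpace ℝ H]
    (T : F →L[ℝ] G) {f : H → F} {x : H} (hf : DifferentiableAt ℝ f x) (u : H) :
    fderiv ℝ (fun x => T (f x)) x u = T (fderiv ℝ f x u) := by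
  have h := (T.hasFDerivAt.comp x hf.hasFDerivAt).fderiv
  have h2 : fderiv ℝ (fun x => T (f x)) x = T.comp (fderiv ℝ f x) := h
  rw [h2]; rfl

theorem contDiff_clm_comp {F G H : Type} [NormedAddCommGroup F] [NormedSpace ℝ F]
    [NormedAddCommGroup G] [NormedSpace ℝ G] [NormedAddCommGroup H] [NormedSpace ℝ H]
    (T : F →L[ℝ] G) {f : H → F} (hf : ContDiff ℝ ∞ f) : ContDiff ℝ ∞ (fun x => T (f x)) :=
  T.contDiff.comp hf

theorem exists_symp {E : Type} [NormedAddCommGroup E] [NormedSpace ℝ E]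
    {w : E → ContinuousAlternatingMap ℝ E ℝ (Fin 2)} (h1 : ContDiff ℝ ∞ w)
    (h2 : ∀ x a b c : E, fderiv ℝ w x a ![b, c] - fderiv ℝ w x b ![a, c] + fderiv ℝ w x c ![a, b] = 0)
    (h3 : ∀ x v : E, v ≠ 0 → ∃ u : E, w x ![v, u] ≠ 0) :
    ∃ κ : E → B2 E, Symp κ ∧ ∀ x v u, κ x v u = w x ![v, u] := by
  obtain ⟨T, hT⟩ := exists_toB2 E
  have hd : Differentiable ℝ w := h1.differentiable (by simp)
  refine ⟨fun x => T (w x), ⟨contDiff_clm_comp (G := E →L[ℝ] E →L[ℝ] ℝ) T h1, ?_, ?_, ?_⟩,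
    fun x v u => hT _ _ _⟩
  · intro x a b c
    have e : ∀ a b c : E, fderiv ℝ (fun x => T (w x)) x a b c = fderiv ℝ w x a ![b, c] := by
      intro a b c
      have := fderiv_clm_comp (G := E →L[ℝ] E →L[ℝ] ℝ) T (hd x) a
      rw [this]; exact hT _ _ _
    rw [e, e, e]
    exact h2 x a b c
  · intro x v u
    rw [hT, hT]
    have h := (w x).map_swap ![u, v] (i := 0) (j := 1) (by decide)
    have e : (![u, v] : Fin 2 → E) ∘ (Equiv.swap 0 1) = ![v, u] := by
      funext i; fin_cases i <;> simp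
    rw [e] at h
    exact h
  · intro x v hv
    by_contra h0
    obtain ⟨u, hu⟩ := h3 x v h0
    exact hu (by rw [← hT]; exact hv u)

end Pool.Agent.H60.Sy
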