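import Pool.Agent.H60.Sy.Basic

/-!
[H60 SY GLUE] Infinite composition of translates of a diffeomorphism with disjoint supports (Mathlib
only, `Dif` from Basic.lean).

Statement to prove (keep it): `glue`.

Proof. The balls `closedBall (c + i • a) R`, `i ∈ ℕ`, are pairwise at distance `≥ ‖a‖ - 2 R =: δ > 0` and form
a locally finite family. Define `G x = f (x - i • a) + i • a` if `x` is in the ball number `i` (unique), and
`G x = x` otherwise; same for the inverse with `f.symm` (`Dif.symm_fix`, `Dif.mem_of_fix`: `f` and `f.symm`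
map `closedBall c R` into itself). For `x` in the ball `i`, all points near `x` (distance `< δ`) are in the
ball `i` or in no ball; in both cases `G y = f (y - i • a) + i • a` (if `y - i • a ∉ closedBall c R` then
`f (y - i • a) = y - i • a`). If `x` is in no ball then no ball meets a neighbourhood of `x` (only finitely
many balls meet `closedBall x 1`, and they are closed), so `G = id` near `x`. Hence `G`, `G⁻¹` are smooth.
(If `R < 0` all balls are empty and `f = id`; `G = id`.)
-/

set_option autoImplicit false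
set_option linter.unusedSectionVars false

open scoped ContDiff Topology
open Set Metric

namespace Pool.Agent.H60.Sy

open Classical in
/-- the infinite composition -/
private noncomputable def glueFun {E : Type} [NormedAddCommGroup E] [NormedSpace ℝ E] (g : E → E)
    (c : E) (R : ℝ) (a : E) (x : E) : E :=
  if h : ∃ i : ℕ, x ∈ closedBall (c + (i : ℝ) • a) R then
    g (x - ((h.choose : ℕ) : ℝ) • a) + ((h.choose : ℕ) : ℝ) • a
  else x

private theorem glue_dist {E : Type} [NormedAddCommGroup E] [NormedSpace ℝ E] {c : E} {R : ℝ} {a : E}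
    {i j : ℕ} (hij : i ≠ j) {x y : E} (hx : x ∈ closedBall (c + (i : ℝ) • a) R)
    (hy : y ∈ closedBall (c + (j : ℝ) • a) R) : ‖a‖ - 2 * R ≤ dist x y := by
  rw [mem_closedBall] at hx hy
  have h1 : (1 : ℝ) ≤ |(i : ℝ) - (j : ℝ)| := by
    have h2 : (1 : ℤ) ≤ |(i : ℤ) - (j : ℤ)| := by
      apply Int.one_le_abs
      omega
    exact_mod_cast h2
  have h3 : dist (c + (i : ℝ) • a) (c + (j : ℝ) • a) = |(i : ℝ) - (j : ℝ)| * ‖a‖ := by
    rw [dist_eq_norm, ← Real.norm_eq_abs, ← norm_smul]
    congr 1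
    rw [sub_smul]
    abel
  have h4 : ‖a‖ ≤ dist (c + (i : ℝ) • a) (c + (j : ℝ) • a) := by
    rw [h3]
    nlinarith [norm_nonneg a]
  have h5 : dist (c + (i : ℝ) • a) (c + (j : ℝ) • a) ≤
      dist (c + (i : ℝ) • a) x + dist x y + dist y (c + (j : ℝ) • a) := by
    exact dist_triangle4 _ _ _ _
  rw [dist_comm (c + (i : ℝ) • a) x] at h5
  linarith

private theorem glue_mem {E : Type} [NormedAddCommGroup E] [NormedSpace ℝ E] {c : E} {R : ℝ} {a : E}
    {i : ℕ} {x : E} : x ∈ closedBall (c + (i : ℝ) • a) R ↔ x - (i : ℝ) • a ∈ closedBall c R := by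
  rw [mem_closedBall, mem_closedBall, dist_eq_norm, dist_eq_norm]
  have : x - (c + (i : ℝ) • a) = x - (i : ℝ) • a - c := by abel
  rw [this]

private theorem glue_val {E : Type} [NormedAddCommGroup E] [NormedSpace ℝ E] {g : E → E} {c : E} {R : ℝ}
    {a : E} (ha : 2 * R < ‖a‖) {i : ℕ} {x : E} (hx : x ∈ closedBall (c + (i : ℝ) • a) R) :
    glueFun g c R a x = g (x - (i : ℝ) • a) + (i : ℝ) • a := by
  have h : ∃ i : ℕ, x ∈ closedBall (c + (i : ℝ) • a) R := ⟨i, hx⟩
  have h1 : h.choose = i := by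
    by_contra hne
    have h2 := glue_dist hne h.choose_spec hx
    rw [dist_self] at h2
    linarith
  unfold glueFun
  rw [dif_pos h, h1]

private theorem glue_out {E : Type} [NormedAddCommGroup E] [NormedSpace ℝ E] {g : E → E} {c : E} {R : ℝ}
    {a : E} {x : E} (hx : ∀ i : ℕ, x ∉ closedBall (c + (i : ℝ) • a) R) :
    glueFun g c R a x = x := by
  unfold glueFun
  rw [dif_neg]
  rintro ⟨i, hi⟩
  exact hx i hi

private theorem glue_near_in {E : Type} [NormedAddCommGroup E] [NormedSpace ℝ E] {g : E → E} {c : E}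
    {R : ℝ} (hg : ∀ x ∉ closedBall c R, g x = x) {a : E} (ha : 2 * R < ‖a‖) (i : ℕ) {x : E}
    (hx : x ∈ closedBall (c + (i : ℝ) • a) R) :
    glueFun g c R a =ᶠ[𝓝 x] fun y => g (y - (i : ℝ) • a) + (i : ℝ) • a := by
  have h1 : ball x (‖a‖ - 2 * R) ∈ 𝓝 x := ball_mem_nhds x (by linarith)
  filter_upwards [h1] with y hy
  by_cases h : ∃ j : ℕ, y ∈ closedBall (c + (j : ℝ) • a) R
  · obtain ⟨j, hj⟩ := h
    have h2 : j = i := by
      by_contra hne
      have h3 := glue_dist hne hj hx
      rw [mem_ball] at hy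
      linarith
    rw [h2] at hj
    exact glue_val ha hj
  · push Not at h
    rw [glue_out h, hg _ (fun h2 => h i (glue_mem.2 h2))]
    abel

private theorem glue_near_out {E : Type} [NormedAddCommGroup E] [NormedSpace ℝ E] {g : E → E} {c : E}
    {R : ℝ} {a : E} (ha : 2 * R < ‖a‖) {x : E} (hx : ∀ i : ℕ, x ∉ closedBall (c + (i : ℝ) • a) R) :
    glueFun g c R a =ᶠ[𝓝 x] fun y => y := by
  have h1 : ball x ((‖a‖ - 2 * R) / 2) ∈ 𝓝 x := ball_mem_nhds x (by linarith)
  by_cases h : ∃ y ∈ ball x ((‖a‖ - 2 * R) / 2), ∃ i : ℕ, y ∈ closedBall (c + (i : ℝ) • a) R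
  · obtain ⟨y, hy, i, hi⟩ := h
    have h2 : (closedBall (c + (i : ℝ) • a) R)ᶜ ∈ 𝓝 x :=
      isClosed_closedBall.isOpen_compl.mem_nhds (hx i)
    filter_upwards [h1, h2] with z hz hz2
    apply glue_out
    intro j hj
    have h3 : j ≠ i := by
      intro he
      rw [he] at hj
      exact hz2 hj
    have h4 := glue_dist h3 hj hi
    rw [mem_ball] at hy hz
    have h5 := dist_triangle_right z y x
    linarith
  · push Not at h
    filter_upwards [h1] with z hz
    exact glue_out (h z hz)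

private theorem glue_contDiff {E : Type} [NormedAddCommGroup E] [NormedSpace ℝ E] {g : E → E} {c : E}
    {R : ℝ} (hg : ∀ x ∉ closedBall c R, g x = x) (hs : ContDiff ℝ ∞ g) {a : E} (ha : 2 * R < ‖a‖) :
    ContDiff ℝ ∞ (glueFun g c R a) := by
  rw [contDiff_iff_contDiffAt]
  intro x
  by_cases h : ∃ i : ℕ, x ∈ closedBall (c + (i : ℝ) • a) R
  · obtain ⟨i, hi⟩ := h
    have h1 : ContDiff ℝ ∞ fun y => g (y - (i : ℝ) • a) + (i : ℝ) • a :=
      (hs.comp (contDiff_id.sub contDiff_const)).add contDiff_const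
    exact h1.contDiffAt.congr_of_eventuallyEq (glue_near_in hg ha i hi)
  · push Not at h
    exact contDiff_id.contDiffAt.congr_of_eventuallyEq (glue_near_out ha h)

private theorem glue_inv {E : Type} [NormedAddCommGroup E] [NormedSpace ℝ E] {f g : E → E} {c : E}
    {R : ℝ} (hg : ∀ x ∈ closedBall c R, g x ∈ closedBall c R) (hfg : ∀ x, f (g x) = x) {a : E}
    (ha : 2 * R < ‖a‖) (x : E) : glueFun f c R a (glueFun g c R a x) = x := by
  by_cases h : ∃ i : ℕ, x ∈ closedBall (c + (i : ℝ) • a) R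
  · obtain ⟨i, hi⟩ := h
    rw [glue_val ha hi]
    have h1 : g (x - (i : ℝ) • a) + (i : ℝ) • a ∈ closedBall (c + (i : ℝ) • a) R := by
      rw [glue_mem, add_sub_cancel_right]
      exact hg _ (glue_mem.1 hi)
    rw [glue_val ha h1, add_sub_cancel_right, hfg, sub_add_cancel]
  · push Not at h
    rw [glue_out h, glue_out h]

theorem glue {E : Type} [NormedAddCommGroup E] [NormedSpace ℝ E] (f : Dif E) {c : E} {R : ℝ}
    (hf : ∀ x ∉ closedBall c R, f x = x) {a : E} (ha : 2 * R < ‖a‖) :
    ∃ G : Dif E,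
      (∀ i : ℕ, ∀ x ∈ closedBall (c + (i : ℝ) • a) R,
        G =ᶠ[𝓝 x] fun y => f (y - (i : ℝ) • a) + (i : ℝ) • a) ∧
      (∀ x, (∀ i : ℕ, x ∉ closedBall (c + (i : ℝ) • a) R) → G =ᶠ[𝓝 x] fun y => y) := by
  have hf' : ∀ x ∉ closedBall c R, f.symm x = x := Dif.symm_fix hf
  refine ⟨Dif.mk' (glueFun f c R a) (glueFun f.symm c R a) (glue_contDiff hf f.sm ha)
    (glue_contDiff hf' f.smi ha)
    (glue_inv (fun x hx => Dif.mem_of_fix hf hx) (fun x => f.symm_apply_apply x) ha)
    (glue_inv (fun x hx => Dif.mem_of_fix hf' hx) (fun x => f.apply_symm_apply x) ha), ?_, ?_⟩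
  · intro i x hx
    exact glue_near_in hf ha i hx
  · intro x hx
    exact glue_near_out ha hx

end Pool.Agent.H60.Sy
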