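import Pool.Agent.H60.Sy.Pair
import Pool.Agent.H60.Sy.Glue

/-!
[H60 SY SWIN] The infinite swindle.

Statement to prove (keep it): `swindle`.

Proof. Let `e = e1 hn` (norm 1). Choose `L ≥ L₀` with `L > 2 ρ₁ + 2 |ρ| + 1` and `L > 0`. From `hP` with
`σ = 1` and `Mov.symm` get `g₊ : Dif` equal to the identity off `closedBall ((L/2) e) (L/2 + ρ₁)` with
`pb g₊ om0 = om0 + η + η₂ (· - L e)`; from `σ = -1` get `g₋`, identity off `closedBall (-(L/2) e) (L/2 + ρ₁)`,
with `pb g₋ om0 = om0 + η + η₂ (· + L e)`. Let `a = (2 L) • e` and let `g' x = g₋ (x - a) + a` (a `Dif`,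
identity off `closedBall ((3L/2) e) (L/2 + ρ₁)`). `glue` gives `G₁` from `g₊` (centre `(L/2) e`) and `G₂` from
`g'` (centre `(3L/2) e`), both with translation vector `a` (`2 (L/2 + ρ₁) < 2 L`). Let
`Q_i = closedBall ((L/2 + 2iL) e) (L/2+ρ₁)`, `Q'_i = closedBall ((3L/2 + 2iL) e) (L/2+ρ₁)`.
Claim: `pb G₁ (fun _ => om0) = pb G₂ (fun x => om0 + η x)`. Values (`pb_congr_at`, chain rule for
translations, `fderiv` of `y ↦ g (y - b) + b` is `fderiv g (y - b)`):
 * LHS at `x ∈ Q_i`: `om0 + η (x - 2iL e) + η₂ (x - (2i+1)L e)`; off all `Q_i`: `om0`.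
 * RHS at `x ∈ Q'_i`: `G₂ x ∈ Q'_i`, which is disjoint from `closedBall 0 ρ` (first coordinate at least
   `L - ρ₁ > ρ`), so it is `om0 + η (x - (2i+2)L e) + η₂ (x - (2i+1)L e)`; off all `Q'_i`: `om0 + η x`.
Compare: let `A_j = closedBall (2jL e) ρ`, `A'_j = closedBall ((2j+1)L e) ρ` (all pairwise disjoint,
`L > 2ρ`; `A_j, A'_j ⊆ Q_j`; `A'_j, A_{j+1} ⊆ Q'_j` as `ρ ≤ ρ₁`; `A_0` is disjoint from all `Q'_i`; the
`Q_i` are pairwise disjoint, the `Q'_i` too). If `x ∈ A_0` both sides are `om0 + η x`; if `x ∈ A_{j+1}` both are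
`om0 + η (x - (2j+2)L e)`; if `x ∈ A'_j` both are `om0 + η₂ (x - (2j+1)L e)`; otherwise both are `om0`.
Conclusion: `F = G₂.symm.trans G₁`: `pb F om0 = pb G₂.symm (pb G₁ om0) = om0 + η` (`pb_trans`, `pb_symm`).
(Split into lemmas as convenient.)
-/

set_option autoImplicit false
set_option linter.unusedSectionVars false

open scoped ContDiff Topology
open Set Metric

namespace Pool.Agent.H60.Sy

theorem norm_e1 {n : ℕ} (hn : 2 ≤ n) : ‖e1 hn‖ = 1 := by
  unfold e1
  rw [Prod.norm_mk, norm_zero, Pi.norm_single]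
  simp

/-- translate of a diffeomorphism -/
noncomputable def tr {E : Type} [NormedAddCommGroup E] [NormedSpace ℝ E] (g : Dif E) (a : E) :
    Dif E :=
  Dif.mk' (fun x => g (x - a) + a) (fun x => g.symm (x - a) + a)
    ((g.sm.comp (contDiff_id.sub contDiff_const)).add contDiff_const)
    ((g.smi.comp (contDiff_id.sub contDiff_const)).add contDiff_const)
    (fun x => by simp) (fun x => by simp)

theorem pb_tr {E : Type} [NormedAddCommGroup E] [NormedSpace ℝ E] (g : Dif E) (a : E)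
    (A : B2 E) (x : E) :
    pb (fun y => g (y - a) + a) (fun _ => A) x = pb g (fun _ => A) (x - a) := by
  have h : HasFDerivAt (fun y => g (y - a) + a) (fderiv ℝ g (x - a)) x := by
    have h1 : HasFDerivAt (fun y : E => y - a) (ContinuousLinearMap.id ℝ E) x :=
      (hasFDerivAt_id x).sub_const a
    have h2 := (g.hasFDerivAt (x - a)).comp x h1
    rw [ContinuousLinearMap.comp_id] at h2
    exact h2.add_const a
  ext v w
  simp only [pb_apply, h.fderiv]

section

variable {n : ℕ} {hn : 2 ≤ n}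

theorem norm_sub_e1 (a b : ℝ) : ‖a • e1 hn - b • e1 hn‖ = |a - b| := by
  rw [← sub_smul, norm_smul, norm_e1, mul_one, Real.norm_eq_abs]

theorem ball_dist {x : EE n} {a b R S : ℝ} (h1 : x ∈ closedBall (a • e1 hn) R)
    (h2 : x ∈ closedBall (b • e1 hn) S) : |a - b| ≤ R + S := by
  rw [mem_closedBall_iff_norm] at h1 h2
  rw [← norm_sub_e1 (hn := hn)]
  calc ‖a • e1 hn - b • e1 hn‖ = ‖(x - b • e1 hn) - (x - a • e1 hn)‖ := by congr 1; abel
    _ ≤ ‖x - b • e1 hn‖ + ‖x - a • e1 hn‖ := norm_sub_le _ _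
    _ ≤ R + S := by linarith

theorem ball_move {x : EE n} {a b R S : ℝ} (h1 : x ∈ closedBall (a • e1 hn) R)
    (h2 : R + |a - b| ≤ S) : x ∈ closedBall (b • e1 hn) S := by
  rw [mem_closedBall_iff_norm] at h1 ⊢
  calc ‖x - b • e1 hn‖ = ‖(x - a • e1 hn) + (a • e1 hn - b • e1 hn)‖ := by congr 1; abel
    _ ≤ ‖x - a • e1 hn‖ + ‖a • e1 hn - b • e1 hn‖ := norm_add_le _ _
    _ ≤ S := by rw [norm_sub_e1]; linarith

/-- a translated form vanishes off the translated ball -/
theorem eta_zero {η : EE n → B2 (EE n)} {ρ : ℝ} (h1 : ∀ x ∉ closedBall (0 : EE n) ρ, η x = 0)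
    {x : EE n} {a b : ℝ} {R : ℝ} (h : x ∈ closedBall (b • e1 hn) R) (hab : ρ + R < |a - b|) :
    η (x - a • e1 hn) = 0 := by
  apply h1
  intro h2
  have h3 : x ∈ closedBall (a • e1 hn) ρ := by
    rw [mem_closedBall_iff_norm]
    rw [mem_closedBall_iff_norm, sub_zero] at h2
    exact h2
  have := ball_dist h3 h
  linarith

theorem eta_zero' {η : EE n → B2 (EE n)} {ρ : ℝ} (h1 : ∀ x ∉ closedBall (0 : EE n) ρ, η x = 0)
    {x : EE n} {a b : ℝ} {R : ℝ} (h : x ∉ closedBall (b • e1 hn) R) (hab : ρ + |a - b| ≤ R) :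
    η (x - a • e1 hn) = 0 := by
  apply h1
  intro h2
  have h3 : x ∈ closedBall (a • e1 hn) ρ := by
    rw [mem_closedBall_iff_norm]
    rw [mem_closedBall_iff_norm, sub_zero] at h2
    exact h2
  exact h (ball_move h3 hab)

/-- the two groupings agree -/
theorem groupings {η η₂ : EE n → B2 (EE n)} {ρ : ℝ}
    (h1 : ∀ x ∉ closedBall (0 : EE n) ρ, η x = 0) (h2 : ∀ x ∉ closedBall (0 : EE n) ρ, η₂ x = 0)
    {L ρ₁ : ℝ} (hρ : ρ ≤ ρ₁) (hL0 : 0 < L) (hL : 2 * ρ₁ < L) {W W' : EE n → B2 (EE n)}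
    (hW : ∀ i : ℕ, ∀ x ∈ closedBall ((L / 2 + 2 * i * L) • e1 hn) (L / 2 + ρ₁),
      W x = om0 n + η (x - (2 * i * L) • e1 hn) + η₂ (x - ((2 * i + 1) * L) • e1 hn))
    (hW0 : ∀ x, (∀ i : ℕ, x ∉ closedBall ((L / 2 + 2 * i * L) • e1 hn) (L / 2 + ρ₁)) →
      W x = om0 n)
    (hW' : ∀ i : ℕ, ∀ x ∈ closedBall ((3 * L / 2 + 2 * i * L) • e1 hn) (L / 2 + ρ₁),
      W' x = om0 n + η (x - ((2 * i + 2) * L) • e1 hn) + η₂ (x - ((2 * i + 1) * L) • e1 hn))
    (hW0' : ∀ x, (∀ i : ℕ, x ∉ closedBall ((3 * L / 2 + 2 * i * L) • e1 hn) (L / 2 + ρ₁)) →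
      W' x = om0 n + η x) : W = W' := by
  funext x
  by_cases hQ : ∃ i : ℕ, x ∈ closedBall ((L / 2 + 2 * i * L) • e1 hn) (L / 2 + ρ₁)
  · obtain ⟨i, hi⟩ := hQ
    by_cases hQ' : ∃ j : ℕ, x ∈ closedBall ((3 * L / 2 + 2 * j * L) • e1 hn) (L / 2 + ρ₁)
    · obtain ⟨j, hj⟩ := hQ'
      have hd := ball_dist hi hj
      have hij : i = j ∨ i = j + 1 := by
        have h3 : |(2 * (i:ℝ) - 2 * j - 1)| * L < 2 * L := by
          have e : (L / 2 + 2 * i * L) - (3 * L / 2 + 2 * j * L) = (2 * (i:ℝ) - 2 * j - 1) * L := by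
            ring
          rw [e, abs_mul, abs_of_pos hL0] at hd
          linarith
        have h4 : |(2 * (i:ℝ) - 2 * j - 1)| < 2 := lt_of_mul_lt_mul_right h3 hL0.le
        rw [abs_lt] at h4
        have h5 : (-2 : ℤ) < 2 * (i:ℤ) - 2 * j - 1 := by exact_mod_cast h4.1
        have h6 : 2 * (i:ℤ) - 2 * j - 1 < 2 := by exact_mod_cast h4.2
        omega
      rw [hW i x hi, hW' j x hj]
      rcases hij with rfl | rfl
      · have z1 : η (x - (2 * i * L) • e1 hn) = 0 := by
          refine eta_zero h1 hj ?_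
          have e : 2 * (i:ℝ) * L - (3 * L / 2 + 2 * i * L) = -(3 * L / 2) := by ring
          rw [e, abs_neg, abs_of_pos (by positivity)]
          linarith
        have z2 : η (x - ((2 * i + 2) * L) • e1 hn) = 0 := by
          refine eta_zero h1 hi ?_
          have e : (2 * (i:ℝ) + 2) * L - (L / 2 + 2 * i * L) = 3 * L / 2 := by ring
          rw [e, abs_of_pos (by positivity)]
          linarith
        rw [z1, z2]
      · have z1 : η₂ (x - ((2 * ((j + 1 : ℕ) : ℝ) + 1) * L) • e1 hn) = 0 := by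
          refine eta_zero h2 hj ?_
          have e : (2 * (((j + 1 : ℕ) : ℝ)) + 1) * L - (3 * L / 2 + 2 * j * L) = 3 * L / 2 := by
            push_cast; ring
          rw [e, abs_of_pos (by positivity)]
          linarith
        have z2 : η₂ (x - ((2 * (j:ℝ) + 1) * L) • e1 hn) = 0 := by
          refine eta_zero h2 hi ?_
          have e : (2 * (j:ℝ) + 1) * L - (L / 2 + 2 * ((j + 1 : ℕ) : ℝ) * L) = -(3 * L / 2) := by
            push_cast; ring
          rw [e, abs_neg, abs_of_pos (by positivity)]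
          linarith
        rw [z1, z2]
        have e : 2 * ((j + 1 : ℕ) : ℝ) * L = (2 * (j:ℝ) + 2) * L := by push_cast; ring
        rw [e]
    · push Not at hQ'
      rw [hW i x hi, hW0' x hQ']
      have z1 : η₂ (x - ((2 * (i:ℝ) + 1) * L) • e1 hn) = 0 := by
        refine eta_zero' h2 (hQ' i) ?_
        have e : (2 * (i:ℝ) + 1) * L - (3 * L / 2 + 2 * i * L) = -(L / 2) := by ring
        rw [e, abs_neg, abs_of_pos (by positivity)]
        linarith
      rw [z1]
      rcases Nat.eq_zero_or_pos i with rfl | hpos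
      · have e : x - (2 * ((0 : ℕ) : ℝ) * L) • e1 hn = x := by simp
        rw [e]; exact add_zero (om0 n + η x)
      · obtain ⟨k, rfl⟩ : ∃ k, i = k + 1 := ⟨i - 1, by omega⟩
        have z2 : η (x - (2 * ((k + 1 : ℕ) : ℝ) * L) • e1 hn) = 0 := by
          refine eta_zero' h1 (hQ' k) ?_
          have e : 2 * ((k + 1 : ℕ) : ℝ) * L - (3 * L / 2 + 2 * k * L) = L / 2 := by
            push_cast; ring
          rw [e, abs_of_pos (by positivity)]
          linarith
        have z3 : η x = 0 := by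
          have h3 : η (x - (0:ℝ) • e1 hn) = 0 := by
            refine eta_zero h1 hi ?_
            have e : (0:ℝ) - (L / 2 + 2 * ((k + 1 : ℕ) : ℝ) * L)
                = -(L / 2 + 2 * ((k + 1 : ℕ) : ℝ) * L) := by ring
            rw [e, abs_neg, abs_of_pos (by positivity)]
            push_cast
            have : 0 ≤ (k:ℝ) * L := by positivity
            linarith
          rwa [zero_smul, sub_zero] at h3
        rw [z2, z3]
        exact add_zero (om0 n + 0)
  · push Not at hQ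
    rw [hW0 x hQ]
    by_cases hQ' : ∃ j : ℕ, x ∈ closedBall ((3 * L / 2 + 2 * j * L) • e1 hn) (L / 2 + ρ₁)
    · obtain ⟨j, hj⟩ := hQ'
      rw [hW' j x hj]
      have z1 : η (x - ((2 * (j:ℝ) + 2) * L) • e1 hn) = 0 := by
        refine eta_zero' h1 (hQ (j + 1)) ?_
        have e : (2 * (j:ℝ) + 2) * L - (L / 2 + 2 * ((j + 1 : ℕ) : ℝ) * L) = -(L / 2) := by
          push_cast; ring
        rw [e, abs_neg, abs_of_pos (by positivity)]
        linarith
      have z2 : η₂ (x - ((2 * (j:ℝ) + 1) * L) • e1 hn) = 0 := by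
        refine eta_zero' h2 (hQ j) ?_
        have e : (2 * (j:ℝ) + 1) * L - (L / 2 + 2 * j * L) = L / 2 := by ring
        rw [e, abs_of_pos (by positivity)]
        linarith
      rw [z1, z2]
      exact (congrArg (fun A : B2 (EE n) => A + 0) (add_zero (om0 n))).trans (add_zero (om0 n)) |>.symm
    · push Not at hQ'
      rw [hW0' x hQ']
      have z3 : η (x - (0:ℝ) • e1 hn) = 0 := by
        refine eta_zero' h1 (hQ 0) ?_
        have e : (0:ℝ) - (L / 2 + 2 * ((0 : ℕ) : ℝ) * L) = -(L / 2) := by push_cast; ring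
        rw [e, abs_neg, abs_of_pos (by positivity)]
        linarith
      rw [zero_smul, sub_zero] at z3
      rw [z3]
      exact (add_zero (om0 n)).symm

end

theorem swindle {n : ℕ} (hn : 2 ≤ n) {η η₂ : EE n → B2 (EE n)} {ρ : ℝ}
    (h1 : ∀ x ∉ closedBall (0 : EE n) ρ, η x = 0) (h2 : ∀ x ∉ closedBall (0 : EE n) ρ, η₂ x = 0)
    {L₀ ρ₁ : ℝ} (hρ : ρ ≤ ρ₁)
    (hP : ∀ L, L₀ ≤ L → ∀ σ : ℝ, (σ = 1 ∨ σ = -1) →
      Mov (closedBall ((σ * (L / 2)) • e1 hn) (L / 2 + ρ₁)) (fun _ => om0 n)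
        (fun x => om0 n + η x + η₂ (x - (σ * L) • e1 hn))) :
    ∃ F : Dif (EE n), pb F (fun _ => om0 n) = fun x => om0 n + η x := by
  set L : ℝ := |L₀| + 2 * |ρ₁| + 2 * |ρ| + 1 with hLdef
  have hL0 : 0 < L := by positivity
  have hLL : L₀ ≤ L := by
    have := le_abs_self L₀
    have := abs_nonneg ρ₁
    have := abs_nonneg ρ
    linarith
  have hL : 2 * ρ₁ < L := by
    have := le_abs_self ρ₁
    have := abs_nonneg L₀
    have := abs_nonneg ρ
    linarith
  obtain ⟨g, hg, hgp⟩ := (hP L hLL 1 (Or.inl rfl)).symm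
  obtain ⟨k, hk, hkp⟩ := (hP L hLL (-1) (Or.inr rfl)).symm
  have hna : ‖(2 * L) • e1 hn‖ = 2 * L := by
    rw [norm_smul, norm_e1, mul_one, Real.norm_eq_abs, abs_of_pos (by positivity)]
  have hR : 2 * (L / 2 + ρ₁) < ‖(2 * L) • e1 hn‖ := by rw [hna]; linarith
  obtain ⟨G, hG, hG0⟩ := glue g hg hR
  -- the second one
  have hk' : ∀ x ∉ closedBall ((-1 * (L / 2)) • e1 hn + (2 * L) • e1 hn) (L / 2 + ρ₁),
      (tr k ((2 * L) • e1 hn)) x = x := by
    intro x hx
    have h3 : x - (2 * L) • e1 hn ∉ closedBall ((-1 * (L / 2)) • e1 hn) (L / 2 + ρ₁) := by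
      intro h4
      apply hx
      rw [mem_closedBall_iff_norm] at h4 ⊢
      have e : x - ((-1 * (L / 2)) • e1 hn + (2 * L) • e1 hn)
          = x - (2 * L) • e1 hn - (-1 * (L / 2)) • e1 hn := by abel
      rw [e]; exact h4
    change k (x - (2 * L) • e1 hn) + (2 * L) • e1 hn = x
    rw [hk _ h3]; abel
  obtain ⟨K, hK, hK0⟩ := glue (tr k ((2 * L) • e1 hn)) hk' hR
  have key : pb G (fun _ => om0 n) = pb K (fun x => om0 n + η x) := by
    refine groupings (hn := hn) h1 h2 hρ hL0 hL ?_ ?_ ?_ ?_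
    · intro i x hx
      have hc : ((L / 2 + 2 * i * L) • e1 hn : EE n)
          = (1 * (L / 2)) • e1 hn + (i:ℝ) • (2 * L) • e1 hn := by
        rw [smul_smul, ← add_smul]; congr 1; ring
      rw [hc] at hx
      rw [pb_congr_at (hG i x hx) (κ' := fun _ => om0 n) rfl, pb_tr, hgp]
      have e1' : (i:ℝ) • (2 * L) • e1 hn = (2 * i * L) • e1 hn := by
        rw [smul_smul]; congr 1; ring
      have e2' : x - (2 * i * L) • e1 hn - (1 * L) • e1 hn
          = x - ((2 * i + 1) * L) • e1 hn := by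
        rw [sub_sub, ← add_smul]; congr 2; ring
      simp only [e1', e2']
    · intro x hx
      have hx' : ∀ i : ℕ, x ∉ closedBall ((1 * (L / 2)) • e1 hn + (i:ℝ) • (2 * L) • e1 hn)
          (L / 2 + ρ₁) := by
        intro i
        have hc : ((L / 2 + 2 * i * L) • e1 hn : EE n)
          = (1 * (L / 2)) • e1 hn + (i:ℝ) • (2 * L) • e1 hn := by
          rw [smul_smul, ← add_smul]; congr 1; ring
        rw [← hc]; exact hx i
      rw [pb_congr_at (hG0 x hx') (κ' := fun _ => om0 n) rfl, pb_id]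
    · intro i x hx
      have hc : ((3 * L / 2 + 2 * i * L) • e1 hn : EE n)
          = (-1 * (L / 2)) • e1 hn + (2 * L) • e1 hn + (i:ℝ) • (2 * L) • e1 hn := by
        rw [smul_smul, ← add_smul, ← add_smul]; congr 1; ring
      have hxx := hx
      rw [hc] at hx
      have hKx : K x ∈ closedBall ((3 * L / 2 + 2 * i * L) • e1 hn : EE n) (L / 2 + ρ₁) := by
        rw [(hK i x hx).eq_of_nhds, hc]
        have h3 : x - (i:ℝ) • (2 * L) • e1 hn
            ∈ closedBall ((-1 * (L / 2)) • e1 hn + (2 * L) • e1 hn) (L / 2 + ρ₁) := by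
          rw [mem_closedBall_iff_norm] at hx ⊢
          have e : x - (i:ℝ) • (2 * L) • e1 hn - ((-1 * (L / 2)) • e1 hn + (2 * L) • e1 hn)
            = x - ((-1 * (L / 2)) • e1 hn + (2 * L) • e1 hn + (i:ℝ) • (2 * L) • e1 hn) := by abel
          rw [e]; exact hx
        have h4 := Dif.mem_of_fix hk' h3
        rw [mem_closedBall_iff_norm] at h4 ⊢
        have e : (tr k ((2 * L) • e1 hn)) (x - (i:ℝ) • (2 * L) • e1 hn)
            - ((-1 * (L / 2)) • e1 hn + (2 * L) • e1 hn)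
            = (tr k ((2 * L) • e1 hn)) (x - (i:ℝ) • (2 * L) • e1 hn) + (i:ℝ) • (2 * L) • e1 hn
            - ((-1 * (L / 2)) • e1 hn + (2 * L) • e1 hn + (i:ℝ) • (2 * L) • e1 hn) := by abel
        rw [← e]; exact h4
      have hz : η (K x) = 0 := by
        have h3 : η (K x - (0:ℝ) • e1 hn) = 0 := by
          refine eta_zero h1 hKx ?_
          have e : (0:ℝ) - (3 * L / 2 + 2 * i * L) = -(3 * L / 2 + 2 * i * L) := by ring
          rw [e, abs_neg, abs_of_pos (by positivity)]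
          have : 0 ≤ (i:ℝ) * L := by positivity
          linarith
        rwa [zero_smul, sub_zero] at h3
      rw [pb_congr_at (hK i x hx) (κ' := fun _ => om0 n) (by
        change om0 n + η (K x) = om0 n
        rw [hz]; exact add_zero (om0 n)), pb_tr]
      have e5 : pb (tr k ((2 * L) • e1 hn)) (fun _ => om0 n) (x - (i:ℝ) • (2 * L) • e1 hn)
          = pb k (fun _ => om0 n) (x - (i:ℝ) • (2 * L) • e1 hn - (2 * L) • e1 hn) :=
        pb_tr k ((2 * L) • e1 hn) (om0 n) _
      rw [e5, hkp]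
      have e1' : x - (i:ℝ) • (2 * L) • e1 hn - (2 * L) • e1 hn
          = x - ((2 * i + 2) * L) • e1 hn := by
        rw [smul_smul, sub_sub, ← add_smul]; congr 2; ring
      have e2' : x - ((2 * i + 2) * L) • e1 hn - (-1 * L) • e1 hn
          = x - ((2 * i + 1) * L) • e1 hn := by
        rw [sub_sub, ← add_smul]; congr 2; ring
      simp only [e1', e2']
    · intro x hx
      have hx' : ∀ i : ℕ, x ∉ closedBall ((-1 * (L / 2)) • e1 hn + (2 * L) • e1 hn
          + (i:ℝ) • (2 * L) • e1 hn) (L / 2 + ρ₁) := by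
        intro i
        have hc : ((3 * L / 2 + 2 * i * L) • e1 hn : EE n)
          = (-1 * (L / 2)) • e1 hn + (2 * L) • e1 hn + (i:ℝ) • (2 * L) • e1 hn := by
          rw [smul_smul, ← add_smul, ← add_smul]; congr 1; ring
        rw [← hc]; exact hx i
      rw [pb_congr_at (hK0 x hx') (κ' := fun x => om0 n + η x) rfl, pb_id]
  refine ⟨K.symm.trans G, ?_⟩
  rw [pb_trans, key]
  exact pb_symm K rfl

end Pool.Agent.H60.Sy
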