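import Pool.Agent.H60.Sy.Basic

/-! Base definitions: the standard form on `(Fin n → ℝ) × (Fin n → ℝ)`, smooth closed alternating
forms `Fo`, and the relation `Mov S κ κ'` (the forms are related by a diffeomorphism that is the
identity off `S`). -/

set_option autoImplicit false
set_option linter.unusedSectionVars false

open scoped ContDiff Topology
open Set Metric

namespace Pool.Agent.H60.Sy

/-- The space. Its norm is the sup norm, so closed balls are closed cubes. -/
abbrev EE (n : ℕ) := (Fin n → ℝ) × (Fin n → ℝ)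

/-- first coordinate in the first factor, as a continuous linear map -/
noncomputable def co1 (n : ℕ) (i : Fin n) : EE n →L[ℝ] ℝ :=
  (ContinuousLinearMap.proj i).comp (ContinuousLinearMap.fst ℝ (Fin n → ℝ) (Fin n → ℝ))

/-- coordinate in the second factor, as a continuous linear map -/
noncomputable def co2 (n : ℕ) (i : Fin n) : EE n →L[ℝ] ℝ :=
  (ContinuousLinearMap.proj i).comp (ContinuousLinearMap.snd ℝ (Fin n → ℝ) (Fin n → ℝ))

@[simp] theorem co1_apply {n : ℕ} (i : Fin n) (v : EE n) : co1 n i v = v.1 i := rfl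
@[simp] theorem co2_apply {n : ℕ} (i : Fin n) (v : EE n) : co2 n i v = v.2 i := rfl

/-- The standard symplectic form. -/
noncomputable def om0 (n : ℕ) : B2 (EE n) :=
  ∑ i, ((co1 n i).smulRight (co2 n i) - (co2 n i).smulRight (co1 n i))

theorem om0_apply {n : ℕ} (v w : EE n) :
    om0 n v w = ∑ i, (v.1 i * w.2 i - v.2 i * w.1 i) := by
  unfold om0
  rw [sum_apply, sum_apply]
  refine Finset.sum_congr rfl fun i _ => ?_
  simp only [sub_apply, ContinuousLinearMap.smulRight_apply, co1_apply,
    co2_apply, smul_apply, smul_eq_mul]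

theorem om0_alt {n : ℕ} (v w : EE n) : om0 n v w = - om0 n w v := by
  rw [om0_apply, om0_apply, ← Finset.sum_neg_distrib]
  refine Finset.sum_congr rfl fun i _ => ?_
  ring

theorem om0_nondeg (n : ℕ) : Nondeg (om0 n) := by
  intro v hv
  have h1 : ∀ i, v.1 i = 0 := by
    intro i
    have h := hv (0, Pi.single i 1)
    rw [om0_apply] at h
    rw [Finset.sum_eq_single i] at h
    · simpa using h
    · intro j _ hj
      simp [Pi.single_eq_of_ne hj]
    · intro h; exact absurd (Finset.mem_univ _) h
  have h2 : ∀ i, v.2 i = 0 := by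
    intro i
    have h := hv (Pi.single i 1, 0)
    rw [om0_apply] at h
    rw [Finset.sum_eq_single i] at h
    · simpa using h
    · intro j _ hj
      simp [Pi.single_eq_of_ne hj]
    · intro h; exact absurd (Finset.mem_univ _) h
  ext i
  · exact h1 i
  · exact h2 i

section Forms

variable {E : Type} [NormedAddCommGroup E] [NormedSpace ℝ E]

/-- Smooth closed alternating forms. -/
structure Fo (η : E → B2 E) : Prop where
  sm : ContDiff ℝ ∞ η
  closed : Closed η
  alt : Alt η

theorem Symp.fo {κ : E → B2 E} (h : Symp κ) : Fo κ := ⟨h.sm, h.closed, h.alt⟩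

theorem Fo.symp {κ : E → B2 E} (h : Fo κ) (hn : ∀ x, Nondeg (κ x)) : Symp κ :=
  ⟨h.sm, h.closed, h.alt, hn⟩

theorem fo_const {A : B2 E} (h : ∀ v w, A v w = - A w v) : Fo (fun _ : E => A) where
  sm := contDiff_const
  closed := fun x u v w => by simp
  alt := fun _ v w => h v w

theorem fo_om0 (n : ℕ) : Fo (fun _ : EE n => om0 n) := fo_const om0_alt

theorem symp_om0 (n : ℕ) : Symp (fun _ : EE n => om0 n) := (fo_om0 n).symp fun _ => om0_nondeg n

theorem Fo.zero : Fo (fun _ : E => (0 : B2 E)) := fo_const (by simp)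

theorem Fo.add {η ζ : E → B2 E} (h : Fo η) (k : Fo ζ) : Fo (fun x => η x + ζ x) where
  sm := h.sm.add k.sm
  closed := fun x u v w => by
    rw [fderiv_fun_add (h.sm.differentiable (by simp) x) (k.sm.differentiable (by simp) x)]
    have a := h.closed x u v w
    have b := k.closed x u v w
    simp only [add_apply]
    linarith
  alt := fun x v w => by
    have a := h.alt x v w
    have b := k.alt x v w
    simp only [add_apply]
    linarith

theorem hasFDerivAt_neg' {G : Type} [NormedAddCommGroup G] [NormedSpace ℝ G] {f : E → G}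
    {f' : E →L[ℝ] G} {x : E} (hf : HasFDerivAt f f' x) : HasFDerivAt (fun x => - f x) (-f') x :=
  hf.neg

theorem hasFDerivAt_const_smul' {G : Type} [NormedAddCommGroup G] [NormedSpace ℝ G] {f : E → G}
    {f' : E →L[ℝ] G} {x : E} (hf : HasFDerivAt f f' x) (c : ℝ) :
    HasFDerivAt (fun x => c • f x) (c • f') x :=
  hf.const_smul c

theorem contDiff_const_smul' {G : Type} [NormedAddCommGroup G] [NormedSpace ℝ G] {f : E → G}
    (hf : ContDiff ℝ ∞ f) (c : ℝ) : ContDiff ℝ ∞ (fun x => c • f x) :=
  contDiff_const.smul hf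

theorem Fo.smul {η : E → B2 E} (h : Fo η) (c : ℝ) : Fo (fun x => c • η x) where
  sm := contDiff_const_smul' h.sm c
  closed := fun x u v w => by
    rw [(hasFDerivAt_const_smul' (h.sm.differentiable (by simp) x).hasFDerivAt c).fderiv]
    have a := h.closed x u v w
    simp only [smul_apply, smul_eq_mul]
    linear_combination c * a
  alt := fun x v w => by
    have a := h.alt x v w
    simp only [smul_apply, smul_eq_mul]
    rw [a]; ring

theorem Fo.neg {η : E → B2 E} (h : Fo η) : Fo (fun x => - η x) := by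
  have h1 := h.smul (-1)
  have e : (fun x => - η x) = fun x => (-1 : ℝ) • η x := by
    funext x; ext v w; simp
  rw [e]; exact h1

theorem Fo.sub {η ζ : E → B2 E} (h : Fo η) (k : Fo ζ) : Fo (fun x => η x - ζ x) := by
  have := h.add k.neg
  have e : (fun x => η x - ζ x) = fun x => η x + - ζ x := by
    funext x; exact sub_eq_add_neg (η x) (ζ x)
  rw [e]; exact this

/-- Two forms related by a diffeomorphism which is the identity off `S`. -/
def Mov (S : Set E) (κ κ' : E → B2 E) : Prop :=
  ∃ f : Dif E, (∀ x ∉ S, f x = x) ∧ pb f κ' = κ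

theorem Mov.refl (S : Set E) (κ : E → B2 E) : Mov S κ κ :=
  ⟨Dif.refl E, fun _ _ => rfl, pb_id κ⟩

theorem Mov.symm {S : Set E} {κ κ' : E → B2 E} (h : Mov S κ κ') : Mov S κ' κ := by
  obtain ⟨f, h1, h2⟩ := h
  exact ⟨f.symm, Dif.symm_fix h1, pb_symm f h2⟩

theorem Mov.trans {S : Set E} {κ κ' κ'' : E → B2 E} (h : Mov S κ κ') (h' : Mov S κ' κ'') :
    Mov S κ κ'' := by
  obtain ⟨f, h1, h2⟩ := h
  obtain ⟨g, h3, h4⟩ := h'
  refine ⟨f.trans g, fun x hx => ?_, ?_⟩
  · rw [Dif.trans_apply, h1 x hx, h3 x hx]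
  · rw [pb_trans, h4, h2]

theorem Mov.mono {S T : Set E} (hST : S ⊆ T) {κ κ' : E → B2 E} (h : Mov S κ κ') : Mov T κ κ' := by
  obtain ⟨f, h1, h2⟩ := h
  exact ⟨f, fun x hx => h1 x fun hS => hx (hST hS), h2⟩

/-- Several moves with supports in balls around the origin combine. -/
theorem Mov.trans_ball {R R' : ℝ} {κ κ' κ'' : E → B2 E} (h : Mov (closedBall 0 R) κ κ')
    (h' : Mov (closedBall 0 R') κ' κ'') : Mov (closedBall 0 (max R R')) κ κ'' :=
  (h.mono (closedBall_subset_closedBall (le_max_left _ _))).trans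
    (h'.mono (closedBall_subset_closedBall (le_max_right _ _)))

end Forms

end Pool.Agent.H60.Sy
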