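import Pool.Agent.H60.Sy.Moser
import Pool.Agent.H60.Sy.Defs

/-!
[H60 SY NDO] Nondegeneracy is an open condition.

Statements to prove (keep them): `isOpen_nondeg`, `exists_nondeg_of_compact`, `nondeg_bilinearComp`,
`injective_of_nondeg`.

Sketch. `E` finite-dimensional. By `Nondeg.equiv`, `Nondeg.coe_equiv` (Moser.lean) `Nondeg A` holds iff
`A : E →L[ℝ] (E →L[ℝ] ℝ)` is the coercion of a continuous linear equivalence (`Nondeg A` says that `A` is
injective, see `Nondeg.injective`), and the set of such `A` is open (`ContinuousLinearEquiv.isOpen`).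
`exists_nondeg_of_compact`: `IsCompact.exists_thickening_subset_open`.
-/

set_option autoImplicit false
set_option linter.unusedSectionVars false

open scoped ContDiff Topology
open Set Metric

namespace Pool.Agent.H60.Sy

variable {E : Type} [NormedAddCommGroup E] [NormedSpace ℝ E] [FiniteDimensional ℝ E]

theorem isOpen_nondeg : IsOpen {A : B2 E | Nondeg A} := by
  have : CompleteSpace E := FiniteDimensional.complete ℝ E
  rw [isOpen_iff_mem_nhds]
  intro A hA
  have hA' : Nondeg A := hA
  have h := ContinuousLinearEquiv.nhds hA'.equiv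
  rw [hA'.coe_equiv] at h
  refine Filter.mem_of_superset h ?_
  rintro B ⟨e, rfl⟩
  intro v hv
  have h0 : e v = 0 := by
    ext w
    exact hv w
  exact e.injective (by rw [h0, map_zero])

theorem exists_nondeg_of_compact {K : Set (B2 E)} (hK : IsCompact K) (hn : ∀ A ∈ K, Nondeg A) :
    ∃ ε > 0, ∀ A ∈ K, ∀ B : B2 E, dist B A < ε → Nondeg B := by
  obtain ⟨δ, hδ, hsub⟩ := hK.exists_thickening_subset_open isOpen_nondeg hn
  exact ⟨δ, hδ, fun A hA B hB => hsub (mem_thickening_iff.2 ⟨A, hA, hB⟩)⟩

/-- pull-back of a nondegenerate form by an injective linear map -/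
theorem nondeg_bilinearComp {A : B2 E} (hA : Nondeg A) {L : E →L[ℝ] E}
    (hL : Function.Injective L) : Nondeg (A.bilinearComp L L) := by
  intro v hv
  have hs : Function.Surjective (L : E →ₗ[ℝ] E) := LinearMap.injective_iff_surjective.1 hL
  apply hL
  rw [map_zero]
  apply hA
  intro w
  obtain ⟨u, hu⟩ := hs w
  have h1 := hv u
  rw [ContinuousLinearMap.bilinearComp_apply] at h1
  rw [← hu]
  exact h1

/-- if the pull-back is nondegenerate then the linear map is injective -/
theorem injective_of_nondeg {A : B2 E} {L : E →L[ℝ] E} (h : Nondeg (A.bilinearComp L L)) :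
    Function.Injective L := by
  rw [injective_iff_map_eq_zero]
  intro v hv
  apply h
  intro w
  rw [ContinuousLinearMap.bilinearComp_apply, hv, map_zero]
  rfl

end Pool.Agent.H60.Sy
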