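import Pool.Agent.H60.Sy.CplAbs

/-!
[H60 SY CPL] Compact Poincare lemma for two-forms in closed cubes of `EE n`, `n ≥ 2`.

Statement to prove (keep it): `cpl`.

`EE n = (Fin n → ℝ) × (Fin n → ℝ)` with the sup norm, so `x ∈ closedBall c r` iff (for `0 ≤ r`) all
coordinates satisfy `|x.1 i - c.1 i| ≤ r`, `|x.2 i - c.2 i| ≤ r` (`Prod.norm_def`, `pi_norm_le_iff_of_nonneg`,
`mem_closedBall_iff_norm`). If `r > 0` use `cpl_abs` with `ℓ₁ = co1 n ⟨0, _⟩`, `ℓ₂ = co1 n ⟨1, _⟩`,
`e₁ = (Pi.single ⟨0,_⟩ 1, 0)`, `e₂ = (Pi.single ⟨1,_⟩ 1, 0)`, `a_i = c.1 i - r`, `b_i = c.1 i + r` and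
`R = {x | (∀ i, i ≠ ⟨0,_⟩ → i ≠ ⟨1,_⟩ → |x.1 i - c.1 i| ≤ r) ∧ ∀ i, |x.2 i - c.2 i| ≤ r}` (closed,
invariant, and not everything because there is a second factor coordinate). If `r < 0` the ball is
empty, so `β = 0` and `ν = 0` works. If `r = 0` then `β = 0` off one point, hence everywhere by
continuity (e.g. `dense_compl_singleton`, or `x + t e₁ → x`).
-/

set_option autoImplicit false
set_option linter.unusedSectionVars false

open scoped ContDiff Topology
open Set Metric

namespace Pool.Agent.H60.Sy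

private theorem Cpl_mem {n : ℕ} {c x : EE n} {r : ℝ} (hr : 0 ≤ r) :
    x ∈ closedBall c r ↔ (∀ i, |x.1 i - c.1 i| ≤ r) ∧ ∀ i, |x.2 i - c.2 i| ≤ r := by
  rw [mem_closedBall_iff_norm, Prod.norm_def, max_le_iff, pi_norm_le_iff_of_nonneg hr,
    pi_norm_le_iff_of_nonneg hr]
  exact Iff.rfl

private theorem Cpl_zero {n : ℕ} {β : EE n → B2 (EE n)} {S : Set (EE n)} (h : ∀ x, β x = 0) :
    ∃ ν : EE n → (EE n →L[ℝ] ℝ), ContDiff ℝ ∞ ν ∧ (∀ x, dd ν x = β x) ∧
      ∀ x ∉ S, ν x = 0 := by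
  refine ⟨fun _ => 0, contDiff_const, ?_, fun _ _ => rfl⟩
  intro x
  rw [h x]
  have h0 : fderiv ℝ (fun _ : EE n => (0 : EE n →L[ℝ] ℝ)) x = 0 := by
    rw [fderiv_fun_const]
    rfl
  have h1 : dd (fun _ : EE n => (0 : EE n →L[ℝ] ℝ)) x = 0 := by
    refine ContinuousLinearMap.ext fun u => ContinuousLinearMap.ext fun v => ?_
    rw [dd_apply, h0]
    simp
  exact h1

theorem cpl {n : ℕ} (hn : 2 ≤ n) {c : EE n} {r : ℝ} {β : EE n → B2 (EE n)} (hβ : Fo β)
    (hs : ∀ x ∉ closedBall c r, β x = 0) :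
    ∃ ν : EE n → (EE n →L[ℝ] ℝ), ContDiff ℝ ∞ ν ∧ (∀ x, dd ν x = β x) ∧
      ∀ x ∉ closedBall c r, ν x = 0 := by
  obtain ⟨i0, hi0⟩ : ∃ i0 : Fin n, i0 = ⟨0, by omega⟩ := ⟨_, rfl⟩
  obtain ⟨i1, hi1⟩ : ∃ i1 : Fin n, i1 = ⟨1, by omega⟩ := ⟨_, rfl⟩
  have h01 : i0 ≠ i1 := by
    rw [hi0, hi1]
    intro h
    have := congrArg Fin.val h
    simp at this
  have hnt : Nontrivial (EE n) := by
    refine ⟨⟨0, (Pi.single i0 1, 0), ?_⟩⟩
    intro h
    have h1 := congrArg (fun z : EE n => z.1 i0) h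
    simp at h1
  rcases lt_trichotomy r 0 with hr | hr | hr
  · refine Cpl_zero fun x => hs x ?_
    rw [closedBall_eq_empty.2 hr]
    exact notMem_empty x
  · refine Cpl_zero ?_
    have h1 : Set.EqOn β (fun _ => 0) ({c}ᶜ : Set (EE n)) := by
      intro x hx
      refine hs x ?_
      rw [hr, closedBall_zero]
      exact hx
    have h2 := Continuous.ext_on (dense_compl_singleton c) hβ.sm.continuous continuous_const h1
    intro x
    rw [h2]
  · obtain ⟨R, hRdef⟩ : ∃ R : Set (EE n), R = {x | (∀ i, i ≠ i0 → i ≠ i1 → |x.1 i - c.1 i| ≤ r) ∧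
      ∀ i, |x.2 i - c.2 i| ≤ r} := ⟨_, rfl⟩
    have hmemR : ∀ x, x ∈ R ↔ (∀ i, i ≠ i0 → i ≠ i1 → |x.1 i - c.1 i| ≤ r) ∧
      ∀ i, |x.2 i - c.2 i| ≤ r := by
      intro x
      rw [hRdef]
      exact Iff.rfl
    have hclosed : IsClosed R := by
      rw [hRdef, setOf_and]
      refine IsClosed.inter ?_ ?_
      · rw [setOf_forall]
        refine isClosed_iInter fun i => ?_
        by_cases h1 : i = i0
        · simp [h1]
        · by_cases h2 : i = i1
          · simp [h2]
          · have h3 : {x : EE n | i ≠ i0 → i ≠ i1 → |x.1 i - c.1 i| ≤ r} =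
                {x : EE n | |x.1 i - c.1 i| ≤ r} := by
              ext x
              simp only [mem_setOf_eq]
              exact ⟨fun h => h h1 h2, fun h _ _ => h⟩
            rw [h3]
            exact isClosed_le (by fun_prop) continuous_const
      · rw [setOf_forall]
        refine isClosed_iInter fun i => ?_
        exact isClosed_le (by fun_prop) continuous_const
    have hinv : ∀ (j : Fin n), j = i0 ∨ j = i1 → ∀ (x : EE n) (t : ℝ),
        x + t • ((Pi.single j 1, 0) : EE n) ∈ R ↔ x ∈ R := by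
      intro j hj x t
      rw [hmemR, hmemR]
      have h1 : ∀ i, i ≠ i0 → i ≠ i1 → (x + t • ((Pi.single j 1, 0) : EE n)).1 i = x.1 i := by
        intro i hi hi'
        have h2 : i ≠ j := by
          rcases hj with h | h
          · rw [h]; exact hi
          · rw [h]; exact hi'
        simp [Pi.single_eq_of_ne h2]
      have h3 : ∀ i, (x + t • ((Pi.single j 1, 0) : EE n)).2 i = x.2 i := by
        intro i
        simp
      constructor
      · rintro ⟨h4, h5⟩
        refine ⟨fun i hi hi' => ?_, fun i => ?_⟩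
        · rw [← h1 i hi hi']
          exact h4 i hi hi'
        · rw [← h3 i]
          exact h5 i
      · rintro ⟨h4, h5⟩
        refine ⟨fun i hi hi' => ?_, fun i => ?_⟩
        · rw [h1 i hi hi']
          exact h4 i hi hi'
        · rw [h3 i]
          exact h5 i
    have hR0 : R ≠ univ := by
      intro h
      have h1 : ((c.1, fun i => c.2 i + (r + 1)) : EE n) ∈ R := by
        rw [h]
        exact mem_univ _
      rw [hmemR] at h1
      have h2 := h1.2 i0
      simp only [add_sub_cancel_left] at h2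
      rw [abs_of_pos (by linarith)] at h2
      linarith
    have hiff : ∀ x : EE n, (c.1 i0 - r ≤ co1 n i0 x ∧ co1 n i0 x ≤ c.1 i0 + r ∧
        c.1 i1 - r ≤ co1 n i1 x ∧ co1 n i1 x ≤ c.1 i1 + r ∧ x ∈ R) ↔ x ∈ closedBall c r := by
      intro x
      rw [Cpl_mem hr.le, hmemR, co1_apply, co1_apply]
      constructor
      · rintro ⟨h1, h2, h3, h4, h5, h6⟩
        refine ⟨fun i => ?_, h6⟩
        by_cases hi : i = i0
        · rw [hi, abs_le]
          constructor <;> linarith
        · by_cases hi' : i = i1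
          · rw [hi', abs_le]
            constructor <;> linarith
          · exact h5 i hi hi'
      · rintro ⟨h1, h2⟩
        have h3 := abs_le.1 (h1 i0)
        have h4 := abs_le.1 (h1 i1)
        exact ⟨by linarith [h3.1], by linarith [h3.2], by linarith [h4.1], by linarith [h4.2],
          fun i _ _ => h1 i, h2⟩
    obtain ⟨ν, hν1, hν2, hν3⟩ := cpl_abs (co1 n i0) (co1 n i1) ((Pi.single i0 1, 0) : EE n)
      ((Pi.single i1 1, 0) : EE n) (by simp) (by simp [Pi.single_eq_of_ne h01])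
      (by simp [Pi.single_eq_of_ne h01.symm]) (by simp) hclosed (hinv i0 (Or.inl rfl))
      (hinv i1 (Or.inr rfl)) hR0 (a₁ := c.1 i0 - r) (b₁ := c.1 i0 + r) (a₂ := c.1 i1 - r)
      (b₂ := c.1 i1 + r) (by linarith) (by linarith) hβ (by
        intro x hx
        rw [hiff] at hx
        exact hs x hx)
    refine ⟨ν, hν1, hν2, fun x hx => hν3 x ?_⟩
    rw [hiff]
    exact hx

end Pool.Agent.H60.Sy
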