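import Mathlib

/-! Diffeomorphisms of a normed space and pull-backs of bilinear forms. -/

set_option autoImplicit false
set_option linter.unusedSectionVars false

open scoped ContDiff Topology
open Set

namespace Pool.Agent.H60.Sy

/-- Smooth bijections with smooth inverse. -/
structure Dif (E : Type) [NormedAddCommGroup E] [NormedSpace ℝ E] where
  /-- the underlying bijection -/
  eqv : E ≃ E
  sm : ContDiff ℝ ∞ eqv
  smi : ContDiff ℝ ∞ eqv.symm

/-- Bilinear forms. -/
abbrev B2 (E : Type) [NormedAddCommGroup E] [NormedSpace ℝ E] := E →L[ℝ] E →L[ℝ] ℝ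

variable {E : Type} [NormedAddCommGroup E] [NormedSpace ℝ E]

namespace Dif

instance : CoeFun (Dif E) (fun _ => E → E) := ⟨fun f => f.eqv⟩

/-- identity -/
def refl (E : Type) [NormedAddCommGroup E] [NormedSpace ℝ E] : Dif E where
  eqv := Equiv.refl E
  sm := contDiff_id
  smi := contDiff_id

/-- inverse -/
def symm (f : Dif E) : Dif E where
  eqv := f.eqv.symm
  sm := f.smi
  smi := f.sm

/-- `f.trans g = g ∘ f` -/
def trans (f g : Dif E) : Dif E where
  eqv := f.eqv.trans g.eqv
  sm := g.sm.comp f.sm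
  smi := f.smi.comp g.smi

@[simp] theorem refl_apply (x : E) : refl E x = x := rfl
@[simp] theorem trans_apply (f g : Dif E) (x : E) : (f.trans g) x = g (f x) := rfl
@[simp] theorem symm_apply_apply (f : Dif E) (x : E) : f.symm (f x) = x :=
  f.eqv.symm_apply_apply x
@[simp] theorem apply_symm_apply (f : Dif E) (x : E) : f (f.symm x) = x :=
  f.eqv.apply_symm_apply x

theorem contDiff (f : Dif E) : ContDiff ℝ ∞ f := f.sm

theorem differentiable (f : Dif E) : Differentiable ℝ f := f.sm.differentiable (by simp)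

theorem continuous (f : Dif E) : Continuous f := f.sm.continuous

theorem hasFDerivAt (f : Dif E) (x : E) : HasFDerivAt f (fderiv ℝ f x) x :=
  (f.differentiable x).hasFDerivAt

theorem injective (f : Dif E) : Function.Injective f := f.eqv.injective

/-- Constructor from two functions. -/
def mk' (f g : E → E) (hf : ContDiff ℝ ∞ f) (hg : ContDiff ℝ ∞ g)
    (h1 : ∀ x, g (f x) = x) (h2 : ∀ x, f (g x) = x) : Dif E where
  eqv := ⟨f, g, h1, h2⟩
  sm := hf
  smi := hg

@[simp] theorem mk'_apply (f g : E → E) (hf : ContDiff ℝ ∞ f) (hg : ContDiff ℝ ∞ g)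
    (h1 : ∀ x, g (f x) = x) (h2 : ∀ x, f (g x) = x) (x : E) :
    mk' f g hf hg h1 h2 x = f x := rfl

theorem symm_fix {f : Dif E} {S : Set E} (h : ∀ x ∉ S, f x = x) : ∀ x ∉ S, f.symm x = x := by
  intro x hx
  have := congrArg f.symm (h x hx)
  rw [symm_apply_apply] at this
  exact this.symm

theorem mem_of_fix {f : Dif E} {S : Set E} (h : ∀ x ∉ S, f x = x) {x : E} (hx : x ∈ S) :
    f x ∈ S := by
  by_contra hn
  have h1 := h _ hn
  have h2 := f.injective h1
  rw [h2] at hn
  exact hn hx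

end Dif

/-- Pull-back of a field of bilinear forms. -/
noncomputable def pb (f : E → E) (κ : E → B2 E) (x : E) : B2 E :=
  (κ (f x)).bilinearComp (fderiv ℝ f x) (fderiv ℝ f x)

@[simp] theorem pb_apply (f : E → E) (κ : E → B2 E) (x v w : E) :
    pb f κ x v w = κ (f x) (fderiv ℝ f x v) (fderiv ℝ f x w) := rfl

theorem pb_id (κ : E → B2 E) : pb (fun x => x) κ = κ := by
  funext x; ext v w
  simp only [pb_apply, fderiv_fun_id, ContinuousLinearMap.id_apply]

theorem pb_comp (f g : E → E) (κ : E → B2 E) (hf : Differentiable ℝ f) (hg : Differentiable ℝ g) :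
    pb (fun x => f (g x)) κ = pb g (pb f κ) := by
  funext x; ext v w
  have h : fderiv ℝ (fun x => f (g x)) x = (fderiv ℝ f (g x)).comp (fderiv ℝ g x) :=
    fderiv_comp x (hf _) (hg _)
  simp only [pb_apply, h, ContinuousLinearMap.comp_apply]

theorem pb_trans (f g : Dif E) (κ : E → B2 E) : pb (f.trans g) κ = pb f (pb g κ) :=
  pb_comp g f κ g.differentiable f.differentiable

theorem pb_congr_at {f g : E → E} {κ κ' : E → B2 E} {x : E} (h : f =ᶠ[𝓝 x] g)
    (hκ : κ (f x) = κ' (f x)) : pb f κ x = pb g κ' x := by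
  unfold pb
  rw [h.fderiv_eq, hκ, h.eq_of_nhds]

theorem pb_symm (f : Dif E) {κ κ' : E → B2 E} (h : pb f κ = κ') : pb f.symm κ' = κ := by
  rw [← h, ← pb_trans]
  have : (fun x => (f.symm.trans f) x) = fun x => x := by funext x; simp
  change pb (fun x => (f.symm.trans f) x) κ = κ
  rw [this, pb_id]

/-- Exterior derivative of a one-form. -/
noncomputable def dd (ν : E → E →L[ℝ] ℝ) (x : E) : B2 E := fderiv ℝ ν x - (fderiv ℝ ν x).flip

@[simp] theorem dd_apply (ν : E → E →L[ℝ] ℝ) (x v w : E) :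
    dd ν x v w = fderiv ℝ ν x v w - fderiv ℝ ν x w v := rfl

/-- Closed two-forms. -/
def Closed (κ : E → B2 E) : Prop := ∀ x u v w,
  fderiv ℝ κ x u v w - fderiv ℝ κ x v u w + fderiv ℝ κ x w u v = 0

/-- Alternating. -/
def Alt (κ : E → B2 E) : Prop := ∀ x v w, κ x v w = - κ x w v

/-- Nondegenerate bilinear form. -/
def Nondeg (A : B2 E) : Prop := ∀ v, (∀ w, A v w = 0) → v = 0

/-- Symplectic forms. -/
structure Symp (κ : E → B2 E) : Prop where
  sm : ContDiff ℝ ∞ κ
  closed : Closed κ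
  alt : Alt κ
  nondeg : ∀ x, Nondeg (κ x)

/-- Flip as a continuous linear map. -/
noncomputable def flipL (E : Type) [NormedAddCommGroup E] [NormedSpace ℝ E] :
    (E →L[ℝ] E →L[ℝ] ℝ) →L[ℝ] (E →L[ℝ] E →L[ℝ] ℝ) :=
  LinearMap.mkContinuous
    { toFun := fun (A : E →L[ℝ] E →L[ℝ] ℝ) => A.flip
      map_add' := fun A B => by ext v w; rfl
      map_smul' := fun c A => by ext v w; rfl } 1
    (fun A => by
      rw [one_mul]
      exact (ContinuousLinearMap.opNorm_flip A).le)

@[simp] theorem flipL_apply (A : B2 E) (v w : E) : flipL E A v w = A w v := rfl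

theorem contDiff_flipL : ContDiff ℝ ∞ (fun A : B2 E => flipL E A) := by fun_prop

theorem fderiv_apply1 {F : Type} [NormedAddCommGroup F] [NormedSpace ℝ F]
    {ν : F → E →L[ℝ] ℝ} {x : F} (h : DifferentiableAt ℝ ν x) (u : F) (v : E) :
    fderiv ℝ ν x u v = fderiv ℝ (fun y => ν y v) x u := by
  have h1 := h.hasFDerivAt.clm_apply (hasFDerivAt_const v x)
  rw [h1.fderiv]; simp

theorem fderiv_apply2 {F : Type} [NormedAddCommGroup F] [NormedSpace ℝ F]
    {κ : F → B2 E} {x : F} (h : DifferentiableAt ℝ κ x) (u : F) (v w : E) :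
    fderiv ℝ κ x u v w = fderiv ℝ (fun y => κ y v w) x u := by
  have h1 := h.hasFDerivAt.clm_apply (hasFDerivAt_const v x)
  have h2 := h1.clm_apply (hasFDerivAt_const w x)
  rw [h2.fderiv]; simp

theorem contDiff_dd {ν : E → E →L[ℝ] ℝ} (h : ContDiff ℝ ∞ ν) : ContDiff ℝ ∞ (dd ν) := by
  have h1 : ContDiff ℝ ∞ (fderiv ℝ ν) := h.fderiv_right (by simp)
  have h2 : ContDiff ℝ ∞ (fun x => flipL E (fderiv ℝ ν x)) := contDiff_flipL.comp h1
  exact h1.sub h2

theorem alt_dd (ν : E → E →L[ℝ] ℝ) : Alt (dd ν) := by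
  intro x v w; simp only [dd_apply]; ring

theorem closed_dd {ν : E → E →L[ℝ] ℝ} (h : ContDiff ℝ ∞ ν) : Closed (dd ν) := by
  intro x u v w
  have h1 : ContDiff ℝ ∞ (fderiv ℝ ν) := h.fderiv_right (by simp)
  have hd : DifferentiableAt ℝ (fderiv ℝ ν) x := h1.differentiable (by simp) x
  have hs : ∀ a b, fderiv ℝ (fderiv ℝ ν) x a b = fderiv ℝ (fderiv ℝ ν) x b a := by
    intro a b
    exact (second_derivative_symmetric (f := ν) (f' := fderiv ℝ ν)
      (f'' := fderiv ℝ (fderiv ℝ ν) x) (x := x)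
      (fun y => (h.differentiable (by simp) y).hasFDerivAt) hd.hasFDerivAt a b)
  have hdd : DifferentiableAt ℝ (dd ν) x := (contDiff_dd h).differentiable (by simp) x
  have hf : ∀ a b c, fderiv ℝ (dd ν) x a b c = fderiv ℝ (fderiv ℝ ν) x a b c
      - fderiv ℝ (fderiv ℝ ν) x a c b := by
    intro a b c
    rw [fderiv_apply2 hdd, fderiv_apply2 hd, fderiv_apply2 hd]
    have e : ∀ b c, DifferentiableAt ℝ (fun y => fderiv ℝ ν y b c) x := fun b c =>
      (hd.clm_apply (differentiableAt_const b)).clm_apply (differentiableAt_const c)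
    have : (fun y => dd ν y b c) = fun y => fderiv ℝ ν y b c - fderiv ℝ ν y c b := rfl
    rw [this, fderiv_fun_sub (e b c) (e c b)]
    rfl
  simp only [hf]
  rw [hs u v, hs u w, hs v w]
  ring

end Pool.Agent.H60.Sy
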