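import Pool.Agent.H60.Sy.Flow

/-!
[H60 SY PINT] Integrals over [0,1] depending smoothly on a parameter (Mathlib only; the hint uses
`contDiff_nem` of Nem.lean).

Statements to prove (keep them): `contDiff_pint`, `fderiv_pint`.

Sketch. `x ↦ (u ↦ (x, u))` is an affine continuous map `E → C(I, E × ℝ)` (`I = unitInterval`), hence
smooth; `nem f` is smooth `C(I, E × ℝ) → C(I, G)` by `contDiff_nem`, and integration over `[0,1]` is
a continuous linear map `C(I, G) → G` (see `integ` in Flow.lean: `integ ξ 1`). This gives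
`contDiff_pint`. For `fderiv_pint` differentiate under the integral, e.g. with
`intervalIntegral.hasFDerivAt_integral_of_dominated_of_fderiv_le` (bound: the derivative is
continuous, hence bounded on the product of a compact ball or of a small ball around `x` with
`[0,1]`; if `E` is not finite-dimensional use that a continuous function is bounded near the compact
set `{x} × [0,1]`), or with `hasFDerivAt_nem` of Nem.lean and the chain rule.
-/

set_option autoImplicit false
set_option linter.unusedSectionVars false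

open scoped ContDiff Topology
open Set

namespace Pool.Agent.H60.Sy

variable {E G : Type} [NormedAddCommGroup E] [NormedSpace ℝ E]
  [NormedAddCommGroup G] [NormedSpace ℝ G] [CompleteSpace G]

/-- The constant curves `u ↦ (x, 0)`. -/
noncomputable def pintC : E →L[ℝ] C(unitInterval, E × ℝ) :=
  LinearMap.mkContinuous
    { toFun := fun x => ⟨fun _ => (x, (0 : ℝ)), continuous_const⟩
      map_add' := fun x y => by ext t <;> simp
      map_smul' := fun c x => by ext t <;> simp } 1
    (fun x => by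
      rw [one_mul]
      refine (ContinuousMap.norm_le _ (norm_nonneg _)).2 fun t => ?_
      change ‖(x, (0 : ℝ))‖ ≤ ‖x‖
      rw [Prod.norm_def]
      simp)

theorem pintC_apply (x : E) (t : unitInterval) : pintC x t = (x, 0) := rfl

/-- The curve `u ↦ (0, u)`. -/
noncomputable def pintB : C(unitInterval, E × ℝ) :=
  ⟨fun u => ((0 : E), (u : ℝ)), continuous_const.prodMk continuous_subtype_val⟩

theorem pintB_apply (t : unitInterval) : (pintB : C(unitInterval, E × ℝ)) t = (0, (t : ℝ)) := rfl

/-- The curve `u ↦ (x, u)`. -/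
noncomputable def pintJ (x : E) : C(unitInterval, E × ℝ) := pintC x + pintB

theorem pintJ_apply (x : E) (t : unitInterval) : pintJ x t = (x, (t : ℝ)) := by
  unfold pintJ
  rw [ContinuousMap.add_apply, pintC_apply, pintB_apply, Prod.mk_add_mk, add_zero, zero_add]

theorem contDiff_pintJ : ContDiff ℝ ∞ (pintJ : E → C(unitInterval, E × ℝ)) := by
  unfold pintJ
  exact (pintC : E →L[ℝ] C(unitInterval, E × ℝ)).contDiff.add contDiff_const

theorem hasFDerivAt_pintJ (x : E) :
    HasFDerivAt (pintJ : E → C(unitInterval, E × ℝ)) (pintC : E →L[ℝ] _) x := by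
  unfold pintJ
  exact (pintC : E →L[ℝ] C(unitInterval, E × ℝ)).hasFDerivAt.add_const _

theorem pint_integ (ξ : C(unitInterval, G)) (g : ℝ → G)
    (h : ∀ t : unitInterval, ξ t = g t) :
    evl (F := G) 1 (integ ξ) = ∫ u in (0:ℝ)..1, g u := by
  rw [evl_apply, integ_apply]
  apply intervalIntegral.integral_congr
  intro s hs
  have h0 : ((1 : unitInterval) : ℝ) = 1 := rfl
  rw [h0, uIcc_of_le zero_le_one] at hs
  change ext ξ s = g s
  have h1 := ext_of_mem ξ ⟨s, hs⟩
  change ext ξ s = _ at h1
  rw [h1, h]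

theorem pint_eq {f : E → ℝ → G} (hf : ContDiff ℝ ∞ (fun p : E × ℝ => f p.1 p.2)) :
    (fun x => ∫ u in (0:ℝ)..1, f x u) = fun x => evl (F := G) 1 (integ
      (nem (fun p : E × ℝ => f p.1 p.2) hf.continuous (pintJ x))) := by
  funext x
  rw [pint_integ _ (fun u => f x u)]
  intro t
  rw [nem_apply, pintJ_apply]

theorem contDiff_pint {f : E → ℝ → G} (hf : ContDiff ℝ ∞ (fun p : E × ℝ => f p.1 p.2)) :
    ContDiff ℝ ∞ (fun x => ∫ u in (0:ℝ)..1, f x u) := by
  rw [pint_eq hf]
  exact (evl (F := G) 1).contDiff.comp ((integ : C(unitInterval, G) →L[ℝ] C(unitInterval, G)).contDiff.comp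
    ((contDiff_nem _ _ hf).comp contDiff_pintJ))

theorem fderiv_pint {f : E → ℝ → G} (hf : ContDiff ℝ ∞ (fun p : E × ℝ => f p.1 p.2)) (x v : E) :
    fderiv ℝ (fun x => ∫ u in (0:ℝ)..1, f x u) x v
      = ∫ u in (0:ℝ)..1, fderiv ℝ (fun y => f y u) x v := by
  have hf1 : ContDiff ℝ 1 (fun p : E × ℝ => f p.1 p.2) := hf.of_le (by simp)
  have h1 : HasFDerivAt (nem (X := unitInterval) (fun p : E × ℝ => f p.1 p.2) hf.continuous)
      (pair (nem (fderiv ℝ (fun p : E × ℝ => f p.1 p.2)) (hf1.continuous_fderiv one_ne_zero)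
        (pintJ x))) (pintJ x) := hasFDerivAt_nem _ hf1 (pintJ x)
  have h2 := h1.comp x (hasFDerivAt_pintJ x)
  have h3 := (integ : C(unitInterval, G) →L[ℝ] C(unitInterval, G)).hasFDerivAt.comp x h2
  have h4 := (evl (F := G) 1).hasFDerivAt.comp x h3
  refine (DFunLike.congr_fun ((congrArg (fun g => fderiv ℝ g x) (pint_eq hf)).trans
    h4.fderiv) v).trans ?_
  simp only [ContinuousLinearMap.comp_apply]
  rw [pint_integ _ (fun u => fderiv ℝ (fun y => f y u) x v)]
  intro t
  rw [pair_apply, nem_apply, pintJ_apply, pintC_apply]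
  have h6 : HasFDerivAt (fun p : E × ℝ => f p.1 p.2)
      (fderiv ℝ (fun p : E × ℝ => f p.1 p.2) (x, (t : ℝ))) (x, (t : ℝ)) :=
    ((hf.differentiable (by simp)) _).hasFDerivAt
  have h7 : HasFDerivAt (fun y : E => (y, (t : ℝ))) (ContinuousLinearMap.inl ℝ E ℝ) x :=
    hasFDerivAt_prodMk_left x (t : ℝ)
  have h8 : HasFDerivAt (fun y : E => f y t)
      ((fderiv ℝ (fun p : E × ℝ => f p.1 p.2) (x, (t : ℝ))).comp
        (ContinuousLinearMap.inl ℝ E ℝ)) x :=
    HasFDerivAt.comp (g := fun p : E × ℝ => f p.1 p.2) (f := fun y : E => (y, (t : ℝ))) x h6 h7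
  rw [h8.fderiv]
  rfl

end Pool.Agent.H60.Sy
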