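import Pool.Agent.H60.Sy.Defs
import Pool.Agent.H60.Sy.Pint

/-!
[H60 SY PRIM1] Primitive of a closed one-form by integration along the lines of direction `e`.

Statement to prove (keep it): `prim1`.

`ℓ e = 1`, `γ` smooth, `dd γ = 0` (that is `fderiv γ x v w = fderiv γ x w v`), `γ = 0` where `ℓ < a`
(hence by continuity where `ℓ ≤ a`). Put `m(x) = ℓ x - a`, `H_u(x) = x + (u-1) m(x) e`,
  `h(x) = ∫_0^1 m(x) γ(H_u x)(e) du`,
smooth by `contDiff_pint`. With `D_u v = v + (u-1) ℓ(v) e`: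
  derivative in `x` of the integrand: `ℓ(v) γ(H_u x)(e) + m(x) (Dγ(H_u x)(D_u v))(e)`,
  derivative in `u` of `F(u) = γ(H_u x)(D_u v)`: `m(x) (Dγ(H_u x) e)(D_u v) + ℓ(v) γ(H_u x)(e)`,
equal by the symmetry of `Dγ`. So (`fderiv_pint`) `fderiv h x v = F(1) - F(0) = γ(x)(v)`, because
`ℓ (H_0 x) = a` gives `γ (H_0 x) = 0`. If `ℓ x ≤ a` all `H_u x` have `ℓ ≤ a`, so `h x = 0`; if `γ = 0`
on the line through `x` then `h x = 0`.
-/

set_option autoImplicit false
set_option linter.unusedSectionVars false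

open scoped ContDiff Topology
open Set Metric

namespace Pool.Agent.H60.Sy

variable {E : Type} [NormedAddCommGroup E] [NormedSpace ℝ E]

theorem prim1_zero (ℓ : E →L[ℝ] ℝ) (e : E) (he : ℓ e = 1) {a : ℝ}
    {γ : E → (E →L[ℝ] ℝ)} (hγ : Continuous γ) (hs : ∀ x, ℓ x < a → γ x = 0) (x : E)
    (hx : ℓ x ≤ a) : γ x = 0 := by
  have h1 : Continuous fun t : ℝ => γ (x - t • e) :=
    hγ.comp (continuous_const.sub (continuous_id.smul continuous_const))
  have h2 : Filter.Tendsto (fun t : ℝ => γ (x - t • e)) (𝓝[>] 0) (𝓝 (γ x)) := by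
    have h3 := (h1.tendsto 0).mono_left (nhdsWithin_le_nhds (s := Ioi (0 : ℝ)))
    rwa [zero_smul, sub_zero] at h3
  have h4 : ∀ᶠ t : ℝ in 𝓝[>] 0, γ (x - t • e) = 0 := by
    refine Filter.Eventually.mono self_mem_nhdsWithin fun t ht => hs _ ?_
    rw [map_sub, map_smul, he, smul_eq_mul, mul_one]
    have h5 : (0 : ℝ) < t := ht
    linarith
  have h6 : Filter.Tendsto (fun t : ℝ => γ (x - t • e)) (𝓝[>] 0) (𝓝 0) :=
    (Filter.tendsto_congr' h4).2 tendsto_const_nhds
  exact tendsto_nhds_unique h2 h6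

/-- the homotopy -/
noncomputable def prim1H (ℓ : E →L[ℝ] ℝ) (e : E) (a : ℝ) (x : E) (u : ℝ) : E :=
  x + ((u - 1) * (ℓ x - a)) • e

theorem prim1H_contDiff (ℓ : E →L[ℝ] ℝ) (e : E) (a : ℝ) :
    ContDiff ℝ ∞ (fun p : E × ℝ => prim1H ℓ e a p.1 p.2) := by
  unfold prim1H
  exact contDiff_fst.add (((contDiff_snd.sub contDiff_const).mul
    ((ℓ.contDiff.comp contDiff_fst).sub contDiff_const)).smul contDiff_const)

theorem prim1H_fderiv (ℓ : E →L[ℝ] ℝ) (e : E) (a : ℝ) (x : E) (u : ℝ) :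
    HasFDerivAt (fun y => prim1H ℓ e a y u)
      (ContinuousLinearMap.id ℝ E + ((u - 1) • ℓ).smulRight e) x := by
  unfold prim1H
  exact (hasFDerivAt_id x).add (((ℓ.hasFDerivAt.sub_const a).const_mul (u - 1)).smul_const e)

theorem prim1H_deriv (ℓ : E →L[ℝ] ℝ) (e : E) (a : ℝ) (x : E) (u : ℝ) :
    HasDerivAt (fun s => prim1H ℓ e a x s) ((ℓ x - a) • e) u := by
  unfold prim1H
  have h1 : HasDerivAt (fun s : ℝ => (s - 1) * (ℓ x - a)) (ℓ x - a) u := by
    have h2 := ((hasDerivAt_id u).sub_const 1).mul_const (ℓ x - a)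
    rw [one_mul] at h2
    exact h2
  exact (h1.smul_const e).const_add x

theorem prim1 (ℓ : E →L[ℝ] ℝ) (e : E) (he : ℓ e = 1) {a : ℝ}
    {γ : E → (E →L[ℝ] ℝ)} (hγ : ContDiff ℝ ∞ γ) (hc : ∀ x, dd γ x = 0)
    (hs : ∀ x, ℓ x < a → γ x = 0) :
    ∃ h : E → ℝ, ContDiff ℝ ∞ h ∧ (∀ x, fderiv ℝ h x = γ x) ∧ (∀ x, ℓ x ≤ a → h x = 0) ∧
      (∀ x, (∀ t : ℝ, γ (x + t • e) = 0) → h x = 0) := by
  have hf : ContDiff ℝ ∞ (fun p : E × ℝ => (ℓ p.1 - a) * γ (prim1H ℓ e a p.1 p.2) e) :=
    ((ℓ.contDiff.comp contDiff_fst).sub contDiff_const).mul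
      ((hγ.comp (prim1H_contDiff ℓ e a)).clm_apply contDiff_const)
  have hd : Differentiable ℝ γ := hγ.differentiable (by simp)
  have hsym : ∀ x v w, fderiv ℝ γ x v w = fderiv ℝ γ x w v := by
    intro x v w
    have h1 := dd_apply γ x v w
    rw [hc x] at h1
    have h2 : (0 : ℝ) = fderiv ℝ γ x v w - fderiv ℝ γ x w v := h1
    linarith
  refine ⟨fun x => ∫ u in (0:ℝ)..1, (ℓ x - a) * γ (prim1H ℓ e a x u) e,
    contDiff_pint (f := fun x u => (ℓ x - a) * γ (prim1H ℓ e a x u) e) hf, ?_, ?_, ?_⟩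
  · intro x
    ext v
    rw [fderiv_pint (f := fun x u => (ℓ x - a) * γ (prim1H ℓ e a x u) e) hf x v]
    have h1 : ∀ u : ℝ, fderiv ℝ (fun y => (ℓ y - a) * γ (prim1H ℓ e a y u) e) x v =
        (ℓ x - a) * fderiv ℝ γ (prim1H ℓ e a x u) e (v + ((u - 1) * ℓ v) • e) +
          ℓ v * γ (prim1H ℓ e a x u) e := by
      intro u
      have h2 : HasFDerivAt (fun y => γ (prim1H ℓ e a y u) e)
          (((fderiv ℝ γ (prim1H ℓ e a x u)).comp
            (ContinuousLinearMap.id ℝ E + ((u - 1) • ℓ).smulRight e)).flip e) x := by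
        have h3 : HasFDerivAt (fun y => γ (prim1H ℓ e a y u))
            ((fderiv ℝ γ (prim1H ℓ e a x u)).comp
              (ContinuousLinearMap.id ℝ E + ((u - 1) • ℓ).smulRight e)) x :=
          ((hd _).hasFDerivAt).comp x (prim1H_fderiv ℓ e a x u)
        have h4 := h3.clm_apply (hasFDerivAt_const e x)
        rw [ContinuousLinearMap.comp_zero, zero_add] at h4
        exact h4
      have h5 : HasFDerivAt (fun y => (ℓ y - a) * γ (prim1H ℓ e a y u) e)
          ((ℓ x - a) • (((fderiv ℝ γ (prim1H ℓ e a x u)).comp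
            (ContinuousLinearMap.id ℝ E + ((u - 1) • ℓ).smulRight e)).flip e) +
            (γ (prim1H ℓ e a x u) e) • ℓ) x :=
        ((ℓ.hasFDerivAt (x := x)).sub_const a).mul h2
      rw [h5.fderiv]
      change (ℓ x - a) * (fderiv ℝ γ (prim1H ℓ e a x u) (v + ((u - 1) • ℓ v) • e)) e +
        γ (prim1H ℓ e a x u) e * ℓ v = _
      rw [hsym, smul_eq_mul]
      ring
    have h2 : ∀ u : ℝ, HasDerivAt (fun s => γ (prim1H ℓ e a x s) (v + ((s - 1) * ℓ v) • e))
        ((ℓ x - a) * fderiv ℝ γ (prim1H ℓ e a x u) e (v + ((u - 1) * ℓ v) • e) +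
          ℓ v * γ (prim1H ℓ e a x u) e) u := by
      intro u
      have h3 : HasDerivAt (fun s => γ (prim1H ℓ e a x s))
          (fderiv ℝ γ (prim1H ℓ e a x u) ((ℓ x - a) • e)) u :=
        ((hd _).hasFDerivAt).comp_hasDerivAt u (prim1H_deriv ℓ e a x u)
      have h4 : HasDerivAt (fun s : ℝ => v + ((s - 1) * ℓ v) • e) (ℓ v • e) u := by
        have h5 := ((hasDerivAt_id u).sub_const 1).mul_const (ℓ v)
        rw [one_mul] at h5
        exact (h5.smul_const e).const_add v
      have h6 := h3.clm_apply h4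
      have h7 : fderiv ℝ γ (prim1H ℓ e a x u) ((ℓ x - a) • e) (v + ((u - 1) * ℓ v) • e) +
          γ (prim1H ℓ e a x u) (ℓ v • e) =
          (ℓ x - a) * fderiv ℝ γ (prim1H ℓ e a x u) e (v + ((u - 1) * ℓ v) • e) +
          ℓ v * γ (prim1H ℓ e a x u) e := by
        rw [map_smul, map_smul]
        rfl
      rw [h7] at h6
      exact h6
    simp only [h1]
    rw [intervalIntegral.integral_eq_sub_of_hasDerivAt (fun u _ => h2 u)]
    · have e1 : prim1H ℓ e a x 1 = x := by
        unfold prim1H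
        rw [sub_self, zero_mul, zero_smul, add_zero]
      have e2 : γ (prim1H ℓ e a x 0) = 0 := by
        refine prim1_zero ℓ e he hγ.continuous hs _ ?_
        unfold prim1H
        rw [map_add, map_smul, he, smul_eq_mul]
        linarith
      rw [e1, e2, sub_self, zero_mul, zero_smul, add_zero]
      simp
    · apply Continuous.intervalIntegrable
      have c1 : Continuous fun u : ℝ => prim1H ℓ e a x u :=
        (prim1H_contDiff ℓ e a).continuous.comp (continuous_const.prodMk continuous_id)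
      have c2 : Continuous fun u : ℝ => fderiv ℝ γ (prim1H ℓ e a x u) :=
        (hγ.continuous_fderiv (by simp)).comp c1
      have c3 : Continuous fun u : ℝ => v + ((u - 1) * ℓ v) • e :=
        continuous_const.add (((continuous_id.sub continuous_const).mul
          continuous_const).smul continuous_const)
      exact (continuous_const.mul ((c2.clm_apply continuous_const).clm_apply c3)).add
        (continuous_const.mul ((hγ.continuous.comp c1).clm_apply continuous_const))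
  · intro x hx
    have h1 : ∀ u ∈ uIcc (0:ℝ) 1, (ℓ x - a) * γ (prim1H ℓ e a x u) e = 0 := by
      intro u hu
      rw [uIcc_of_le zero_le_one] at hu
      have h2 : γ (prim1H ℓ e a x u) = 0 := by
        refine prim1_zero ℓ e he hγ.continuous hs _ ?_
        unfold prim1H
        rw [map_add, map_smul, he, smul_eq_mul, mul_one]
        nlinarith [mul_nonneg hu.1 (sub_nonneg.2 hx)]
      rw [h2]
      simp
    change (∫ u in (0:ℝ)..1, (ℓ x - a) * γ (prim1H ℓ e a x u) e) = 0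
    rw [intervalIntegral.integral_congr (g := fun _ => (0 : ℝ)) h1]
    simp
  · intro x hx
    have h1 : ∀ u ∈ uIcc (0:ℝ) 1, (ℓ x - a) * γ (prim1H ℓ e a x u) e = 0 := by
      intro u _
      have h2 : γ (prim1H ℓ e a x u) = 0 := hx _
      rw [h2]
      simp
    change (∫ u in (0:ℝ)..1, (ℓ x - a) * γ (prim1H ℓ e a x u) e) = 0
    rw [intervalIntegral.integral_congr (g := fun _ => (0 : ℝ)) h1]
    simp

end Pool.Agent.H60.Sy
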