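import Pool.Agent.H60.Sy.Prim2
import Pool.Agent.H60.Sy.Prim1

/-!
[H60 SY CPLA] Compact Poincare lemma, abstract form (support in a box times a closed set `R`).

Statement to prove (keep it): `cpl_abs`.

Proof. `prim2` with `ℓ₁, e₁, a₁, b₁` gives `α, γ`. If `x ∉ R` or `ℓ₂ x` is outside `[a₂, b₂]` then `β = 0`
on the line `x + ℝ e₁` (`hR1`, `h21`), so `α x = γ x = 0`. `prim1` with `ℓ₂, e₂, a₂` applied to `γ` gives
`h` with `fderiv h = γ`, `h = 0` for `ℓ₂ x ≤ a₂` and for `x ∉ R` (the line `x + ℝ e₂` stays outside `R`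
by `hR2`, and `γ = 0` there). For `ℓ₂ x > b₂`: on the convex open set `{ℓ₂ > b₂}` we have
`fderiv h = γ = 0`, so `h` is constant there (`Convex.is_const_of_fderivWithin_eq_zero` or
`IsOpen.is_const_of_fderiv_eq_zero`), and this set contains a point outside `R` (take a point
`x₀ ∉ R` from `hR0` and `x₀ + t e₂` with `t` large), where `h = 0`. So `h = 0` on `{ℓ₂ > b₂}`.
Let `χ x = Real.smoothTransition ((ℓ₁ x - a₁)/(b₁ - a₁))` (0 for `ℓ₁ x ≤ a₁`, 1 for `ℓ₁ x ≥ b₁`) and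
  `ν x = α x - fderiv ℝ (fun y => χ y * h y) x`.
Smooth; `dd ν = dd α - dd (fderiv (χ h)) = β` (symmetry of the second derivative,
`second_derivative_symmetric`, as in `closed_dd`). Vanishing at `x` outside the box set:
 * `x ∉ R` or `ℓ₂ x < a₂` or `ℓ₂ x > b₂`: the same holds near `x` (`R` closed), `α x = 0` and `h = 0` near
   `x`, so `fderiv (χ h) x = 0`.
 * `ℓ₁ x < a₁`: `α x = 0` and `χ = 0` near `x`.
 * `ℓ₁ x > b₁`: `χ = 1` near `x`, so `fderiv (χ h) x = fderiv h x = γ x = α x`.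
-/

set_option autoImplicit false
set_option linter.unusedSectionVars false

open scoped ContDiff Topology
open Set Metric

namespace Pool.Agent.H60.Sy

variable {E : Type} [NormedAddCommGroup E] [NormedSpace ℝ E]

theorem cpl_abs (ℓ₁ ℓ₂ : E →L[ℝ] ℝ) (e₁ e₂ : E) (h11 : ℓ₁ e₁ = 1) (h12 : ℓ₁ e₂ = 0)
    (h21 : ℓ₂ e₁ = 0) (h22 : ℓ₂ e₂ = 1) {R : Set E} (hR : IsClosed R)
    (hR1 : ∀ (x : E) (t : ℝ), x + t • e₁ ∈ R ↔ x ∈ R)
    (hR2 : ∀ (x : E) (t : ℝ), x + t • e₂ ∈ R ↔ x ∈ R) (hR0 : R ≠ univ)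
    {a₁ b₁ a₂ b₂ : ℝ} (h1 : a₁ < b₁) (h2 : a₂ < b₂) {β : E → B2 E} (hβ : Fo β)
    (hs : ∀ x, ¬ (a₁ ≤ ℓ₁ x ∧ ℓ₁ x ≤ b₁ ∧ a₂ ≤ ℓ₂ x ∧ ℓ₂ x ≤ b₂ ∧ x ∈ R) → β x = 0) :
    ∃ ν : E → (E →L[ℝ] ℝ), ContDiff ℝ ∞ ν ∧ (∀ x, dd ν x = β x) ∧
      ∀ x, ¬ (a₁ ≤ ℓ₁ x ∧ ℓ₁ x ≤ b₁ ∧ a₂ ≤ ℓ₂ x ∧ ℓ₂ x ≤ b₂ ∧ x ∈ R) → ν x = 0 := by
  obtain ⟨α, γ, hα, hγ, hdα, hdγ, hα0, hαγ, hline⟩ := prim2 ℓ₁ e₁ h11 h1 hβ (fun x hx => by
    refine hs x fun hc => ?_
    rcases hx with hx | hx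
    · exact absurd hc.1 (not_le.2 hx)
    · exact absurd hc.2.1 (not_le.2 hx))
  have hz : ∀ x, (x ∉ R ∨ ℓ₂ x < a₂ ∨ b₂ < ℓ₂ x) → α x = 0 ∧ γ x = 0 := by
    intro x hx
    refine hline x fun t => hs _ fun hc => ?_
    obtain ⟨_, _, hc3, hc4, hc5⟩ := hc
    have e : ℓ₂ (x + t • e₁) = ℓ₂ x := by
      rw [map_add, map_smul, h21, smul_zero, add_zero]
    rw [e] at hc3 hc4
    rw [hR1] at hc5
    rcases hx with hx | hx | hx
    · exact hx hc5
    · exact absurd hc3 (not_le.2 hx)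
    · exact absurd hc4 (not_le.2 hx)
  obtain ⟨h, hh, hdh, hh0, hhline⟩ := prim1 ℓ₂ e₂ h22 (a := a₂) hγ hdγ
    (fun x hx => (hz x (Or.inr (Or.inl hx))).2)
  have hhR : ∀ x, x ∉ R → h x = 0 := by
    intro x hx
    refine hhline x fun t => (hz _ (Or.inl ?_)).2
    rw [hR2]
    exact hx
  have hhb : ∀ x, b₂ < ℓ₂ x → h x = 0 := by
    obtain ⟨x₀, hx₀⟩ := (Set.ne_univ_iff_exists_notMem R).1 hR0
    intro x hx
    have hy1 : x₀ + (b₂ + 1 - ℓ₂ x₀) • e₂ ∉ R := by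
      rw [hR2]
      exact hx₀
    have hy2 : b₂ < ℓ₂ (x₀ + (b₂ + 1 - ℓ₂ x₀) • e₂) := by
      rw [map_add, map_smul, h22, smul_eq_mul, mul_one]
      linarith
    have hconv : Convex ℝ {y : E | b₂ < ℓ₂ y} :=
      convex_halfSpace_gt (ℓ₂ : E →ₗ[ℝ] ℝ).isLinear b₂
    have hopen : IsOpen {y : E | b₂ < ℓ₂ y} := isOpen_lt continuous_const ℓ₂.continuous
    have hconst := hopen.is_const_of_fderiv_eq_zero (𝕜 := ℝ) (f := h) hconv.isPreconnected
      (hh.differentiable (by simp)).differentiableOn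
      (fun y hy => by
        change fderiv ℝ h y = 0
        rw [hdh y]
        exact (hz y (Or.inr (Or.inr hy))).2)
      (show x ∈ {y : E | b₂ < ℓ₂ y} from hx)
      (show x₀ + (b₂ + 1 - ℓ₂ x₀) • e₂ ∈ {y : E | b₂ < ℓ₂ y} from hy2)
    rw [hconst]
    exact hhR _ hy1
  have hba : 0 < b₁ - a₁ := by linarith
  obtain ⟨χ, hχ, hχ0, hχ1⟩ : ∃ χ : E → ℝ, ContDiff ℝ ∞ χ ∧ (∀ x, ℓ₁ x ≤ a₁ → χ x = 0) ∧
      (∀ x, b₁ ≤ ℓ₁ x → χ x = 1) := by
    refine ⟨fun x => Real.smoothTransition ((ℓ₁ x - a₁) / (b₁ - a₁)), ?_, ?_, ?_⟩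
    · exact Real.smoothTransition.contDiff.comp
        ((ℓ₁.contDiff.sub contDiff_const).div_const (b₁ - a₁))
    · intro x hx
      exact Real.smoothTransition.zero_of_nonpos
        (div_nonpos_of_nonpos_of_nonneg (by linarith) hba.le)
    · intro x hx
      exact Real.smoothTransition.one_of_one_le ((one_le_div hba).2 (by linarith))
  have hg : ContDiff ℝ ∞ (fun y => χ y * h y) := hχ.mul hh
  have hg1 : ContDiff ℝ ∞ (fderiv ℝ (fun y => χ y * h y)) := hg.fderiv_right (by simp)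
  refine ⟨fun x => α x - fderiv ℝ (fun y => χ y * h y) x, hα.sub hg1, ?_, ?_⟩
  · intro x
    ext v w
    have hd : DifferentiableAt ℝ (fderiv ℝ (fun y => χ y * h y)) x :=
      hg1.differentiable (by simp) x
    have hsym : fderiv ℝ (fderiv ℝ (fun y => χ y * h y)) x v w =
        fderiv ℝ (fderiv ℝ (fun y => χ y * h y)) x w v :=
      second_derivative_symmetric (f := fun y => χ y * h y)
        (f' := fderiv ℝ (fun y => χ y * h y))
        (f'' := fderiv ℝ (fderiv ℝ (fun y => χ y * h y)) x) (x := x)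
        (fun y => (hg.differentiable (by simp) y).hasFDerivAt) hd.hasFDerivAt v w
    have e := congrArg (fun A : B2 E => A v w) (hdα x)
    simp only [dd_apply] at e ⊢
    rw [fderiv_fun_sub (hα.differentiable (by simp) x) hd]
    change (fderiv ℝ α x v w - fderiv ℝ (fderiv ℝ (fun y => χ y * h y)) x v w) -
      (fderiv ℝ α x w v - fderiv ℝ (fderiv ℝ (fun y => χ y * h y)) x w v) = β x v w
    rw [hsym, ← e]
    ring
  · intro x hx
    have key : ∀ {x : E}, (∀ᶠ y in 𝓝 x, χ y * h y = 0) →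
        fderiv ℝ (fun y => χ y * h y) x = 0 := by
      intro x hev
      have h3 : (fun y => χ y * h y) =ᶠ[𝓝 x] fun _ => (0 : ℝ) := hev
      rw [h3.fderiv_eq, fderiv_fun_const]
      rfl
    change α x - fderiv ℝ (fun y => χ y * h y) x = 0
    by_cases c1 : x ∈ R
    · by_cases c2 : a₂ ≤ ℓ₂ x
      · by_cases c3 : ℓ₂ x ≤ b₂
        · by_cases c4 : a₁ ≤ ℓ₁ x
          · by_cases c5 : ℓ₁ x ≤ b₁
            · exact absurd ⟨c4, c5, c2, c3, c1⟩ hx
            · have c5' : b₁ < ℓ₁ x := not_le.1 c5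
              have hev : ∀ᶠ y in 𝓝 x, b₁ < ℓ₁ y :=
                (isOpen_lt continuous_const ℓ₁.continuous).mem_nhds c5'
              have h3 : (fun y => χ y * h y) =ᶠ[𝓝 x] h := by
                filter_upwards [hev] with y hy
                rw [hχ1 y hy.le, one_mul]
              rw [h3.fderiv_eq, hdh x, hαγ x c5'.le, sub_self]
          · have c4' : ℓ₁ x < a₁ := not_le.1 c4
            have hev : ∀ᶠ y in 𝓝 x, ℓ₁ y < a₁ :=
              (isOpen_lt ℓ₁.continuous continuous_const).mem_nhds c4'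
            rw [hα0 x c4'.le, key (hev.mono fun y hy => by rw [hχ0 y hy.le, zero_mul]), sub_zero]
        · have c3' : b₂ < ℓ₂ x := not_le.1 c3
          have hev : ∀ᶠ y in 𝓝 x, b₂ < ℓ₂ y :=
            (isOpen_lt continuous_const ℓ₂.continuous).mem_nhds c3'
          rw [(hz x (Or.inr (Or.inr c3'))).1,
            key (hev.mono fun y hy => by rw [hhb y hy, mul_zero]), sub_zero]
      · have c2' : ℓ₂ x < a₂ := not_le.1 c2
        have hev : ∀ᶠ y in 𝓝 x, ℓ₂ y < a₂ :=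
          (isOpen_lt ℓ₂.continuous continuous_const).mem_nhds c2'
        rw [(hz x (Or.inr (Or.inl c2'))).1,
          key (hev.mono fun y hy => by rw [hh0 y hy.le, mul_zero]), sub_zero]
    · have hev : ∀ᶠ y in 𝓝 x, y ∉ R := hR.isOpen_compl.mem_nhds c1
      rw [(hz x (Or.inl c1)).1, key (hev.mono fun y hy => by rw [hhR y hy, mul_zero]), sub_zero]

end Pool.Agent.H60.Sy
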