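import Pool.Agent.H60.Sy.EmbD
import Pool.Agent.H60.Sy.Ndo

/-!
[H60 SY EMBL] Elementary properties of embedding data and of the nonlinear insertion.

Here `κ x = om0 n + η x`.

Statements to prove (keep them): `fderiv_phi_psi`, `om0_psi`, `isCompact_image`, `nins_eq_zero`.

* `fderiv_phi_psi`: differentiate `φ (ψ y) = y` near `y ∈ V` (chain rule).
* `om0_psi`: from `symp` at `x = ψ y` with the vectors `Dψ v, Dψ w`:
  `κ (ψ y) (Dψ v) (Dψ w) = om0 (Dφ Dψ v) (Dφ Dψ w) = om0 v w`.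
* `isCompact_image`: continuous image of a compact set (`φ` is continuous on `U`).
* `nins_eq_zero`: for `0 < s ≤ 1` and `y ∉ φ '' closedBall 0 r`: if `y ∈ V` and `s⁻¹ • ψ y ∈ closedBall 0 r`
  then `‖ψ y‖ ≤ s r ≤ r` and `y = φ (ψ y)`, a contradiction; so `η (s⁻¹ • ψ y) = 0`.
-/

set_option autoImplicit false
set_option linter.unusedSectionVars false

open scoped ContDiff Topology
open Set Metric

namespace Pool.Agent.H60.Sy

variable {n : ℕ} {η : EE n → B2 (EE n)} {r : ℝ} (D : EmbData n (fun x => om0 n + η x) r)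

theorem nins_mem {E : Type} [NormedAddCommGroup E] [NormedSpace ℝ E] {V : Set E} {ψ : E → E}
    {η : E → B2 E} {s : ℝ} {y : E} (h : y ∈ V) :
    nins V ψ η s y = (η (s⁻¹ • ψ y)).bilinearComp (fderiv ℝ ψ y) (fderiv ℝ ψ y) := by
  unfold nins; rw [if_pos h]

theorem nins_notMem {E : Type} [NormedAddCommGroup E] [NormedSpace ℝ E] {V : Set E} {ψ : E → E}
    {η : E → B2 E} {s : ℝ} {y : E} (h : y ∉ V) : nins V ψ η s y = 0 := by
  unfold nins; rw [if_neg h]

theorem fderiv_phi_psi {y : EE n} (hy : y ∈ D.V) (v : EE n) :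
    fderiv ℝ D.φ (D.ψ y) (fderiv ℝ D.ψ y v) = v := by
  have h1 : DifferentiableAt ℝ D.ψ y :=
    (D.hψ.contDiffAt (D.hV.mem_nhds hy)).differentiableAt (by simp)
  have h2 : DifferentiableAt ℝ D.φ (D.ψ y) :=
    (D.hφ.contDiffAt (D.hU.mem_nhds (D.mψ hy))).differentiableAt (by simp)
  have h3 : HasFDerivAt (D.φ ∘ D.ψ) ((fderiv ℝ D.φ (D.ψ y)).comp (fderiv ℝ D.ψ y)) y :=
    h2.hasFDerivAt.comp y h1.hasFDerivAt
  have h4 : HasFDerivAt (D.φ ∘ D.ψ) (ContinuousLinearMap.id ℝ (EE n)) y := by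
    refine (hasFDerivAt_id y).congr_of_eventuallyEq ?_
    filter_upwards [D.hV.mem_nhds hy] with z hz
    exact D.rr z hz
  have h5 := h3.unique h4
  have h6 := congrArg (fun L : EE n →L[ℝ] EE n => L v) h5
  exact h6

theorem inj_fderiv_psi {y : EE n} (hy : y ∈ D.V) : Function.Injective (fderiv ℝ D.ψ y) := by
  intro v w h
  have h1 := fderiv_phi_psi D hy v
  have h2 := fderiv_phi_psi D hy w
  rw [h, h2] at h1
  exact h1.symm

theorem om0_psi {y : EE n} (hy : y ∈ D.V) (v w : EE n) :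
    om0 n (fderiv ℝ D.ψ y v) (fderiv ℝ D.ψ y w)
      + η (D.ψ y) (fderiv ℝ D.ψ y v) (fderiv ℝ D.ψ y w) = om0 n v w := by
  have h := D.symp (D.ψ y) (D.mψ hy) (fderiv ℝ D.ψ y v) (fderiv ℝ D.ψ y w)
  rw [fderiv_phi_psi D hy, fderiv_phi_psi D hy] at h
  rw [h]
  rfl

theorem isCompact_image : IsCompact (D.φ '' closedBall 0 r) :=
  (isCompact_closedBall 0 r).image_of_continuousOn (D.hφ.continuousOn.mono D.hrU)

theorem nins_eq_zero (hr : ∀ x ∉ closedBall (0 : EE n) r, η x = 0) {s : ℝ} (hs : s ∈ Ioc (0:ℝ) 1)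
    {y : EE n} (hy : y ∉ D.φ '' closedBall 0 r) : nins D.V D.ψ η s y = 0 := by
  by_cases hV : y ∈ D.V
  · rw [nins_mem hV, hr]
    · refine ContinuousLinearMap.ext fun v => ContinuousLinearMap.ext fun w => ?_
      rfl
    · intro hc
      apply hy
      refine ⟨D.ψ y, ?_, D.rr y hV⟩
      rw [mem_closedBall_zero_iff] at hc ⊢
      rw [norm_smul, norm_inv, Real.norm_of_nonneg hs.1.le] at hc
      have h1 : ‖D.ψ y‖ ≤ s * r := by
        rw [inv_mul_le_iff₀ hs.1] at hc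
        exact hc
      have h2 : 0 ≤ r := by
        by_contra h
        push Not at h
        have h3 : s * r < 0 := mul_neg_of_pos_of_neg hs.1 h
        linarith [norm_nonneg (D.ψ y)]
      exact h1.trans (by nlinarith [hs.2])
  · exact nins_notMem hV

end Pool.Agent.H60.Sy
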