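import Pool.Agent.H60.Sy.Defs

/-!
[H60 SY PBC] Pull-backs of closed two-forms are closed (local version on an open set).

Statements to prove (keep them): `contDiffOn_pb`, `closedAt_pb`, `fo_pb`.

Notation: `pb f η x v w = η (f x) (Df v) (Df w)` with `Df = fderiv ℝ f x` (Basic.lean).

Sketch of `closedAt_pb`: on `U` the map `g y = fderiv ℝ f y` is smooth (`ContDiffOn.fderiv_of_isOpen`
or `contDiffOn_infty_iff_fderiv_of_isOpen`), so at `x`
  `fderiv (pb f η) x u v w = (Dη(f x)(Df u)) (Df v) (Df w) + η (f x) (D²f u v) (Df w)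
     + η (f x) (Df v) (D²f u w)`,
with `D²f u v = fderiv ℝ (fderiv ℝ f) x u v`, which is symmetric in `u, v`
(`second_derivative_symmetric_of_eventually`, see `closed_dd` in Basic.lean for the global version).
Use `fderiv_apply2` of Basic.lean to reduce to scalar functions if that is easier. In the alternating
sum over `(u,v,w)` the first terms cancel by closedness of `η` at the vectors `Df u, Df v, Df w`, the
`D²f` terms cancel by the symmetry of `D²f` and by `η` alternating.
-/

set_option autoImplicit false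
set_option linter.unusedSectionVars false

open scoped ContDiff Topology
open Set Metric

namespace Pool.Agent.H60.Sy

variable {E : Type} [NormedAddCommGroup E] [NormedSpace ℝ E]

/-- closedness at a point -/
def ClosedAt (κ : E → B2 E) (x : E) : Prop := ∀ u v w,
  fderiv ℝ κ x u v w - fderiv ℝ κ x v u w + fderiv ℝ κ x w u v = 0

private theorem pbc_eq (f : E → E) (η : E → B2 E) (x : E) : pb f η x =
    flipL E ((flipL E ((η (f x)).comp (fderiv ℝ f x))).comp (fderiv ℝ f x)) := by
  ext v w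
  rfl

theorem contDiffOn_pb {f : E → E} {U : Set E} (hU : IsOpen U) (hf : ContDiffOn ℝ ∞ f U)
    {η : E → B2 E} (hη : ContDiff ℝ ∞ η) : ContDiffOn ℝ ∞ (pb f η) U := by
  have h1 : ContDiffOn ℝ ∞ (fderiv ℝ f) U := hf.fderiv_of_isOpen hU (by simp)
  have h2 : ContDiffOn ℝ ∞ (fun x => η (f x)) U := hη.comp_contDiffOn hf
  have h3 : ContDiffOn ℝ ∞ (fun x => (η (f x)).comp (fderiv ℝ f x)) U := h2.clm_comp h1
  have h4 : ContDiffOn ℝ ∞ (fun x => flipL E ((η (f x)).comp (fderiv ℝ f x))) U :=
    contDiff_flipL.comp_contDiffOn h3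
  have h5 : ContDiffOn ℝ ∞
      (fun x => (flipL E ((η (f x)).comp (fderiv ℝ f x))).comp (fderiv ℝ f x)) U :=
    h4.clm_comp h1
  have h6 : ContDiffOn ℝ ∞ (fun x =>
      flipL E ((flipL E ((η (f x)).comp (fderiv ℝ f x))).comp (fderiv ℝ f x))) U :=
    contDiff_flipL.comp_contDiffOn h5
  exact h6.congr fun x _ => pbc_eq f η x

theorem closedAt_pb {f : E → E} {U : Set E} (hU : IsOpen U) (hf : ContDiffOn ℝ ∞ f U)
    {η : E → B2 E} (hη : Fo η) {x : E} (hx : x ∈ U) : ClosedAt (pb f η) x := by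
  have hUx : U ∈ 𝓝 x := hU.mem_nhds hx
  have h1 : ContDiffOn ℝ ∞ (fderiv ℝ f) U := hf.fderiv_of_isOpen hU (by simp)
  have hD : DifferentiableAt ℝ (fderiv ℝ f) x :=
    (h1.contDiffAt hUx).differentiableAt (by simp)
  have hfx : DifferentiableAt ℝ f x := (hf.contDiffAt hUx).differentiableAt (by simp)
  have hpb : DifferentiableAt ℝ (pb f η) x :=
    ((contDiffOn_pb hU hf hη.sm).contDiffAt hUx).differentiableAt (by simp)
  have hηx : DifferentiableAt ℝ η (f x) := hη.sm.differentiable (by simp) _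
  have hcomp : HasFDerivAt (fun y => η (f y)) ((fderiv ℝ η (f x)).comp (fderiv ℝ f x)) x := by
    refine HasFDerivAt.comp (E := E) (F := E) (G := B2 E) (g := η) (f := f) x ?_ hfx.hasFDerivAt
    exact hηx.hasFDerivAt
  have hs : ∀ a b, fderiv ℝ (fderiv ℝ f) x a b = fderiv ℝ (fderiv ℝ f) x b a := by
    intro a b
    refine second_derivative_symmetric_of_eventually (f := f) (f' := fderiv ℝ f)
      (f'' := fderiv ℝ (fderiv ℝ f) x) (x := x) ?_ hD.hasFDerivAt a b
    filter_upwards [hUx] with y hy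
    exact ((hf.contDiffAt (hU.mem_nhds hy)).differentiableAt (by simp)).hasFDerivAt
  have key : ∀ u v w, fderiv ℝ (pb f η) x u v w =
      fderiv ℝ η (f x) (fderiv ℝ f x u) (fderiv ℝ f x v) (fderiv ℝ f x w) +
      η (f x) (fderiv ℝ (fderiv ℝ f) x u v) (fderiv ℝ f x w) +
      η (f x) (fderiv ℝ f x v) (fderiv ℝ (fderiv ℝ f) x u w) := by
    intro u v w
    rw [fderiv_apply2 hpb]
    have hv := hD.hasFDerivAt.clm_apply (hasFDerivAt_const v x)
    have hw := hD.hasFDerivAt.clm_apply (hasFDerivAt_const w x)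
    have h2 := (hcomp.clm_apply hv).clm_apply hw
    have e : (fun y => pb f η y v w) = fun y => η (f y) (fderiv ℝ f y v) (fderiv ℝ f y w) := rfl
    rw [e, h2.fderiv]
    simp
    ring
  intro u v w
  rw [key, key, key]
  have hc := hη.closed (f x) (fderiv ℝ f x u) (fderiv ℝ f x v) (fderiv ℝ f x w)
  have ha := hη.alt (f x) (fderiv ℝ f x v) (fderiv ℝ (fderiv ℝ f) x u w)
  rw [hs v u, hs w u, hs w v]
  linarith

theorem fo_pb {f : E → E} (hf : ContDiff ℝ ∞ f) {η : E → B2 E} (hη : Fo η) : Fo (pb f η) where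
  sm := contDiffOn_univ.1 (contDiffOn_pb isOpen_univ hf.contDiffOn hη.sm)
  closed := fun x u v w =>
    closedAt_pb isOpen_univ hf.contDiffOn hη (mem_univ x) u v w
  alt := fun x v w => by
    rw [pb_apply, pb_apply]
    exact hη.alt (f x) _ _

end Pool.Agent.H60.Sy
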