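import Pool.Agent.H60.Sy.Ndo
import Pool.Agent.H60.Sy.PbC

/-!
[H60 SY LINS] Linear insertions of a form.

`lins η p B s y` is the form `η(s⁻¹ B (y - p))` pulled back by the linear map `B` (base point `p`,
frame `B`, scale `s`).

Statements to prove (keep them): `fo_lins`, `continuousOn_lins`, `lins_eq_zero`, `exists_inv_bound`.

* `fo_lins`: for `s ≠ 0` let `g y = s⁻¹ • B (y - p)`, smooth with `fderiv ℝ g y = s⁻¹ • B`; so
  `lins η p B s = fun y => s^2 • pb g η y`; use `fo_pb` (PbC.lean) and `Fo.smul` (Defs.lean).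
* `continuousOn_lins`: composition of continuous maps (`η` is continuous; `(A, B) ↦ A.bilinearComp B B` is
  continuous, e.g. because `A.bilinearComp B B = ((compL ..)..)` is built from continuous bilinear
  operations, or by `ContinuousLinearMap.compL` and flips; `fun_prop` may do part of it).
* `exists_inv_bound`: `B t` is injective by `injective_of_nondeg` (its pull-back of `A` is the
  nondegenerate form `k t`), so invertible, and `t ↦ ‖(B t)⁻¹‖` is continuous on `[0,1]`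
  (`ContinuousLinearMap.inverse` is continuous at invertible maps: `contDiffAt_map_inverse`), hence
  bounded; `‖v‖ = ‖(B t)⁻¹ (B t v)‖ ≤ C ‖B t v‖`. (Alternative: the function `‖B t v‖` is continuous and
  positive on the compact set `[0,1] × {‖v‖ = 1}`.)
-/

set_option autoImplicit false
set_option linter.unusedSectionVars false

open scoped ContDiff Topology
open Set Metric

namespace Pool.Agent.H60.Sy

variable {E : Type} [NormedAddCommGroup E] [NormedSpace ℝ E]

/-- linear insertion -/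
noncomputable def lins (η : E → B2 E) (p : E) (B : E →L[ℝ] E) (s : ℝ) (y : E) : B2 E :=
  (η (s⁻¹ • B (y - p))).bilinearComp B B

@[simp] theorem lins_apply (η : E → B2 E) (p : E) (B : E →L[ℝ] E) (s : ℝ) (y v w : E) :
    lins η p B s y v w = η (s⁻¹ • B (y - p)) (B v) (B w) := rfl

theorem lins_eq_zero {η : E → B2 E} {r : ℝ} (hr : ∀ x ∉ closedBall (0:E) r, η x = 0) {p : E}
    {B : E →L[ℝ] E} {s : ℝ} {y : E} (h : s⁻¹ • B (y - p) ∉ closedBall (0:E) r) :
    lins η p B s y = 0 := by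
  unfold lins
  rw [hr _ h]
  ext v w; simp

theorem fo_lins {η : E → B2 E} (hη : Fo η) (p : E) (B : E →L[ℝ] E) {s : ℝ} (hs : s ≠ 0) :
    Fo (lins η p B s) := by
  have hg : ContDiff ℝ ∞ (fun y : E => s⁻¹ • B (y - p)) :=
    contDiff_const.smul (B.contDiff.comp (contDiff_id.sub contDiff_const))
  have hd : ∀ y, fderiv ℝ (fun y : E => s⁻¹ • B (y - p)) y = s⁻¹ • B := by
    intro y
    have h1 : HasFDerivAt (fun y : E => y - p) (ContinuousLinearMap.id ℝ E) y :=
      (hasFDerivAt_id y).sub_const p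
    have h2 : HasFDerivAt (fun y : E => B (y - p)) (B.comp (ContinuousLinearMap.id ℝ E)) y :=
      HasFDerivAt.comp (g := B) (f := fun y : E => y - p) y B.hasFDerivAt h1
    rw [ContinuousLinearMap.comp_id] at h2
    exact (h2.const_smul s⁻¹).fderiv
  have e : lins η p B s = fun y => (s ^ 2) • pb (fun y : E => s⁻¹ • B (y - p)) η y := by
    funext y
    ext v w
    rw [lins_apply]
    show η (s⁻¹ • B (y - p)) (B v) (B w) = (s ^ 2) • (pb (fun y : E => s⁻¹ • B (y - p)) η y v w)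
    rw [pb_apply, hd]
    show η (s⁻¹ • B (y - p)) (B v) (B w) =
      (s ^ 2) • (η (s⁻¹ • B (y - p)) (s⁻¹ • B v) (s⁻¹ • B w))
    rw [map_smul, map_smul]
    show η (s⁻¹ • B (y - p)) (B v) (B w) =
      (s ^ 2) * (s⁻¹ * (s⁻¹ * (η (s⁻¹ • B (y - p)) (B v) (B w))))
    field_simp
  rw [e]
  exact (fo_pb hg hη).smul (s ^ 2)

theorem lins_bc_continuousOn {X : Type} [TopologicalSpace X] {S : Set X} {A : X → B2 E}
    {L : X → E →L[ℝ] E} (hA : ContinuousOn A S) (hL : ContinuousOn L S) :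
    ContinuousOn (fun q => (A q).bilinearComp (L q) (L q)) S := by
  have e : (fun q => (A q).bilinearComp (L q) (L q)) =
      fun q => flipL E ((flipL E ((A q).comp (L q))).comp (L q)) := by
    funext q
    ext v w
    rfl
  rw [e]
  have h1 : ContinuousOn (fun q => (A q).comp (L q)) S := hA.clm_comp hL
  have h2 : ContinuousOn (fun q => flipL E ((A q).comp (L q))) S :=
    (flipL E).continuous.comp_continuousOn h1
  have h3 : ContinuousOn (fun q => (flipL E ((A q).comp (L q))).comp (L q)) S := h2.clm_comp hL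
  exact (flipL E).continuous.comp_continuousOn h3

theorem continuousOn_lins {η : E → B2 E} (hη : Continuous η) :
    ContinuousOn (fun q : (E × (E →L[ℝ] E) × ℝ) × E => lins η q.1.1 q.1.2.1 q.1.2.2 q.2)
      {q | q.1.2.2 ≠ 0} := by
  have hs : ContinuousOn (fun q : (E × (E →L[ℝ] E) × ℝ) × E => (q.1.2.2)⁻¹)
      {q | q.1.2.2 ≠ 0} :=
    ContinuousOn.inv₀ (by fun_prop) (fun q hq => hq)
  have hL : ContinuousOn (fun q : (E × (E →L[ℝ] E) × ℝ) × E => q.1.2.1)
      {q | q.1.2.2 ≠ 0} := by fun_prop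
  have hy : ContinuousOn (fun q : (E × (E →L[ℝ] E) × ℝ) × E => q.2 - q.1.1)
      {q | q.1.2.2 ≠ 0} := by fun_prop
  have h1 : ContinuousOn (fun q : (E × (E →L[ℝ] E) × ℝ) × E => (q.1.2.2)⁻¹ •
      q.1.2.1 (q.2 - q.1.1)) {q | q.1.2.2 ≠ 0} := hs.smul (hL.clm_apply hy)
  exact lins_bc_continuousOn (hη.comp_continuousOn h1) hL

theorem exists_inv_bound [FiniteDimensional ℝ E] {A : B2 E} {k : ℝ → B2 E}
    (hk : ∀ t ∈ Icc (0:ℝ) 1, Nondeg (k t)) {B : ℝ → (E →L[ℝ] E)}
    (hB : ContinuousOn B (Icc 0 1)) (hBk : ∀ t ∈ Icc (0:ℝ) 1, ∀ v w, A (B t v) (B t w) = k t v w) :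
    ∃ C > 0, ∀ t ∈ Icc (0:ℝ) 1, ∀ v, ‖v‖ ≤ C * ‖B t v‖ := by
  have hinj : ∀ t ∈ Icc (0:ℝ) 1, Function.Injective (B t) := by
    intro t ht
    apply injective_of_nondeg (A := A)
    have e : A.bilinearComp (B t) (B t) = k t := by
      ext v w
      exact hBk t ht v w
    rw [e]
    exact hk t ht
  have : ProperSpace E := FiniteDimensional.proper ℝ E
  have hcpt : IsCompact (Icc (0:ℝ) 1 ×ˢ sphere (0:E) 1) := isCompact_Icc.prod (isCompact_sphere 0 1)
  have hcont : ContinuousOn (fun q : ℝ × E => ‖B q.1 q.2‖) (Icc (0:ℝ) 1 ×ˢ sphere (0:E) 1) := by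
    have h1 : ContinuousOn (fun q : ℝ × E => B q.1) (Icc (0:ℝ) 1 ×ˢ sphere (0:E) 1) :=
      hB.comp continuousOn_fst (fun q hq => hq.1)
    exact (h1.clm_apply continuousOn_snd).norm
  rcases (Icc (0:ℝ) 1 ×ˢ sphere (0:E) 1).eq_empty_or_nonempty with hemp | hne
  · refine ⟨1, one_pos, fun t ht v => ?_⟩
    have hv : v = 0 := by
      by_contra hv
      have hn : 0 < ‖v‖ := norm_pos_iff.mpr hv
      have hmem : (t, ‖v‖⁻¹ • v) ∈ Icc (0:ℝ) 1 ×ˢ sphere (0:E) 1 := by
        refine ⟨ht, ?_⟩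
        rw [mem_sphere_zero_iff_norm, norm_smul, norm_inv, norm_norm, inv_mul_cancel₀ hn.ne']
      rw [hemp] at hmem
      exact hmem
    rw [hv, norm_zero]
    positivity
  · obtain ⟨q, hq, hmin⟩ := hcpt.exists_isMinOn hne hcont
    have hpos : 0 < ‖B q.1 q.2‖ := by
      rw [norm_pos_iff]
      intro h0
      have h2 : q.2 = 0 := hinj q.1 hq.1 (by rw [h0, map_zero])
      have h3 : ‖q.2‖ = 1 := mem_sphere_zero_iff_norm.mp hq.2
      rw [h2, norm_zero] at h3
      exact zero_ne_one h3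
    refine ⟨‖B q.1 q.2‖⁻¹, inv_pos.mpr hpos, fun t ht v => ?_⟩
    by_cases hv : v = 0
    · rw [hv, norm_zero]
      positivity
    · have hn : 0 < ‖v‖ := norm_pos_iff.mpr hv
      have hmem : (t, ‖v‖⁻¹ • v) ∈ Icc (0:ℝ) 1 ×ˢ sphere (0:E) 1 := by
        refine ⟨ht, ?_⟩
        rw [mem_sphere_zero_iff_norm, norm_smul, norm_inv, norm_norm, inv_mul_cancel₀ hn.ne']
      have h4 : ‖B q.1 q.2‖ ≤ ‖B t (‖v‖⁻¹ • v)‖ := hmin hmem
      rw [map_smul, norm_smul, norm_inv, norm_norm] at h4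
      rw [inv_mul_eq_div, le_div_iff₀ hpos]
      have h5 : ‖v‖ * ‖B q.1 q.2‖ ≤ ‖v‖ * (‖v‖⁻¹ * ‖B t v‖) :=
        mul_le_mul_of_nonneg_left h4 hn.le
      rwa [← mul_assoc, mul_inv_cancel₀ hn.ne', one_mul] at h5

end Pool.Agent.H60.Sy
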