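import Pool.Agent.H60.Sy.Path
import Pool.Agent.H60.Sy.Lins

/-!
[H60 SY FAR] Enlarging a linear insertion in the region where the ambient form is standard.

Statement to prove (keep it): `far`.

Proof. `mov_path` for `κ t y = κ₁ y + lins η p B (s + t (1 - s)) y`. With `s' = s + t(1-s) ∈ [s,1]`:
if `s'⁻¹ • B (y-p) ∉ closedBall 0 r` the form is `κ₁ y`. Otherwise `‖B (y-p)‖ ≤ s' r ≤ r` (so `r ≥ 0`), hence
`κ₁ y = om0 n` by `hfar`, and the form is `om0 + B^*η(z) = B^*(om0 + η z)` because `B` preserves `om0`;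
nondegenerate by `nondeg_bilinearComp` (`B` injective because it preserves the nondegenerate form
`om0`). Support: `‖y - p‖ ≤ C ‖B (y - p)‖ ≤ C r` with `C` from the boundedness of `B⁻¹`
(`exists_inv_bound` with constant `B`, or directly). Smoothness etc.: `fo_lins`, `Fo.add`, `Fo.symp`.
-/

set_option autoImplicit false
set_option linter.unusedSectionVars false

open scoped ContDiff Topology
open Set Metric

namespace Pool.Agent.H60.Sy

private theorem far_par {s : ℝ} (hs1 : s ≤ 1) {t : ℝ} (ht : t ∈ Icc (0:ℝ) 1) :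
    s ≤ s + t * (1 - s) ∧ s + t * (1 - s) ≤ 1 := by
  obtain ⟨h1, h2⟩ := ht
  constructor
  · nlinarith
  · nlinarith

private theorem far_norm {E : Type} [NormedAddCommGroup E] [NormedSpace ℝ E] {s' r : ℝ}
    (hs0 : 0 < s') (hs1 : s' ≤ 1) {z : E} (h : s'⁻¹ • z ∈ closedBall (0 : E) r) : ‖z‖ ≤ r := by
  rw [mem_closedBall_zero_iff, norm_smul, norm_inv, Real.norm_of_nonneg hs0.le] at h
  have h1 : ‖z‖ ≤ s'⁻¹ * ‖z‖ := by
    have : 1 ≤ s'⁻¹ := (one_le_inv₀ hs0).2 hs1
    nlinarith [norm_nonneg z]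
  linarith

private theorem far_add {X G : Type} [TopologicalSpace X] [NormedAddCommGroup G]
    {f g : X → G} {S : Set X} (hf : ContinuousOn f S) (hg : ContinuousOn g S) :
    ContinuousOn (fun x => f x + g x) S := hf.add hg

theorem far {n : ℕ} (hn : 2 ≤ n) {κ₁ : EE n → B2 (EE n)} (hκ₁ : Symp κ₁)
    {η : EE n → B2 (EE n)} (hη : Fo η) {r : ℝ} (hr : ∀ x ∉ closedBall (0 : EE n) r, η x = 0)
    (hnd : ∀ x, Nondeg (om0 n + η x)) {p : EE n} {B : EE n →L[ℝ] EE n}
    (hB : ∀ v w, om0 n (B v) (B w) = om0 n v w)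
    (hfar : ∀ y, B (y - p) ∈ closedBall (0 : EE n) r → κ₁ y = om0 n) {s : ℝ} (hs : 0 < s)
    (hs1 : s ≤ 1) : ∃ R : ℝ,
      Mov (closedBall 0 R) (fun y => κ₁ y + lins η p B s y) (fun y => κ₁ y + lins η p B 1 y) := by
  obtain ⟨C, hC0, hC⟩ := exists_inv_bound (A := om0 n) (k := fun _ => om0 n)
    (fun _ _ => om0_nondeg n) (B := fun _ => B) continuousOn_const (fun _ _ v w => hB v w)
  have hC' : ∀ v, ‖v‖ ≤ C * ‖B v‖ := fun v => hC 0 ⟨le_rfl, zero_le_one⟩ v
  have hinj : Function.Injective B := by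
    rw [injective_iff_map_eq_zero]
    intro v hv
    have := hC' v
    rw [hv, norm_zero, mul_zero] at this
    exact norm_le_zero_iff.1 this
  have hout : ∀ t ∈ Icc (0:ℝ) 1, ∀ y ∉ closedBall (0 : EE n) (‖p‖ + C * r),
      lins η p B (s + t * (1 - s)) y = 0 := by
    intro t ht y hy
    obtain ⟨h1, h2⟩ := far_par hs1 ht
    refine lins_eq_zero hr fun hmem => hy ?_
    have h3 := far_norm (lt_of_lt_of_le hs h1) h2 hmem
    rw [mem_closedBall_zero_iff]
    have h4 := hC' (y - p)
    have h5 : ‖y‖ ≤ ‖p‖ + ‖y - p‖ := by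
      have : y = p + (y - p) := by abel
      calc ‖y‖ = ‖p + (y - p)‖ := by rw [← this]
        _ ≤ _ := norm_add_le _ _
    nlinarith
  have hmov := mov_path hn (fun t y => κ₁ y + lins η p B (s + t * (1 - s)) y) (fun t ht => by
    obtain ⟨h1, h2⟩ := far_par hs1 ht
    refine (hκ₁.fo.add (fo_lins hη p B (lt_of_lt_of_le hs h1).ne')).symp fun y => ?_
    by_cases hy : (s + t * (1 - s))⁻¹ • B (y - p) ∈ closedBall (0 : EE n) r
    · have h3 := far_norm (lt_of_lt_of_le hs h1) h2 hy
      rw [hfar y (mem_closedBall_zero_iff.2 h3)]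
      have e : om0 n + lins η p B (s + t * (1 - s)) y =
          (om0 n + η ((s + t * (1 - s))⁻¹ • B (y - p))).bilinearComp B B := by
        refine ContinuousLinearMap.ext fun v => ContinuousLinearMap.ext fun w => ?_
        rw [ContinuousLinearMap.bilinearComp_apply]
        simp only [add_apply, lins_apply, hB]
      rw [e]
      exact nondeg_bilinearComp (hnd _) hinj
    · have e : κ₁ y + lins η p B (s + t * (1 - s)) y = κ₁ y := by
        rw [lins_eq_zero hr hy]
        exact add_zero (κ₁ y)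
      rw [e]
      exact hκ₁.nondeg y) (by
    refine far_add (G := EE n →L[ℝ] EE n →L[ℝ] ℝ) (hκ₁.sm.continuous.comp continuous_snd).continuousOn ?_
    refine (continuousOn_lins hη.sm.continuous).comp (f := fun q : ℝ × EE n =>
      ((p, B, s + q.1 * (1 - s)), q.2)) ?_ ?_
    · exact ((continuous_const.prodMk (continuous_const.prodMk (continuous_const.add
        (continuous_fst.mul continuous_const)))).prodMk continuous_snd).continuousOn
    · rintro q ⟨hq, -⟩
      exact (lt_of_lt_of_le hs (far_par hs1 hq).1).ne')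
    (c := 0) (r := ‖p‖ + C * r) (fun t ht y hy => by
      show κ₁ y + lins η p B (s + t * (1 - s)) y = κ₁ y + lins η p B (s + 0 * (1 - s)) y
      rw [hout t ht y hy, hout 0 ⟨le_rfl, zero_le_one⟩ y hy])
  refine ⟨‖p‖ + C * r, ?_⟩
  have e0 : s + 0 * (1 - s) = s := by ring
  have e1 : s + 1 * (1 - s) = 1 := by ring
  rw [e0, e1] at hmov
  exact hmov

end Pool.Agent.H60.Sy
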