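import Pool.Agent.H60.Sy.Nem
import Pool.Agent.H60.Sy.Basic

/-! Flows of vector fields with small derivative, by the inverse function theorem in `C(I, F)`. -/

set_option autoImplicit false
set_option linter.unusedSectionVars false

open scoped ContDiff Topology unitInterval
open Set

namespace Pool.Agent.H60.Sy

variable {F : Type} [NormedAddCommGroup F] [NormedSpace ℝ F] [CompleteSpace F]

/-- Extension of a curve on `[0,1]` to the line. -/
noncomputable def ext (ξ : C(I, F)) (s : ℝ) : F := ξ (projIcc 0 1 zero_le_one s)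

theorem continuous_ext (ξ : C(I, F)) : Continuous (ext ξ) :=
  ξ.continuous.comp continuous_projIcc

theorem ext_of_mem (ξ : C(I, F)) (t : I) : ext ξ t = ξ t := by
  unfold ext; rw [projIcc_val]

theorem norm_ext_le (ξ : C(I, F)) (s : ℝ) : ‖ext ξ s‖ ≤ ‖ξ‖ := ξ.norm_coe_le_norm _

theorem norm_integral_ext_le (ξ : C(I, F)) (t : I) :
    ‖∫ s in (0:ℝ)..t, ext ξ s‖ ≤ ‖ξ‖ := by
  have h := intervalIntegral.norm_integral_le_of_norm_le_const (a := 0) (b := (t:ℝ))
    (f := ext ξ) (C := ‖ξ‖) (fun s _ => norm_ext_le ξ s)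
  refine h.trans ?_
  rw [sub_zero, abs_of_nonneg t.2.1]
  calc ‖ξ‖ * (t:ℝ) ≤ ‖ξ‖ * 1 := by gcongr; exact t.2.2
    _ = ‖ξ‖ := mul_one _

/-- Integration from `0`. -/
noncomputable def integ : C(I, F) →L[ℝ] C(I, F) :=
  LinearMap.mkContinuous
    { toFun := fun ξ => ⟨fun t => ∫ s in (0:ℝ)..t, ext ξ s, by
        have h : Continuous fun b : ℝ => ∫ s in (0:ℝ)..b, ext ξ s :=
          (intervalIntegral.differentiable_integral_of_continuous (continuous_ext ξ)).continuous
        exact h.comp continuous_subtype_val⟩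
      map_add' := by
        intro ξ η
        ext t
        have h : ext (ξ + η) = fun s => ext ξ s + ext η s := by funext s; simp [ext]
        simp only [ContinuousMap.coe_mk, ContinuousMap.add_apply, h]
        exact intervalIntegral.integral_add ((continuous_ext ξ).intervalIntegrable _ _)
          ((continuous_ext η).intervalIntegrable _ _)
      map_smul' := by
        intro c ξ
        ext t
        have h : ext (c • ξ) = fun s => c • ext ξ s := by funext s; simp [ext]
        simp only [ContinuousMap.coe_mk, ContinuousMap.smul_apply, h, RingHom.id_apply]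
        exact intervalIntegral.integral_smul _ _ } 1
    (fun ξ => by
      rw [one_mul]
      exact (ContinuousMap.norm_le _ (norm_nonneg _)).2 fun t => norm_integral_ext_le ξ t)

theorem integ_apply (ξ : C(I, F)) (t : I) : integ ξ t = ∫ s in (0:ℝ)..t, ext ξ s := rfl

theorem norm_integ_le (ξ : C(I, F)) : ‖integ ξ‖ ≤ ‖ξ‖ :=
  (ContinuousMap.norm_le _ (norm_nonneg _)).2 fun t => norm_integral_ext_le ξ t

theorem norm_integ : ‖(integ : C(I, F) →L[ℝ] C(I, F))‖ ≤ 1 :=
  ContinuousLinearMap.opNorm_le_bound _ zero_le_one fun ξ => by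
    rw [one_mul]; exact norm_integ_le ξ

/-- Constant curves. -/
noncomputable def cst : F →L[ℝ] C(I, F) :=
  LinearMap.mkContinuous
    { toFun := fun x => ContinuousMap.const I x
      map_add' := fun x y => by ext t; rfl
      map_smul' := fun c x => by ext t; rfl } 1
    (fun x => by
      rw [one_mul]
      exact (ContinuousMap.norm_le _ (norm_nonneg _)).2 fun t => le_rfl)

@[simp] theorem cst_apply (x : F) (t : I) : cst x t = x := rfl

section

variable (V : F → F) (hV : ContDiff ℝ ∞ V) (hb : ∀ x, ‖fderiv ℝ V x‖ ≤ 1 / 2)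

/-- The integral operator. -/
noncomputable def psi (γ : C(I, F)) : C(I, F) := γ - integ (nem V hV.continuous γ)

include hb in
theorem lip_V (hV : ContDiff ℝ ∞ V) (x y : F) : ‖V x - V y‖ ≤ 1 / 2 * ‖x - y‖ :=
  Convex.norm_image_sub_le_of_norm_fderiv_le (𝕜 := ℝ) (s := univ)
    (fun z _ => (hV.differentiable (by simp)) z) (fun z _ => hb z) convex_univ
    (mem_univ y) (mem_univ x)

include hb in
theorem norm_nem_sub (γ δ : C(I, F)) :
    ‖nem V hV.continuous γ - nem V hV.continuous δ‖ ≤ 1 / 2 * ‖γ - δ‖ := by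
  refine (ContinuousMap.norm_le _ (by positivity)).2 fun t => ?_
  calc ‖V (γ t) - V (δ t)‖ ≤ 1 / 2 * ‖γ t - δ t‖ := lip_V V hb hV _ _
    _ ≤ 1 / 2 * ‖γ - δ‖ := by
      gcongr
      exact (γ - δ).norm_coe_le_norm t

include hb in
theorem approx_psi : ApproximatesLinearOn (psi V hV)
    ((ContinuousLinearEquiv.refl ℝ C(I, F)) : C(I, F) →L[ℝ] C(I, F)) univ (1 / 2) := by
  intro γ _ δ _
  have : psi V hV γ - psi V hV δ - (γ - δ)
      = - integ (nem V hV.continuous γ - nem V hV.continuous δ) := by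
    rw [map_sub]; unfold psi; abel
  simp only [ContinuousLinearEquiv.coe_refl, ContinuousLinearMap.coe_id', id_eq]
  rw [this, norm_neg]
  refine (norm_integ_le _).trans ?_
  exact_mod_cast norm_nem_sub V hV hb γ δ

theorem psi_const_cond : Subsingleton C(I, F) ∨
    (1 / 2 : NNReal) < ‖((ContinuousLinearEquiv.refl ℝ C(I, F)).symm : C(I, F) →L[ℝ] C(I, F))‖₊⁻¹ := by
  rcases subsingleton_or_nontrivial C(I, F) with h | h
  · exact Or.inl h
  · right
    have : ‖((ContinuousLinearEquiv.refl ℝ C(I, F)).symm : C(I, F) →L[ℝ] C(I, F))‖₊ = 1 := by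
      have : ((ContinuousLinearEquiv.refl ℝ C(I, F)).symm : C(I, F) →L[ℝ] C(I, F))
        = ContinuousLinearMap.id ℝ _ := rfl
      rw [this]
      ext
      simp
    rw [this, inv_one]
    norm_num

/-- `psi` as a homeomorphism. -/
noncomputable def psiH : C(I, F) ≃ₜ C(I, F) :=
  (approx_psi V hV hb).toHomeomorph (psi V hV) psi_const_cond

theorem psiH_apply (γ : C(I, F)) : psiH V hV hb γ = psi V hV γ := rfl

/-- The solution curve with initial value `x`. -/
noncomputable def sol (x : F) : C(I, F) := (psiH V hV hb).symm (cst x)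

theorem psi_sol (x : F) : psi V hV (sol V hV hb x) = cst x :=
  (psiH V hV hb).apply_symm_apply (cst x)

theorem eq_sol {γ : C(I, F)} {x : F} (h : psi V hV γ = cst x) : γ = sol V hV hb x := by
  apply (psiH V hV hb).injective
  rw [psiH_apply, psiH_apply, h, psi_sol]

theorem contDiff_psi : ContDiff ℝ ∞ (psi V hV) := by
  unfold psi
  exact contDiff_id.sub (integ.contDiff.comp (contDiff_nem V _ hV))

/-- The linearised field along `γ`. -/
noncomputable def lin (γ : C(I, F)) : C(I, F) →L[ℝ] C(I, F) :=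
  integ.comp (pair (nem (fderiv ℝ V) (hV.continuous_fderiv (by simp)) γ))

include hb in
theorem norm_lin_lt (γ : C(I, F)) : ‖lin V hV γ‖ < 1 := by
  have h1 : ‖nem (X := I) (fderiv ℝ V) (hV.continuous_fderiv (by simp)) γ‖ ≤ 1 / 2 :=
    (ContinuousMap.norm_le _ (by norm_num)).2 fun t => hb _
  calc ‖lin V hV γ‖ ≤ ‖(integ : C(I, F) →L[ℝ] C(I, F))‖ * ‖pair (nem (X := I) (fderiv ℝ V)
        (hV.continuous_fderiv (by simp)) γ)‖ := ContinuousLinearMap.opNorm_comp_le _ _
    _ ≤ 1 * (1 / 2) := by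
      gcongr
      · exact norm_integ
      · exact (norm_pair_le _).trans h1
    _ < 1 := by norm_num

theorem hasFDerivAt_psi (γ : C(I, F)) :
    HasFDerivAt (psi V hV) (ContinuousLinearMap.id ℝ _ - lin V hV γ) γ := by
  unfold psi
  have h := hasFDerivAt_nem (X := I) V (hV.of_le (by simp)) γ
  have hI : HasFDerivAt (integ : C(I, F) →L[ℝ] C(I, F)) (integ : C(I, F) →L[ℝ] C(I, F))
      (nem V hV.continuous γ) := (integ : C(I, F) →L[ℝ] C(I, F)).hasFDerivAt
  exact (hasFDerivAt_id γ).sub (hI.comp γ h)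

/-- The derivative of `psi` as an equivalence. -/
noncomputable def psiE (γ : C(I, F)) : C(I, F) ≃L[ℝ] C(I, F) :=
  ContinuousLinearEquiv.unitsEquiv ℝ _ (Units.oneSub (lin V hV γ) (norm_lin_lt V hV hb γ))

theorem contDiff_sol : ContDiff ℝ ∞ (sol V hV hb) := by
  have h : ContDiff ℝ ∞ ((psiH V hV hb).symm : C(I, F) → C(I, F)) := by
    refine (psiH V hV hb).contDiff_symm (f₀' := psiE V hV hb) (fun γ => ?_) (contDiff_psi V hV)
    exact hasFDerivAt_psi V hV γ
  exact h.comp (cst : F →L[ℝ] C(I, F)).contDiff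

theorem sol_eq (x : F) (t : I) :
    sol V hV hb x t = x + ∫ s in (0:ℝ)..t, V (ext (sol V hV hb x) s) := by
  have h := congrArg (fun γ : C(I, F) => γ t) (psi_sol V hV hb x)
  simp only [psi, ContinuousMap.sub_apply, cst_apply] at h
  rw [integ_apply] at h
  have e : ext (nem V hV.continuous (sol V hV hb x)) = fun s => V (ext (sol V hV hb x) s) := rfl
  rw [e] at h
  exact sub_eq_iff_eq_add.1 h

theorem fderiv_sol_eq (x h : F) (t : I) :
    fderiv ℝ (sol V hV hb) x h t = h + ∫ s in (0:ℝ)..t,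
      fderiv ℝ V (ext (sol V hV hb x) s) (ext (fderiv ℝ (sol V hV hb) x h) s) := by
  have hd : HasFDerivAt (sol V hV hb) (fderiv ℝ (sol V hV hb) x) x :=
    ((contDiff_sol V hV hb).differentiable (by simp) x).hasFDerivAt
  have h1 : HasFDerivAt (fun y => psi V hV (sol V hV hb y))
      ((ContinuousLinearMap.id ℝ _ - lin V hV (sol V hV hb x)).comp
        (fderiv ℝ (sol V hV hb) x)) x :=
    (hasFDerivAt_psi V hV _).comp x hd
  have h2 : HasFDerivAt (fun y => psi V hV (sol V hV hb y)) cst x := by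
    have : (fun y => psi V hV (sol V hV hb y)) = cst := by
      funext y; exact psi_sol V hV hb y
    rw [this]; exact (cst : F →L[ℝ] C(I, F)).hasFDerivAt
  have h3 := h1.unique h2
  have h4 := congrArg (fun A : F →L[ℝ] C(I, F) => A h t) h3
  simp only [ContinuousLinearMap.comp_apply, sub_apply,
    ContinuousLinearMap.id_apply, ContinuousMap.sub_apply, cst_apply, lin] at h4
  rw [integ_apply] at h4
  have e : ext (pair (nem (fderiv ℝ V) (hV.continuous_fderiv (by simp)) (sol V hV hb x))
      (fderiv ℝ (sol V hV hb) x h)) = fun s => fderiv ℝ V (ext (sol V hV hb x) s)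
        (ext (fderiv ℝ (sol V hV hb) x h) s) := rfl
  rw [e] at h4
  exact sub_eq_iff_eq_add.1 h4

/-- The solution extended to the line (only meaningful on `[0,1]`). -/
noncomputable def yy (x : F) (s : ℝ) : F :=
  x + ∫ r in (0:ℝ)..s, V (ext (sol V hV hb x) r)

/-- The derivative of the solution, extended to the line. -/
noncomputable def zz (x h : F) (s : ℝ) : F :=
  h + ∫ r in (0:ℝ)..s, fderiv ℝ V (ext (sol V hV hb x) r) (ext (fderiv ℝ (sol V hV hb) x h) r)

theorem yy_eq (x : F) (t : I) : yy V hV hb x t = sol V hV hb x t := (sol_eq V hV hb x t).symm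

theorem zz_eq (x h : F) (t : I) : zz V hV hb x h t = fderiv ℝ (sol V hV hb) x h t :=
  (fderiv_sol_eq V hV hb x h t).symm

theorem ext_sol {s : ℝ} (hs : s ∈ Icc (0:ℝ) 1) (x : F) :
    ext (sol V hV hb x) s = yy V hV hb x s := by
  have := yy_eq V hV hb x ⟨s, hs⟩
  rw [show s = ((⟨s, hs⟩ : I) : ℝ) from rfl, this, ext_of_mem]

theorem ext_fderiv_sol {s : ℝ} (hs : s ∈ Icc (0:ℝ) 1) (x h : F) :
    ext (fderiv ℝ (sol V hV hb) x h) s = zz V hV hb x h s := by
  have := zz_eq V hV hb x h ⟨s, hs⟩
  rw [show s = ((⟨s, hs⟩ : I) : ℝ) from rfl, this, ext_of_mem]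

theorem hasDerivAt_yy {s : ℝ} (hs : s ∈ Icc (0:ℝ) 1) (x : F) :
    HasDerivAt (yy V hV hb x) (V (yy V hV hb x s)) s := by
  have hc : Continuous fun r => V (ext (sol V hV hb x) r) :=
    hV.continuous.comp (continuous_ext _)
  have h := (hc.integral_hasStrictDerivAt 0 s).hasDerivAt.const_add x
  rw [← ext_sol V hV hb hs]
  exact h

theorem hasDerivAt_zz {s : ℝ} (hs : s ∈ Icc (0:ℝ) 1) (x h : F) :
    HasDerivAt (zz V hV hb x h) (fderiv ℝ V (yy V hV hb x s) (zz V hV hb x h s)) s := by
  have hc : Continuous fun r => fderiv ℝ V (ext (sol V hV hb x) r)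
      (ext (fderiv ℝ (sol V hV hb) x h) r) :=
    ((hV.continuous_fderiv (by simp)).comp (continuous_ext _)).clm_apply (continuous_ext _)
  have h1 := (hc.integral_hasStrictDerivAt 0 s).hasDerivAt.const_add h
  rw [← ext_sol V hV hb hs, ← ext_fderiv_sol V hV hb hs]
  exact h1

theorem yy_zero (x : F) : yy V hV hb x 0 = x := by simp [yy]

theorem zz_zero (x h : F) : zz V hV hb x h 0 = h := by simp [zz]

/-- Evaluation. -/
noncomputable def evl (t : I) : C(I, F) →L[ℝ] F := ContinuousMap.evalCLM ℝ t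

@[simp] theorem evl_apply (t : I) (γ : C(I, F)) : evl t γ = γ t := rfl

/-- The time-one map. -/
noncomputable def phi (x : F) : F := sol V hV hb x 1

theorem contDiff_phi : ContDiff ℝ ∞ (phi V hV hb) :=
  (evl (F := F) 1).contDiff.comp (contDiff_sol V hV hb)

theorem phi_eq (x : F) : phi V hV hb x = yy V hV hb x 1 := by
  have := yy_eq V hV hb x 1
  simpa [phi] using this.symm

theorem fderiv_phi (x h : F) : fderiv ℝ (phi V hV hb) x h = zz V hV hb x h 1 := by
  have hd : HasFDerivAt (sol V hV hb) (fderiv ℝ (sol V hV hb) x) x :=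
    ((contDiff_sol V hV hb).differentiable (by simp) x).hasFDerivAt
  have h1 : HasFDerivAt (phi V hV hb) ((evl 1).comp (fderiv ℝ (sol V hV hb) x)) x :=
    (evl (F := F) 1).hasFDerivAt.comp x hd
  rw [h1.fderiv]
  have := zz_eq V hV hb x h 1
  simpa using this.symm

theorem sol_zero (x : F) : sol V hV hb x 0 = x := by
  have := sol_eq V hV hb x 0
  simpa using this

end

section

variable (V : F → F) (hV : ContDiff ℝ ∞ V) (hb : ∀ x, ‖fderiv ℝ V x‖ ≤ 1 / 2)

theorem hb_neg (hb : ∀ x, ‖fderiv ℝ V x‖ ≤ 1 / 2) (x : F) :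
    ‖fderiv ℝ (fun y => - V y) x‖ ≤ 1 / 2 := by
  rw [fderiv_fun_neg, norm_neg]; exact hb x

/-- Reversal of a curve. -/
noncomputable def rev (γ : C(I, F)) : C(I, F) := γ.comp ⟨unitInterval.symm, unitInterval.continuous_symm⟩

theorem ext_rev (γ : C(I, F)) {s : ℝ} (hs : s ∈ Icc (0:ℝ) 1) : ext (rev γ) s = ext γ (1 - s) := by
  have hs' : 1 - s ∈ Icc (0:ℝ) 1 := ⟨by linarith [hs.2], by linarith [hs.1]⟩
  have e1 := ext_of_mem (rev γ) ⟨s, hs⟩
  have e2 := ext_of_mem γ ⟨1 - s, hs'⟩
  change ext (rev γ) s = _ at e1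
  change ext γ (1 - s) = _ at e2
  rw [e1, e2]
  rfl

theorem phi_neg_phi (x : F) :
    phi (fun y => - V y) hV.neg (hb_neg V hb) (phi V hV hb x) = x := by
  set γ := sol V hV hb x with hγ
  have key : psi (fun y => - V y) hV.neg (rev γ) = cst (phi V hV hb x) := by
    ext t
    simp only [psi, ContinuousMap.sub_apply, cst_apply]
    rw [integ_apply]
    have h1 : (∫ s in (0:ℝ)..t, ext (nem (fun y => - V y) hV.neg.continuous (rev γ)) s)
        = - ∫ s in (0:ℝ)..t, V (ext γ (1 - s)) := by
      rw [← intervalIntegral.integral_neg]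
      apply intervalIntegral.integral_congr
      intro s hs
      rw [uIcc_of_le t.2.1] at hs
      have hs' : s ∈ Icc (0:ℝ) 1 := ⟨hs.1, hs.2.trans t.2.2⟩
      have : ext (nem (fun y => - V y) hV.neg.continuous (rev γ)) s = - V (ext (rev γ) s) := rfl
      simp only [this, ext_rev γ hs']
    rw [h1, intervalIntegral.integral_comp_sub_left (fun s => V (ext γ s)) 1, sub_zero,
      sub_neg_eq_add]
    have hc : Continuous fun r => V (ext γ r) := hV.continuous.comp (continuous_ext _)
    have e1 : rev γ t = x + ∫ s in (0:ℝ)..(1 - t), V (ext γ s) := by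
      have := sol_eq V hV hb x (unitInterval.symm t)
      rw [unitInterval.coe_symm_eq] at this
      exact this
    have e2 : phi V hV hb x = x + ∫ s in (0:ℝ)..1, V (ext γ s) := by
      have := sol_eq V hV hb x 1
      simpa [phi] using this
    rw [e1, e2, add_assoc, intervalIntegral.integral_add_adjacent_intervals
      (hc.intervalIntegrable _ _) (hc.intervalIntegrable _ _)]
  have h2 := eq_sol _ hV.neg (hb_neg V hb) key
  unfold phi at h2 ⊢
  rw [← h2]
  change γ (unitInterval.symm 1) = x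
  rw [unitInterval.symm_one]
  exact sol_zero V hV hb x

theorem phi_phi_neg (x : F) :
    phi V hV hb (phi (fun y => - V y) hV.neg (hb_neg V hb) x) = x := by
  have h := phi_neg_phi (fun y => - V y) hV.neg (hb_neg V hb) x
  have e : (fun y => - (fun y => - V y) y) = V := by funext y; simp
  have : ∀ (W : F → F) (hW : ContDiff ℝ ∞ W) (hbW : ∀ x, ‖fderiv ℝ W x‖ ≤ 1 / 2) (_ : W = V)
      (z : F), phi W hW hbW z = phi V hV hb z := by
    intro W hW hbW hWV z; subst hWV; rfl
  rw [this _ _ _ e] at h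
  exact h

/-- The time-one map as a diffeomorphism. -/
noncomputable def flow1 : Dif F :=
  Dif.mk' (phi V hV hb) (phi (fun y => - V y) hV.neg (hb_neg V hb)) (contDiff_phi V hV hb)
    (contDiff_phi _ _ _) (phi_neg_phi V hV hb) (phi_phi_neg V hV hb)

theorem flow1_apply (x : F) : flow1 V hV hb x = yy V hV hb x 1 := phi_eq V hV hb x

theorem fderiv_flow1 (x h : F) : fderiv ℝ (flow1 V hV hb) x h = zz V hV hb x h 1 :=
  fderiv_phi V hV hb x h

/-- A solution curve which is explicitly known. -/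
theorem flow1_of_curve (x : F) (c : ℝ → F) (hc0 : c 0 = x)
    (hc : ∀ s ∈ Icc (0:ℝ) 1, HasDerivAt c (V (c s)) s) :
    flow1 V hV hb x = c 1 := by
  have hlip : ∀ t : ℝ, LipschitzWith (1 / 2) (fun y => V y) := fun _ =>
    LipschitzWith.of_dist_le_mul fun y z => by
      rw [dist_eq_norm, dist_eq_norm]
      exact_mod_cast lip_V V hb hV y z
  have h := ODE_solution_unique (v := fun _ y => V y) (K := 1 / 2) (f := yy V hV hb x) (g := c)
    (a := 0) (b := 1) (fun t => hlip t)
    (fun s hs => (hasDerivAt_yy V hV hb hs x).continuousAt.continuousWithinAt)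
    (fun s hs => (hasDerivAt_yy V hV hb ⟨hs.1, hs.2.le⟩ x).hasDerivWithinAt)
    (fun s hs => (hc s hs).continuousAt.continuousWithinAt)
    (fun s hs => (hc s ⟨hs.1, hs.2.le⟩).hasDerivWithinAt)
    (by rw [yy_zero, hc0])
  rw [flow1_apply]
  exact h ⟨zero_le_one, le_rfl⟩

end

end Pool.Agent.H60.Sy
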