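import Pool.Agent.H60.Sy.Flow

/-! Moser's argument for a linear path of symplectic forms. -/

set_option autoImplicit false
set_option linter.unusedSectionVars false

open scoped ContDiff Topology
open Set

namespace Pool.Agent.H60.Sy

variable {E : Type} [NormedAddCommGroup E] [NormedSpace ℝ E] [FiniteDimensional ℝ E]

theorem finrank_dual' : Module.finrank ℝ E = Module.finrank ℝ (E →L[ℝ] ℝ) := by
  have h1 : Module.finrank ℝ (E →ₗ[ℝ] ℝ) = Module.finrank ℝ (E →L[ℝ] ℝ) :=
    (LinearMap.toContinuousLinearMap : (E →ₗ[ℝ] ℝ) ≃ₗ[ℝ] (E →L[ℝ] ℝ)).finrank_eq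
  rw [← h1]
  exact (Subspace.dual_finrank_eq (K := ℝ) (V := E)).symm

theorem Nondeg.injective {A : B2 E} (h : Nondeg A) : Function.Injective A := by
  rw [injective_iff_map_eq_zero]
  intro v hv
  exact h v fun w => by rw [hv]; rfl

/-- A nondegenerate form as an isomorphism onto the dual. -/
noncomputable def Nondeg.equiv {A : B2 E} (h : Nondeg A) : E ≃L[ℝ] (E →L[ℝ] ℝ) :=
  (LinearEquiv.ofInjectiveOfFinrankEq (A : E →ₗ[ℝ] (E →L[ℝ] ℝ)) h.injective
    finrank_dual').toContinuousLinearEquiv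

theorem Nondeg.coe_equiv {A : B2 E} (h : Nondeg A) : (h.equiv : E →L[ℝ] (E →L[ℝ] ℝ)) = A := by
  ext v w; rfl

theorem contDiff_inverse {F : Type} [NormedAddCommGroup F] [NormedSpace ℝ F]
    {k : F → B2 E} (hk : ContDiff ℝ ∞ k) (hn : ∀ p, Nondeg (k p)) :
    ContDiff ℝ ∞ (fun p => (k p).inverse) := by
  rw [contDiff_iff_contDiffAt]
  intro p
  have h := contDiffAt_map_inverse (𝕜 := ℝ) (n := ∞) (hn p).equiv
  rw [(hn p).coe_equiv] at h
  exact h.comp p hk.contDiffAt

theorem inverse_apply {A : B2 E} (h : Nondeg A) (l : E →L[ℝ] ℝ) : A (A.inverse l) = l := by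
  have := ContinuousLinearMap.inverse_equiv h.equiv
  rw [h.coe_equiv] at this
  rw [this]
  have e := h.equiv.apply_symm_apply l
  have e2 : h.equiv (h.equiv.symm l) = A (h.equiv.symm l) := rfl
  rw [e2] at e
  exact e

theorem contDiff_smul' {F G : Type} [NormedAddCommGroup F] [NormedSpace ℝ F]
    [NormedAddCommGroup G] [NormedSpace ℝ G] {f : F → ℝ} {g : F → G} (hf : ContDiff ℝ ∞ f)
    (hg : ContDiff ℝ ∞ g) : ContDiff ℝ ∞ (fun x => f x • g x) := hf.smul hg

theorem hasFDerivAt_smul' {F G : Type} [NormedAddCommGroup F] [NormedSpace ℝ F]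
    [NormedAddCommGroup G] [NormedSpace ℝ G] {f : F → ℝ} {g : F → G} {f' : F →L[ℝ] ℝ}
    {g' : F →L[ℝ] G} {x : F} (hf : HasFDerivAt f f' x) (hg : HasFDerivAt g g' x) :
    HasFDerivAt (fun x => f x • g x) (f x • g' + f'.smulRight (g x)) x := hf.smul hg

/-- smooth step -/
noncomputable abbrev st : ℝ → ℝ := Real.smoothTransition

theorem contDiff_st : ContDiff ℝ ∞ st := Real.smoothTransition.contDiff

theorem st_mem (t : ℝ) : st t ∈ Icc (0:ℝ) 1 :=
  ⟨Real.smoothTransition.nonneg t, Real.smoothTransition.le_one t⟩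

theorem deriv_st_of_notMem {t : ℝ} (ht : t ∉ Icc (0:ℝ) 1) : deriv st t = 0 := by
  rw [mem_Icc, not_and_or, not_le, not_le] at ht
  rcases ht with h | h
  · have : st =ᶠ[𝓝 t] fun _ => 0 := by
      filter_upwards [gt_mem_nhds h] with s hs
      exact Real.smoothTransition.zero_of_nonpos hs.le
    rw [this.deriv_eq, deriv_const]
  · have : st =ᶠ[𝓝 t] fun _ => 1 := by
      filter_upwards [lt_mem_nhds h] with s hs
      exact Real.smoothTransition.one_of_one_le hs.le
    rw [this.deriv_eq, deriv_const]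

section

variable (κ : E → B2 E) (ν : E → E →L[ℝ] ℝ)

/-- the path of forms -/
noncomputable def kk (p : ℝ × E) : B2 E := κ p.2 + st p.1 • dd ν p.2

/-- Moser's field -/
noncomputable def XX (p : ℝ × E) : E := -(deriv st p.1) • (kk κ ν p).inverse (ν p.2)

variable (hκ : Symp κ) (hν : ContDiff ℝ ∞ ν)
  (hnd : ∀ s ∈ Icc (0:ℝ) 1, ∀ x, Nondeg (κ x + s • dd ν x))

include hnd in
theorem nondeg_kk (p : ℝ × E) : Nondeg (kk κ ν p) := hnd _ (st_mem _) _

include hκ hν in
theorem contDiff_kk : ContDiff ℝ ∞ (kk κ ν) := by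
  unfold kk
  exact (hκ.sm.comp contDiff_snd).add
    (contDiff_smul' (contDiff_st.comp contDiff_fst) ((contDiff_dd hν).comp contDiff_snd))

include hκ hν hnd in
theorem contDiff_XX : ContDiff ℝ ∞ (XX κ ν) := by
  have h1 : ContDiff ℝ ∞ (deriv st) := by
    have := contDiff_st
    exact (contDiff_infty_iff_deriv.1 this).2
  unfold XX
  exact (h1.comp contDiff_fst).neg.smul
    ((contDiff_inverse (contDiff_kk κ ν hκ hν) (nondeg_kk κ ν hnd)).clm_apply
      (hν.comp contDiff_snd))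

include hnd in
theorem kk_XX (p : ℝ × E) (w : E) : kk κ ν p (XX κ ν p) w = -(deriv st p.1) * ν p.2 w := by
  unfold XX
  rw [map_smul, inverse_apply (nondeg_kk κ ν hnd p)]
  rfl

include hκ hν in
theorem fderiv_kk (p : ℝ × E) (c : ℝ) (u v w : E) :
    fderiv ℝ (kk κ ν) p (c, u) v w = c * (deriv st p.1 * dd ν p.2 v w)
      + (fderiv ℝ κ p.2 u v w + st p.1 * fderiv ℝ (dd ν) p.2 u v w) := by
  have h1 : HasFDerivAt (fun q : ℝ × E => κ q.2) ((fderiv ℝ κ p.2).comp
      (ContinuousLinearMap.snd ℝ ℝ E)) p :=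
    ((hκ.sm.differentiable (by simp)) p.2).hasFDerivAt.comp p hasFDerivAt_snd
  have h2 : HasFDerivAt (fun q : ℝ × E => dd ν q.2) ((fderiv ℝ (dd ν) p.2).comp
      (ContinuousLinearMap.snd ℝ ℝ E)) p :=
    (((contDiff_dd hν).differentiable (by simp)) p.2).hasFDerivAt.comp p hasFDerivAt_snd
  have h3 : HasFDerivAt (fun q : ℝ × E => st q.1) ((fderiv ℝ st p.1).comp
      (ContinuousLinearMap.fst ℝ ℝ E)) p :=
    ((contDiff_st.differentiable (by simp)) p.1).hasFDerivAt.comp p hasFDerivAt_fst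
  have h4 := h1.add (hasFDerivAt_smul' (G := E →L[ℝ] E →L[ℝ] ℝ) h3 h2)
  have h5 : fderiv ℝ (kk κ ν) p = _ := h4.fderiv
  rw [h5]
  have h6 : fderiv ℝ st p.1 c = c * deriv st p.1 := by
    rw [fderiv_eq_smul_deriv]; rfl
  simp only [add_apply, ContinuousLinearMap.comp_apply,
    smul_apply, ContinuousLinearMap.smulRight_apply,
    ContinuousLinearMap.coe_snd', ContinuousLinearMap.coe_fst', smul_eq_mul, h6]
  ring

include hκ hν in
theorem alt_kk (p : ℝ × E) (v w : E) : kk κ ν p v w = - kk κ ν p w v := by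
  have h1 := hκ.alt p.2 v w
  have h2 := alt_dd ν p.2 v w
  unfold kk
  simp only [add_apply, smul_apply, smul_eq_mul]
  rw [h1, h2]; ring

include hκ hν hnd in
/-- The infinitesimal identity. -/
theorem lie_zero (p : ℝ × E) (c : ℝ) (a b : E) :
    fderiv ℝ (kk κ ν) p (c, c • XX κ ν p) a b
      + kk κ ν p (c • fderiv ℝ (XX κ ν) p (0, a)) b
      + kk κ ν p a (c • fderiv ℝ (XX κ ν) p (0, b)) = 0 := by
  -- derivative of `kk (XX) w`
  have key : ∀ a w : E, fderiv ℝ (kk κ ν) p (0, a) (XX κ ν p) w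
      + kk κ ν p (fderiv ℝ (XX κ ν) p (0, a)) w
      = -(deriv st p.1) * fderiv ℝ ν p.2 a w := by
    intro a w
    have hk : HasFDerivAt (kk κ ν) (fderiv ℝ (kk κ ν) p) p :=
      ((contDiff_kk κ ν hκ hν).differentiable (by simp) p).hasFDerivAt
    have hX : HasFDerivAt (XX κ ν) (fderiv ℝ (XX κ ν) p) p :=
      ((contDiff_XX κ ν hκ hν hnd).differentiable (by simp) p).hasFDerivAt
    have h1 := (hk.clm_apply hX).clm_apply (hasFDerivAt_const w p)
    have h2 : (fun q => kk κ ν q (XX κ ν q) w) = fun q => -(deriv st q.1) * ν q.2 w := by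
      funext q; exact kk_XX κ ν hnd q w
    -- restrict to the line in direction (0, a)
    have hl : HasDerivAt (fun r : ℝ => p + r • ((0, a) : ℝ × E)) (0, a) 0 := by
      have := ((hasDerivAt_id (0:ℝ)).smul_const ((0, a) : ℝ × E)).const_add p
      simpa using this
    have e0 : p + (0:ℝ) • ((0, a) : ℝ × E) = p := by simp
    have h3 := HasFDerivAt.comp_hasDerivAt (0:ℝ) (by rw [e0]; exact h1) hl
    have h4 : HasDerivAt (fun r : ℝ => -(deriv st p.1) * ν (p.2 + r • a) w)
        (-(deriv st p.1) * fderiv ℝ ν p.2 a w) 0 := by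
      have hl2 : HasDerivAt (fun r : ℝ => p.2 + r • a) a 0 := by
        have := ((hasDerivAt_id (0:ℝ)).smul_const a).const_add p.2
        simpa using this
      have e1 : p.2 + (0:ℝ) • a = p.2 := by simp
      have hνd : HasFDerivAt ν (fderiv ℝ ν p.2) p.2 :=
        (hν.differentiable (by simp) p.2).hasFDerivAt
      have h5 := HasFDerivAt.comp_hasDerivAt (0:ℝ) (by rw [e1]; exact hνd) hl2
      have h6 := h5.clm_apply (hasDerivAt_const (0:ℝ) w)
      have h7 := h6.const_mul (-(deriv st p.1))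
      simpa using h7
    have h8 : ((fun q => kk κ ν q (XX κ ν q) w) ∘ fun r : ℝ => p + r • ((0, a) : ℝ × E))
        = fun r : ℝ => -(deriv st p.1) * ν (p.2 + r • a) w := by
      funext r
      simp only [Function.comp_apply]
      rw [kk_XX κ ν hnd]
      simp
    have h9 := h3.unique (by rw [← h8] at h4; exact h4)
    simpa [add_comm] using h9
  have k1 := key a b
  have k2 := key b a
  have ck := hκ.closed p.2 (XX κ ν p) a b
  have cd := closed_dd hν p.2 (XX κ ν p) a b
  have al := alt_kk κ ν hκ hν p a (fderiv ℝ (XX κ ν) p (0, b))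
  rw [fderiv_kk κ ν hκ hν] at k1 k2
  rw [map_smul, map_smul, smul_apply, al, fderiv_kk κ ν hκ hν]
  have e1 : fderiv ℝ κ p.2 (c • XX κ ν p) a b = c * fderiv ℝ κ p.2 (XX κ ν p) a b := by
    rw [map_smul]; rfl
  have e2 : fderiv ℝ (dd ν) p.2 (c • XX κ ν p) a b
      = c * fderiv ℝ (dd ν) p.2 (XX κ ν p) a b := by
    rw [map_smul]; rfl
  rw [e1, e2]
  simp only [dd_apply, smul_eq_mul] at *
  linear_combination c * k1 - c * k2 + c * ck + c * st p.1 * cd

/-- The space-time field with speed `c`. -/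
noncomputable def VV (c : ℝ) (p : ℝ × E) : ℝ × E := (c, c • XX κ ν p)

include hκ hν hnd in
theorem contDiff_VV (c : ℝ) : ContDiff ℝ ∞ (VV κ ν c) :=
  contDiff_const.prodMk (contDiff_const.smul (contDiff_XX κ ν hκ hν hnd))

include hκ hν hnd in
theorem fderiv_VV (c : ℝ) (p ζ : ℝ × E) :
    fderiv ℝ (VV κ ν c) p ζ = (0, c • fderiv ℝ (XX κ ν) p ζ) := by
  have hX : HasFDerivAt (XX κ ν) (fderiv ℝ (XX κ ν) p) p :=
      ((contDiff_XX κ ν hκ hν hnd).differentiable (by simp) p).hasFDerivAt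
  have h := (hasFDerivAt_const c p).prodMk (hX.const_smul c)
  have h2 : fderiv ℝ (VV κ ν c) p = _ := h.fderiv
  rw [h2]; rfl

theorem eq_of_hasDerivAt_zero {G : Type} [NormedAddCommGroup G] [NormedSpace ℝ G]
    {f : ℝ → G} (h : ∀ s ∈ Icc (0:ℝ) 1, HasDerivAt f 0 s) : f 1 = f 0 := by
  have := constant_of_has_deriv_right_zero (f := f) (a := 0) (b := 1)
    (fun s hs => (h s hs).continuousAt.continuousWithinAt)
    (fun s hs => (h s ⟨hs.1, hs.2.le⟩).hasDerivWithinAt) 1 ⟨zero_le_one, le_rfl⟩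
  exact this

theorem comp_hasDerivAt' {F G : Type} [NormedAddCommGroup F] [NormedSpace ℝ F]
    [NormedAddCommGroup G] [NormedSpace ℝ G] {k : F → G} {k' : F →L[ℝ] G} {y : ℝ → F} {y' : F}
    {s : ℝ} (hk : HasFDerivAt k k' (y s)) (hy : HasDerivAt y y' s) :
    HasDerivAt (fun s => k (y s)) (k' y') s := hk.comp_hasDerivAt s hy

/-- Properties of the space-time flow of Moser's field. -/
structure MGood (S : Set E) (G : Dif (ℝ × E)) (τ : ℝ) : Prop where
  fst : ∀ p, (G p).1 = p.1 + τ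
  fix : ∀ p : ℝ × E, p.2 ∉ S → (G p).2 = p.2
  inv : ∀ p a b, kk κ ν (G p) (fderiv ℝ G p (0, a)).2 (fderiv ℝ G p (0, b)).2 = kk κ ν p a b

theorem fderiv_fst_of_fst {G : Dif (ℝ × E)} {τ : ℝ} (h : ∀ p, (G p).1 = p.1 + τ) (p : ℝ × E)
    (a : E) : (fderiv ℝ G p (0, a)).1 = 0 := by
  have h1 : HasFDerivAt (fun q => (G q).1) ((ContinuousLinearMap.fst ℝ ℝ E).comp
      (fderiv ℝ G p)) p := hasFDerivAt_fst.comp p (G.hasFDerivAt p)
  have h2 : HasFDerivAt (fun q : ℝ × E => (G q).1) (ContinuousLinearMap.fst ℝ ℝ E) p := by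
    have : (fun q : ℝ × E => (G q).1) = fun q => q.1 + τ := by funext q; exact h q
    rw [this]
    exact hasFDerivAt_fst.add_const τ
  have h3 := h1.unique h2
  have h4 := congrArg (fun A : (ℝ × E) →L[ℝ] ℝ => A (0, a)) h3
  simpa using h4

theorem MGood.trans {S : Set E} {G H : Dif (ℝ × E)} {τ σ : ℝ} (hG : MGood κ ν S G τ)
    (hH : MGood κ ν S H σ) : MGood κ ν S (G.trans H) (τ + σ) where
  fst p := by rw [Dif.trans_apply, hH.fst, hG.fst]; ring
  fix p hp := by
    rw [Dif.trans_apply, hH.fix _ (by rw [hG.fix p hp]; exact hp), hG.fix p hp]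
  inv p a b := by
    have hd : fderiv ℝ (G.trans H) p = (fderiv ℝ H (G p)).comp (fderiv ℝ G p) :=
      fderiv_comp p (H.differentiable _) (G.differentiable _)
    have e : ∀ a, fderiv ℝ G p (0, a) = (0, (fderiv ℝ G p (0, a)).2) := fun a =>
      Prod.ext (fderiv_fst_of_fst hG.fst p a) rfl
    rw [Dif.trans_apply, hd, ContinuousLinearMap.comp_apply, ContinuousLinearMap.comp_apply,
      e a, e b, hH.inv, hG.inv]

include hκ hν hnd in
theorem mgood_step {S : Set E} (hS : ∀ x ∉ S, ν x = 0) (c : ℝ)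
    (hb : ∀ p, ‖fderiv ℝ (VV κ ν c) p‖ ≤ 1 / 2) :
    MGood κ ν S (flow1 (VV κ ν c) (contDiff_VV κ ν hκ hν hnd c) hb) c where
  fst p := by
    set hV := contDiff_VV κ ν hκ hν hnd c
    rw [flow1_apply]
    have h : ∀ s ∈ Icc (0:ℝ) 1, HasDerivAt
        (fun s => (yy (VV κ ν c) hV hb p s).1 - c * s) 0 s := by
      intro s hs
      have h1 := hasDerivAt_yy (VV κ ν c) hV hb hs p
      have h2 : HasDerivAt (fun s => (yy (VV κ ν c) hV hb p s).1) c s :=
        (ContinuousLinearMap.fst ℝ ℝ E).hasFDerivAt.comp_hasDerivAt s h1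
      have h3 := h2.sub ((hasDerivAt_id s).const_mul c)
      rw [mul_one, sub_self] at h3
      exact h3
    have h4 := eq_of_hasDerivAt_zero h
    rw [yy_zero] at h4
    linarith
  fix p hp := by
    have h := flow1_of_curve (VV κ ν c) (contDiff_VV κ ν hκ hν hnd c) hb p
      (fun s => (p.1 + c * s, p.2)) (by simp) (fun s hs => by
        have h1 : HasDerivAt (fun s => p.1 + c * s) c s := by
          simpa using ((hasDerivAt_id s).const_mul c).const_add p.1
        have h2 := h1.prodMk (hasDerivAt_const s p.2)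
        have h3 : VV κ ν c (p.1 + c * s, p.2) = (c, 0) := by
          simp [VV, XX, hS _ hp]
        rw [h3]; exact h2)
    rw [h]
  inv p a b := by
    set hV := contDiff_VV κ ν hκ hν hnd c
    rw [flow1_apply, fderiv_flow1, fderiv_flow1]
    -- the first component of the derivative vanishes
    have hz : ∀ (a : E), ∀ s ∈ Icc (0:ℝ) 1, (zz (VV κ ν c) hV hb p (0, a) s).1 = 0 := by
      intro a s hs
      have hcst := constant_of_has_deriv_right_zero
        (f := fun r => (zz (VV κ ν c) hV hb p (0, a) r).1) (a := 0) (b := 1)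
        (fun r hr => by
          have h1 := hasDerivAt_zz (VV κ ν c) hV hb hr p (0, a)
          exact ((ContinuousLinearMap.fst ℝ ℝ E).hasFDerivAt.comp_hasDerivAt r
            h1).continuousAt.continuousWithinAt)
        (fun r hr => by
          have h1 := hasDerivAt_zz (VV κ ν c) hV hb ⟨hr.1, hr.2.le⟩ p (0, a)
          have h2 := (ContinuousLinearMap.fst ℝ ℝ E).hasFDerivAt.comp_hasDerivAt r h1
          rw [fderiv_VV κ ν hκ hν hnd] at h2
          exact h2.hasDerivWithinAt) s hs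
      rw [hcst, zz_zero]
    have hcon := eq_of_hasDerivAt_zero (f := fun s => kk κ ν (yy (VV κ ν c) hV hb p s)
      (zz (VV κ ν c) hV hb p (0, a) s).2 (zz (VV κ ν c) hV hb p (0, b) s).2) (fun s hs => by
        have h1 := hasDerivAt_yy (VV κ ν c) hV hb hs p
        have ha := hasDerivAt_zz (VV κ ν c) hV hb hs p (0, a)
        have hb' := hasDerivAt_zz (VV κ ν c) hV hb hs p (0, b)
        have ha2 := (ContinuousLinearMap.snd ℝ ℝ E).hasFDerivAt.comp_hasDerivAt s ha
        have hb2 := (ContinuousLinearMap.snd ℝ ℝ E).hasFDerivAt.comp_hasDerivAt s hb'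
        have hk : HasFDerivAt (kk κ ν) (fderiv ℝ (kk κ ν) (yy (VV κ ν c) hV hb p s))
            (yy (VV κ ν c) hV hb p s) :=
          ((contDiff_kk κ ν hκ hν).differentiable (by simp) _).hasFDerivAt
        have hk2 := comp_hasDerivAt' (G := E →L[ℝ] E →L[ℝ] ℝ) hk h1
        have h5 := (hk2.clm_apply ha2).clm_apply hb2
        have ea : zz (VV κ ν c) hV hb p (0, a) s
            = (0, (zz (VV κ ν c) hV hb p (0, a) s).2) := Prod.ext (hz a s hs) rfl
        have eb : zz (VV κ ν c) hV hb p (0, b) s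
            = (0, (zz (VV κ ν c) hV hb p (0, b) s).2) := Prod.ext (hz b s hs) rfl
        have hlie := lie_zero κ ν hκ hν hnd (yy (VV κ ν c) hV hb p s) c
          (zz (VV κ ν c) hV hb p (0, a) s).2 (zz (VV κ ν c) hV hb p (0, b) s).2
        rw [← ea, ← eb] at hlie
        simp only [fderiv_VV κ ν hκ hν hnd, ContinuousLinearMap.coe_snd', Function.comp_apply,
          add_apply] at h5
        exact h5.congr_deriv hlie)
    simp only [yy_zero, zz_zero] at hcon
    exact hcon

end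

/-- **Moser's theorem** for a linear path. -/
theorem moser {κ : E → B2 E} {ν : E → E →L[ℝ] ℝ} (hκ : Symp κ) (hν : ContDiff ℝ ∞ ν)
    (hnd : ∀ s ∈ Icc (0:ℝ) 1, ∀ x, Nondeg (κ x + s • dd ν x)) {S : Set E} (hS : IsCompact S)
    (hsupp : ∀ x ∉ S, ν x = 0) :
    ∃ f : Dif E, (∀ x ∉ S, f x = x) ∧ pb f (fun x => κ x + dd ν x) = κ := by
  -- bound for the derivative of the field
  have hX := contDiff_XX κ ν hκ hν hnd
  have hcomp : HasCompactSupport (XX κ ν) := by
    refine HasCompactSupport.of_support_subset_isCompact (isCompact_Icc.prod hS)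
      (K := Icc (0:ℝ) 1 ×ˢ S) ?_
    intro p hp
    by_contra hn
    apply hp
    rw [mem_prod, not_and_or] at hn
    unfold XX
    rcases hn with h | h
    · rw [deriv_st_of_notMem h]; simp
    · rw [hsupp _ h]; simp
  obtain ⟨C, hC⟩ := (hX.continuous_fderiv (by simp)).bounded_above_of_compact_support
    (hcomp.fderiv ℝ)
  obtain ⟨m, hm⟩ := exists_nat_gt (2 * C)
  have hm0 : (0:ℝ) < m := by
    have : 0 ≤ C := (norm_nonneg _).trans (hC (0, 0))
    linarith
  set c : ℝ := 1 / m with hc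
  have hc0 : 0 < c := by positivity
  have hb : ∀ p, ‖fderiv ℝ (VV κ ν c) p‖ ≤ 1 / 2 := by
    intro p
    refine ContinuousLinearMap.opNorm_le_bound _ (by norm_num) fun ζ => ?_
    rw [fderiv_VV κ ν hκ hν hnd, Prod.norm_def]
    simp only [norm_zero, norm_smul, Real.norm_of_nonneg hc0.le]
    refine max_le (by positivity) ?_
    calc c * ‖fderiv ℝ (XX κ ν) p ζ‖ ≤ c * (C * ‖ζ‖) := by
          gcongr
          exact (ContinuousLinearMap.le_opNorm _ _).trans (by gcongr; exact hC p)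
      _ = (C / m) * ‖ζ‖ := by rw [hc]; ring
      _ ≤ 1 / 2 * ‖ζ‖ := by
          have : C / m ≤ 1 / 2 := by rw [div_le_iff₀ hm0]; linarith
          exact mul_le_mul_of_nonneg_right this (norm_nonneg _)
  set Φ := flow1 (VV κ ν c) (contDiff_VV κ ν hκ hν hnd c) hb with hΦ
  have hstep : MGood κ ν S Φ c := mgood_step κ ν hκ hν hnd hsupp c hb
  have hit : ∀ j : ℕ, ∃ G : Dif (ℝ × E), MGood κ ν S G (j * c) := by
    intro j
    induction j with
    | zero =>
      refine ⟨Dif.refl _, ⟨fun p => by simp, fun p _ => rfl, fun p a b => ?_⟩⟩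
      have : fderiv ℝ (Dif.refl (ℝ × E)) p = ContinuousLinearMap.id ℝ _ := fderiv_id
      rw [this]; rfl
    | succ j ih =>
      obtain ⟨G, hG⟩ := ih
      refine ⟨G.trans Φ, ?_⟩
      have := hG.trans κ ν hstep
      convert this using 1
      push_cast; ring
  obtain ⟨G, hG⟩ := hit m
  have hmc : (m : ℝ) * c = 1 := by rw [hc]; field_simp
  rw [hmc] at hG
  -- extract the map of `E`
  have hG1 : ∀ x, (G (0, x)).1 = 1 := fun x => by rw [hG.fst]; simp
  have hG2 : ∀ x, (G.symm (1, x)).1 = 0 := fun x => by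
    have := hG.fst (G.symm (1, x))
    rw [Dif.apply_symm_apply] at this
    simp only at this
    linarith
  have l1 : ∀ x, (G.symm (1, (G (0, x)).2)).2 = x := by
    intro x
    have : ((1:ℝ), (G (0, x)).2) = G (0, x) := Prod.ext (hG1 x).symm rfl
    rw [this, Dif.symm_apply_apply]
  have l2 : ∀ x, (G (0, (G.symm (1, x)).2)).2 = x := by
    intro x
    have : ((0:ℝ), (G.symm (1, x)).2) = G.symm (1, x) := Prod.ext (hG2 x).symm rfl
    rw [this, Dif.apply_symm_apply]
  let f : Dif E := Dif.mk' (fun x => (G (0, x)).2) (fun x => (G.symm (1, x)).2)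
    (contDiff_snd.comp (G.contDiff.comp (contDiff_const.prodMk contDiff_id)))
    (contDiff_snd.comp (G.symm.contDiff.comp (contDiff_const.prodMk contDiff_id))) l1 l2
  refine ⟨f, ?_, ?_⟩
  · intro x hx
    exact hG.fix (0, x) hx
  · funext x
    ext a b
    have hd : HasFDerivAt (fun x => (G (0, x)).2) ((ContinuousLinearMap.snd ℝ ℝ E).comp
        ((fderiv ℝ G (0, x)).comp (ContinuousLinearMap.inr ℝ ℝ E))) x := by
      have h1 : HasFDerivAt (fun x : E => ((0:ℝ), x)) (ContinuousLinearMap.inr ℝ ℝ E) x :=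
        (ContinuousLinearMap.inr ℝ ℝ E).hasFDerivAt
      exact hasFDerivAt_snd.comp x ((G.hasFDerivAt (0, x)).comp x h1)
    have hfd : fderiv ℝ f x = _ := hd.fderiv
    rw [pb_apply, hfd]
    have hinv := hG.inv (0, x) a b
    have e1 : kk κ ν (0, x) = κ x := by
      ext v w
      simp [kk, st, Real.smoothTransition.zero]
    have e2 : kk κ ν (G (0, x)) = κ (G (0, x)).2 + dd ν (G (0, x)).2 := by
      unfold kk
      rw [hG1, show st 1 = 1 from Real.smoothTransition.one, one_smul]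
    rw [e1, e2] at hinv
    exact hinv

end Pool.Agent.H60.Sy
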