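import Pool.Agent.H60.Sy.Path
import Pool.Agent.H60.Sy.Lins

/-!
[H60 SY MOVE] Moving a small linear insertion along a path of base points and frames.

Statement to prove (keep it): `move`.

Let `κ₁` be symplectic, `(p t, B t)` a continuous path with `om0 (B t v) (B t w) = κ₁ (p t) v w`.
Let `C` be as in `exists_inv_bound` (with `A = om0 n`, `k t = κ₁ (p t)`), `P` a bound of `‖p t‖`.

Claim: there is `s₁ ∈ (0,1]` such that for `0 < s ≤ s₁`, `t ∈ [0,1]` and all `y` the form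
`κ₁ y + lins η (p t) (B t) s y` is nondegenerate. Proof: put `z = s⁻¹ • B t (y - p t)`. If `z` is not in
`closedBall 0 r` the form is `κ₁ y`. Otherwise `u := s⁻¹ • (y - p t)` has `‖u‖ ≤ C r` (as `‖u‖ ≤ C ‖B t u‖ = C ‖z‖`)
and the form is `Φ(s,t,u) := κ₁ (p t + s • u) + (η (B t u)).bilinearComp (B t) (B t)`. `Φ` is continuous on
`[0,1] × [0,1] × closedBall 0 (C r)` (compact), and at `s = 0` it is `κ₁ (p t) + B t^* η(B t u) =
B t^*(om0 + η(B t u))`, nondegenerate by `nondeg_bilinearComp` (`B t` injective by the bound). The set of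
nondegenerate forms is open, so by the tube lemma (or a compactness/contradiction argument:
`IsCompact` of the set where `Φ(s,t,u)` is degenerate; its projection to `s` is compact and does not
contain `0`) there is `s₁`.

Then `mov_path` with `κ t y = κ₁ y + lins η (p t) (B t) s y` and the cube `closedBall 0 (P + C r)` (off which the
insertion vanishes since `s ≤ 1`: `‖y - p t‖ ≤ C ‖B t (y - p t)‖ ≤ C s r`). `Symp` of these forms: `hκ₁.fo.add (fo_lins ..)`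
and `Fo.symp`. Continuity: `continuousOn_lins`. (If `r < 0` the insertion vanishes identically.)
-/

set_option autoImplicit false
set_option linter.unusedSectionVars false

open scoped ContDiff Topology
open Set Metric

namespace Pool.Agent.H60.Sy

private theorem move_addc {X G : Type} [TopologicalSpace X] [NormedAddCommGroup G]
    {f g : X → G} {S : Set X} (hf : ContinuousOn f S) (hg : ContinuousOn g S) :
    ContinuousOn (fun q => f q + g q) S := hf.add hg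

private theorem move_nd {n : ℕ} {κ₁ : EE n → B2 (EE n)} (hκ₁ : Symp κ₁)
    {η : EE n → B2 (EE n)} (hη : Continuous η) {ρ : ℝ}
    (hnd : ∀ x, Nondeg (om0 n + η x)) {p : ℝ → EE n} {B : ℝ → (EE n →L[ℝ] EE n)}
    (hp : ContinuousOn p (Icc 0 1)) (hB : ContinuousOn B (Icc 0 1))
    (hpB : ∀ t ∈ Icc (0:ℝ) 1, ∀ v w, om0 n (B t v) (B t w) = κ₁ (p t) v w)
    (hinj : ∀ t ∈ Icc (0:ℝ) 1, Function.Injective (B t)) :
    ∃ s₁ : ℝ, 0 < s₁ ∧ s₁ ≤ 1 ∧ ∀ s, 0 < s → s ≤ s₁ → ∀ t ∈ Icc (0:ℝ) 1,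
      ∀ u ∈ closedBall (0 : EE n) ρ,
        Nondeg (κ₁ (p t + s • u) + (η (B t u)).bilinearComp (B t) (B t)) := by
  set K : Set (ℝ × EE n) := Icc (0:ℝ) 1 ×ˢ closedBall (0 : EE n) ρ with hK
  have hKc : IsCompact K := isCompact_Icc.prod (isCompact_closedBall 0 ρ)
  set Φ : ℝ × (ℝ × EE n) → B2 (EE n) := fun q =>
    κ₁ (p q.2.1 + q.1 • q.2.2) + (η (B q.2.1 q.2.2)).bilinearComp (B q.2.1) (B q.2.1) with hΦ
  have hcpt : IsCompact (Icc (0:ℝ) 1 ×ˢ K) := isCompact_Icc.prod hKc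
  have hcont : ContinuousOn Φ (Icc (0:ℝ) 1 ×ˢ K) := by
    have h1 : ContinuousOn (fun q : ℝ × (ℝ × EE n) => p q.2.1) (Icc (0:ℝ) 1 ×ˢ K) :=
      hp.comp (by fun_prop) (fun q hq => hq.2.1)
    have h2 : ContinuousOn (fun q : ℝ × (ℝ × EE n) => B q.2.1) (Icc (0:ℝ) 1 ×ˢ K) :=
      hB.comp (by fun_prop) (fun q hq => hq.2.1)
    have h3 : ContinuousOn (fun q : ℝ × (ℝ × EE n) => q.2.2) (Icc (0:ℝ) 1 ×ˢ K) := by fun_prop
    have h4 : ContinuousOn (fun q : ℝ × (ℝ × EE n) => q.1 • q.2.2) (Icc (0:ℝ) 1 ×ˢ K) := by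
      fun_prop
    have h5 : ContinuousOn (fun q : ℝ × (ℝ × EE n) => κ₁ (p q.2.1 + q.1 • q.2.2))
        (Icc (0:ℝ) 1 ×ˢ K) := hκ₁.sm.continuous.comp_continuousOn (h1.add h4)
    have h6 : ContinuousOn (fun q : ℝ × (ℝ × EE n) => η (B q.2.1 q.2.2))
        (Icc (0:ℝ) 1 ×ˢ K) := hη.comp_continuousOn (h2.clm_apply h3)
    exact move_addc (G := EE n →L[ℝ] EE n →L[ℝ] ℝ) h5 (lins_bc_continuousOn h6 h2)
  have h0 : ∀ q ∈ K, Nondeg (Φ (0, q)) := by
    rintro ⟨t, u⟩ hq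
    have e : Φ (0, (t, u)) = (om0 n + η (B t u)).bilinearComp (B t) (B t) := by
      refine ContinuousLinearMap.ext fun v => ContinuousLinearMap.ext fun w => ?_
      show κ₁ (p t + (0:ℝ) • u) v w + η (B t u) (B t v) (B t w) =
        om0 n (B t v) (B t w) + η (B t u) (B t v) (B t w)
      rw [zero_smul, add_zero, hpB t hq.1]
    rw [e]
    exact nondeg_bilinearComp (hnd _) (hinj t hq.1)
  have hc0 : ContinuousOn (fun q : ℝ × EE n => Φ (0, q)) K := by
    refine hcont.comp (by fun_prop) ?_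
    intro q hq
    exact ⟨⟨le_rfl, zero_le_one⟩, hq⟩
  obtain ⟨ε, hε, hnd2⟩ := exists_nondeg_of_compact (hKc.image_of_continuousOn hc0) (by
    rintro A ⟨q, hq, rfl⟩
    exact h0 q hq)
  have huc : UniformContinuousOn Φ (Icc (0:ℝ) 1 ×ˢ K) :=
    IsCompact.uniformContinuousOn_of_continuous hcpt hcont
  have huc2 := (Metric.uniformContinuousOn_iff (α := ℝ × (ℝ × EE n))
    (β := EE n →L[ℝ] EE n →L[ℝ] ℝ)).1 huc
  obtain ⟨δ, hδ, hd⟩ := huc2 ε hε
  refine ⟨min 1 (δ / 2), lt_min one_pos (half_pos hδ), min_le_left _ _, ?_⟩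
  intro s hs0 hs1 t ht u hu
  have hs2 : s ≤ 1 := hs1.trans (min_le_left _ _)
  have hs3 : s < δ := (hs1.trans (min_le_right _ _)).trans_lt (half_lt_self hδ)
  refine hnd2 (Φ (0, (t, u))) ⟨(t, u), ⟨ht, hu⟩, rfl⟩ (Φ (s, (t, u))) ?_
  refine hd (s, (t, u)) ⟨⟨hs0.le, hs2⟩, ⟨ht, hu⟩⟩ (0, (t, u)) ⟨⟨le_rfl, zero_le_one⟩, ⟨ht, hu⟩⟩ ?_
  rw [Prod.dist_eq, dist_self]
  refine max_lt ?_ hδ
  rw [Real.dist_eq, sub_zero, abs_of_pos hs0]
  exact hs3

theorem move {n : ℕ} (hn : 2 ≤ n) {κ₁ : EE n → B2 (EE n)} (hκ₁ : Symp κ₁)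
    {η : EE n → B2 (EE n)} (hη : Fo η) {r : ℝ} (hr : ∀ x ∉ closedBall (0 : EE n) r, η x = 0)
    (hnd : ∀ x, Nondeg (om0 n + η x)) {p : ℝ → EE n} {B : ℝ → (EE n →L[ℝ] EE n)}
    (hp : ContinuousOn p (Icc 0 1)) (hB : ContinuousOn B (Icc 0 1))
    (hpB : ∀ t ∈ Icc (0:ℝ) 1, ∀ v w, om0 n (B t v) (B t w) = κ₁ (p t) v w) :
    ∃ s₁ : ℝ, 0 < s₁ ∧ s₁ ≤ 1 ∧ ∀ s, 0 < s → s ≤ s₁ → ∃ R : ℝ,
      Mov (closedBall 0 R) (fun y => κ₁ y + lins η (p 0) (B 0) s y)
        (fun y => κ₁ y + lins η (p 1) (B 1) s y) := by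
  obtain ⟨C, hC, hCb⟩ := exists_inv_bound (A := om0 n) (k := fun t => κ₁ (p t))
    (fun t _ => hκ₁.nondeg (p t)) hB hpB
  obtain ⟨P, hP⟩ := isCompact_Icc.exists_bound_of_continuousOn hp
  -- a nonnegative radius
  set r' : ℝ := max r 0 with hr'
  have hr0 : 0 ≤ r' := le_max_right _ _
  have hrr : ∀ x ∉ closedBall (0 : EE n) r', η x = 0 := by
    intro x hx
    exact hr x (fun h => hx (closedBall_subset_closedBall (le_max_left _ _) h))
  have hinj : ∀ t ∈ Icc (0:ℝ) 1, Function.Injective (B t) := by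
    intro t ht
    rw [injective_iff_map_eq_zero]
    intro v hv
    have h := hCb t ht v
    rw [hv, norm_zero, mul_zero] at h
    exact norm_le_zero_iff.mp h
  obtain ⟨s₁, hs1, hs2, hnd1⟩ := move_nd (ρ := C * r') hκ₁ hη.sm.continuous hnd hp hB hpB hinj
  refine ⟨s₁, hs1, hs2, fun s hs hss => ⟨P + C * r', ?_⟩⟩
  have hne : s ≠ 0 := hs.ne'
  have hsle : s ≤ 1 := hss.trans hs2
  have hnondeg : ∀ t ∈ Icc (0:ℝ) 1, ∀ y, Nondeg (κ₁ y + lins η (p t) (B t) s y) := by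
    intro t ht y
    by_cases hz : s⁻¹ • B t (y - p t) ∈ closedBall (0 : EE n) r'
    · have hu1 : B t (s⁻¹ • (y - p t)) = s⁻¹ • B t (y - p t) := map_smul _ _ _
      have hu : s⁻¹ • (y - p t) ∈ closedBall (0 : EE n) (C * r') := by
        rw [mem_closedBall_zero_iff] at hz ⊢
        have h := hCb t ht (s⁻¹ • (y - p t))
        rw [hu1] at h
        exact h.trans (mul_le_mul_of_nonneg_left hz hC.le)
      have h := hnd1 s hs hss t ht _ hu
      have e1 : p t + s • (s⁻¹ • (y - p t)) = y := by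
        rw [smul_smul, mul_inv_cancel₀ hne, one_smul]
        exact add_sub_cancel (p t) y
      rw [e1, hu1] at h
      exact h
    · rw [lins_eq_zero hrr hz]
      have e : κ₁ y + (0 : B2 (EE n)) = κ₁ y := by
        refine ContinuousLinearMap.ext fun v => ContinuousLinearMap.ext fun w => ?_
        show κ₁ y v w + 0 = κ₁ y v w
        rw [add_zero]
      rw [e]
      exact hκ₁.nondeg y
  have hfar : ∀ t ∈ Icc (0:ℝ) 1, ∀ x ∉ closedBall (0 : EE n) (P + C * r'),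
      lins η (p t) (B t) s x = 0 := by
    intro t ht x hx
    refine lins_eq_zero hrr ?_
    intro hz
    apply hx
    rw [mem_closedBall_zero_iff] at hz ⊢
    rw [norm_smul, norm_inv, Real.norm_eq_abs, abs_of_pos hs] at hz
    have h1 : ‖B t (x - p t)‖ ≤ s * r' := by
      rw [inv_mul_eq_div, div_le_iff₀ hs] at hz
      rw [mul_comm]
      exact hz
    have h2 : ‖x - p t‖ ≤ C * r' := by
      calc ‖x - p t‖ ≤ C * ‖B t (x - p t)‖ := hCb t ht _
        _ ≤ C * (s * r') := mul_le_mul_of_nonneg_left h1 hC.le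
        _ ≤ C * (1 * r') := by
            refine mul_le_mul_of_nonneg_left ?_ hC.le
            exact mul_le_mul_of_nonneg_right hsle hr0
        _ = C * r' := by rw [one_mul]
    calc ‖x‖ = ‖p t + (x - p t)‖ := by rw [add_sub_cancel]
      _ ≤ ‖p t‖ + ‖x - p t‖ := norm_add_le _ _
      _ ≤ P + C * r' := add_le_add (hP t ht) h2
  refine mov_path hn (fun t y => κ₁ y + lins η (p t) (B t) s y) ?_ ?_ ?_
  · intro t ht
    exact (hκ₁.fo.add (fo_lins hη (p t) (B t) hne)).symp (hnondeg t ht)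
  · have h1 : ContinuousOn (fun q : ℝ × EE n => κ₁ q.2) (Icc (0:ℝ) 1 ×ˢ univ) :=
      hκ₁.sm.continuous.comp_continuousOn continuousOn_snd
    have h2 : ContinuousOn (fun q : ℝ × EE n => (((p q.1, B q.1, s), q.2) :
        (EE n × (EE n →L[ℝ] EE n) × ℝ) × EE n)) (Icc (0:ℝ) 1 ×ˢ univ) := by
      have h3 : ContinuousOn (fun q : ℝ × EE n => p q.1) (Icc (0:ℝ) 1 ×ˢ univ) :=
        hp.comp continuousOn_fst (fun q hq => hq.1)
      have h4 : ContinuousOn (fun q : ℝ × EE n => B q.1) (Icc (0:ℝ) 1 ×ˢ univ) :=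
        hB.comp continuousOn_fst (fun q hq => hq.1)
      exact (h3.prodMk (h4.prodMk continuousOn_const)).prodMk continuousOn_snd
    have h5 := (continuousOn_lins hη.sm.continuous).comp h2 (fun q _ => hne)
    exact move_addc (G := EE n →L[ℝ] EE n →L[ℝ] ℝ) h1 h5
  · intro t ht x hx
    show κ₁ x + lins η (p t) (B t) s x = κ₁ x + lins η (p 0) (B 0) s x
    rw [hfar t ht x hx, hfar 0 ⟨le_rfl, zero_le_one⟩ x hx]

end Pool.Agent.H60.Sy
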