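import Mathlib

/-! Smoothness of the composition operator `γ ↦ f ∘ γ` on `C(X, E)`. -/

set_option autoImplicit false
set_option linter.unusedSectionVars false

open scoped ContDiff Topology

namespace Pool.Agent.H60.Sy

variable {X : Type} [TopologicalSpace X] [CompactSpace X]
variable {E G : Type} [NormedAddCommGroup E] [NormedSpace ℝ E]
  [NormedAddCommGroup G] [NormedSpace ℝ G]

/-- The composition operator. -/
noncomputable def nem (f : E → G) (hf : Continuous f) (γ : C(X, E)) : C(X, G) :=
  ⟨fun x => f (γ x), hf.comp γ.continuous⟩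

@[simp] theorem nem_apply (f : E → G) (hf : Continuous f) (γ : C(X, E)) (x : X) :
    nem f hf γ x = f (γ x) := rfl

/-- Pointwise pairing of operators and vectors. -/
noncomputable def pair : C(X, E →L[ℝ] G) →L[ℝ] C(X, E) →L[ℝ] C(X, G) :=
  LinearMap.mkContinuous₂
    (LinearMap.mk₂ ℝ (fun (A : C(X, E →L[ℝ] G)) (η : C(X, E)) =>
      (⟨fun x => A x (η x), by fun_prop⟩ : C(X, G)))
      (fun A B η => by ext x; simp)
      (fun c A η => by ext x; simp)
      (fun A η ξ => by ext x; simp)
      (fun c A η => by ext x; simp)) 1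
    (fun A η => by
      rw [one_mul]
      refine (ContinuousMap.norm_le _ (by positivity)).2 fun x => ?_
      calc ‖(A x) (η x)‖ ≤ ‖A x‖ * ‖η x‖ := (A x).le_opNorm _
        _ ≤ ‖A‖ * ‖η‖ := by
          gcongr
          · exact A.norm_coe_le_norm x
          · exact η.norm_coe_le_norm x)

@[simp] theorem pair_apply (A : C(X, E →L[ℝ] G)) (η : C(X, E)) (x : X) :
    pair A η x = A x (η x) := rfl

theorem norm_pair_le (A : C(X, E →L[ℝ] G)) : ‖pair (X := X) A‖ ≤ ‖A‖ := by
  refine ContinuousLinearMap.opNorm_le_bound _ (norm_nonneg A) fun η => ?_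
  refine (ContinuousMap.norm_le _ (by positivity)).2 fun x => ?_
  calc ‖(A x) (η x)‖ ≤ ‖A x‖ * ‖η x‖ := (A x).le_opNorm _
    _ ≤ ‖A‖ * ‖η‖ := by
      gcongr
      · exact A.norm_coe_le_norm x
      · exact η.norm_coe_le_norm x

theorem hasFDerivAt_nem (f : E → G) (hf : ContDiff ℝ 1 f) (γ : C(X, E)) :
    HasFDerivAt (nem (X := X) f hf.continuous)
      (pair (nem (fderiv ℝ f) (hf.continuous_fderiv one_ne_zero) γ)) γ := by
  rw [hasFDerivAt_iff_isLittleO_nhds_zero, Asymptotics.isLittleO_iff]
  intro ε hε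
  have hK : IsCompact (Set.range γ) := isCompact_range γ.continuous
  have hcont : Continuous (fderiv ℝ f) := hf.continuous_fderiv one_ne_zero
  -- uniform continuity of the derivative near the compact set
  have hU : ∃ δ > 0, ∀ y ∈ Set.range γ, ∀ z, dist z y < δ →
      dist (fderiv ℝ f z) (fderiv ℝ f y) < ε := by
    have h := hK.uniformContinuousAt_of_continuousAt (fderiv ℝ f)
      (fun y _ => hcont.continuousAt) (r := {p | dist p.1 p.2 < ε}) (Metric.dist_mem_uniformity hε)
    rw [Metric.mem_uniformity_dist] at h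
    obtain ⟨δ, hδ, h⟩ := h
    refine ⟨δ, hδ, fun y hy z hz => ?_⟩
    have := h (a := y) (b := z) (by rwa [dist_comm]) hy
    rw [dist_comm]
    exact this
  obtain ⟨δ, hδ, hU⟩ := hU
  filter_upwards [Metric.ball_mem_nhds (0 : C(X, E)) hδ] with η hη
  rw [mem_ball_zero_iff] at hη
  refine (ContinuousMap.norm_le _ (by positivity)).2 fun x => ?_
  simp only [ContinuousMap.sub_apply, nem_apply, pair_apply, ContinuousMap.add_apply]
  have hx : ‖η x‖ < δ := lt_of_le_of_lt (η.norm_coe_le_norm x) hη
  have hconv : Convex ℝ (Metric.ball (γ x) δ) := convex_ball _ _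
  have key := hconv.norm_image_sub_le_of_norm_hasFDerivWithin_le' (𝕜 := ℝ) (f := f)
    (f' := fderiv ℝ f) (φ := fderiv ℝ f (γ x)) (C := ε) (x := γ x) (y := γ x + η x)
    (fun z _ => ((hf.differentiable one_ne_zero) z).hasFDerivAt.hasFDerivWithinAt)
    (fun z hz => by
      have := hU (γ x) ⟨x, rfl⟩ z hz
      rw [dist_eq_norm] at this
      exact this.le)
    (Metric.mem_ball_self hδ)
    (by rw [Metric.mem_ball, dist_eq_norm]; simpa using hx)
  rw [add_sub_cancel_left] at key
  calc _ ≤ ε * ‖η x‖ := key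
    _ ≤ ε * ‖η‖ := by gcongr; exact η.norm_coe_le_norm x

theorem contDiff_nem_nat (n : ℕ) : ∀ {G : Type} [NormedAddCommGroup G] [NormedSpace ℝ G]
    (f : E → G) (hc : Continuous f) (_ : ContDiff ℝ n f), ContDiff ℝ n (nem (X := X) f hc) := by
  induction n with
  | zero =>
    intro G _ _ f hc _
    rw [Nat.cast_zero, contDiff_zero]
    have : nem (X := X) f hc
        = fun γ => (ContinuousMap.mk f hc).comp γ := by
      funext γ; rfl
    rw [this]
    exact ContinuousMap.continuous_postcomp _
  | succ n ih =>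
    intro G _ _ f hc hf
    have hf1 : ContDiff ℝ 1 f := hf.of_le (by simp)
    have hfd : ContDiff ℝ n (fderiv ℝ f) := hf.fderiv_right (by simp)
    rw [Nat.cast_add, Nat.cast_one]
    rw [contDiff_succ_iff_hasFDerivAt]
    refine ⟨fun γ => pair (nem (fderiv ℝ f) (hf1.continuous_fderiv one_ne_zero) γ), ?_, ?_⟩
    · exact (pair (X := X)).contDiff.comp (ih (fderiv ℝ f) _ hfd)
    · intro γ
      exact hasFDerivAt_nem f hf1 γ

theorem contDiff_nem (f : E → G) (hc : Continuous f) (hf : ContDiff ℝ ∞ f) :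
    ContDiff ℝ ∞ (nem (X := X) f hc) := by
  rw [contDiff_infty]
  intro n
  exact contDiff_nem_nat n f hc (hf.of_le (by exact_mod_cast le_top))

end Pool.Agent.H60.Sy
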