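import Pool.Agent.H60.Sy.Tmov

/-!
[H60 SY PAIR] The complement may sit far away on either side in the first coordinate direction.

Let `e₁ = (Pi.single i0 1, 0)`, `i0 = ⟨0, _⟩`, a unit vector.

Statement to prove (keep it): `pairs`.

Proof. `‖c‖ > 2 ρ` is the absolute value of some coordinate `k` of `c` (`k` among the `2 n` coordinates of
`EE n`). Choose a coordinate vector `f` (unit vector in one of the `2 n ≥ 4` coordinate directions)
different from `e₁` and from the direction `k`. Let `T = ‖c‖ + 2 |ρ| + 1`, `σ = ±1`. Path from `c` to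
`σ L e₁` in three segments: `c → c + T f → c + T f + σ L e₁ → σ L e₁`.
 1st: the coordinate `k` has constant absolute value `‖c‖ > 2 ρ`.
 2nd: the `f`-coordinate is `c_f + T`, at least `T - ‖c‖ > 2 ρ`.
 3rd: the `e₁`-coordinate of `σ L e₁ + (1-t) (c + T f)` is at least `L - ‖c‖ > 2 ρ` in absolute value if
 `L > ‖c‖ + 2 |ρ|`.
All points `q` on the path satisfy `‖q - (σ L/2) e₁‖ ≤ L/2 + ‖c‖ + T`. So with
`ρ₁ = max |R| (‖c‖ + T + |ρ|)` all `closedBall q ρ` and `closedBall 0 ρ` and `closedBall 0 R` are inside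
`closedBall (σ (L/2) e₁) (L/2 + ρ₁)`. Combine `hM` (with `Mov.mono`) and three times `tmov` by `Mov.trans`.
(`2 ≤ n`: to choose `f` it is convenient to distinguish: if `k` is not the coordinate `(Pi.single i1 1, 0)`,
`i1 = ⟨1, _⟩`, take `f = (Pi.single i1 1, 0)`, otherwise `f = (0, Pi.single i0 1)`.)
-/

set_option autoImplicit false
set_option linter.unusedSectionVars false

open scoped ContDiff Topology
open Set Metric

namespace Pool.Agent.H60.Sy

/-- first coordinate vector -/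
noncomputable def e1 {n : ℕ} (hn : 2 ≤ n) : EE n := (Pi.single ⟨0, by omega⟩ 1, 0)

theorem pair_sub {E : Type} [NormedAddCommGroup E] {q z : E} {r s : ℝ}
    (h : ‖q - z‖ + r ≤ s) : closedBall q r ⊆ closedBall z s := by
  intro x hx
  rw [mem_closedBall, dist_eq_norm] at hx ⊢
  have h1 : x - z = (x - q) + (q - z) := by abel
  rw [h1]
  have h2 := norm_add_le (x - q) (q - z)
  linarith

/-- the abstract form: functionals `κ`, `φ`, `ε` and vectors `f`, `e` -/
theorem pair_abs {n : ℕ} (hn : 2 ≤ n) {η η₂ : EE n → B2 (EE n)} (hη : Fo η) (hη₂ : Fo η₂)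
    (hnd : ∀ x, Nondeg (om0 n + η x)) (hnd₂ : ∀ x, Nondeg (om0 n + η₂ x)) {ρ : ℝ}
    (h1 : ∀ x ∉ closedBall (0 : EE n) ρ, η x = 0) (h2 : ∀ x ∉ closedBall (0 : EE n) ρ, η₂ x = 0)
    {c : EE n} {R : ℝ}
    (hM : Mov (closedBall 0 R) (fun _ => om0 n) (fun x => om0 n + η x + η₂ (x - c)))
    {e f : EE n} (he : ‖e‖ ≤ 1) (hf : ‖f‖ ≤ 1) {κ φ ε : EE n →L[ℝ] ℝ}
    (bκ : ∀ v, |κ v| ≤ ‖v‖) (bφ : ∀ v, |φ v| ≤ ‖v‖) (bε : ∀ v, |ε v| ≤ ‖v‖)
    (hκc : 2 * ρ < |κ c|) (hκf : κ f = 0) (hφf : φ f = 1) (hφe : φ e = 0) (hεf : ε f = 0)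
    (hεe : ε e = 1) :
    ∃ L₀ ρ₁ : ℝ, ρ ≤ ρ₁ ∧ ∀ L, L₀ ≤ L → ∀ σ : ℝ, (σ = 1 ∨ σ = -1) →
      Mov (closedBall ((σ * (L / 2)) • e) (L / 2 + ρ₁)) (fun _ => om0 n)
        (fun x => om0 n + η x + η₂ (x - (σ * L) • e)) := by
  obtain ⟨T, hT⟩ : ∃ T : ℝ, T = ‖c‖ + 2 * |ρ| + 1 := ⟨_, rfl⟩
  have hρ := abs_nonneg ρ
  have hρ' := le_abs_self ρ
  have hc := norm_nonneg c
  have hT0 : 0 < T := by rw [hT]; positivity
  refine ⟨T, max |R| (‖c‖ + T + |ρ|), ?_, ?_⟩
  · refine le_trans ?_ (le_max_right _ _)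
    linarith
  intro L hL σ hσ
  have hL0 : 0 < L := lt_of_lt_of_le hT0 hL
  have hσ1 : |σ| = 1 := by
    rcases hσ with rfl | rfl
    · exact abs_one
    · rw [abs_neg, abs_one]
  obtain ⟨ρ₁, hρ₁⟩ : ∃ ρ₁ : ℝ, ρ₁ = max |R| (‖c‖ + T + |ρ|) := ⟨_, rfl⟩
  rw [← hρ₁]
  have hr1 : |R| ≤ ρ₁ := by rw [hρ₁]; exact le_max_left _ _
  have hr2 : ‖c‖ + T + |ρ| ≤ ρ₁ := by rw [hρ₁]; exact le_max_right _ _
  obtain ⟨z, hz⟩ : ∃ z : EE n, z = (σ * (L / 2)) • e := ⟨_, rfl⟩
  rw [← hz]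
  have hzn : ‖z‖ ≤ L / 2 := by
    rw [hz, norm_smul, Real.norm_eq_abs, abs_mul, hσ1, one_mul, abs_of_pos (by positivity)]
    nlinarith
  -- the first ball
  have hball : ∀ r : ℝ, r ≤ ρ₁ → closedBall (0 : EE n) r ⊆ closedBall z (L / 2 + ρ₁) := by
    intro r hr
    apply pair_sub
    rw [zero_sub, norm_neg]
    linarith
  have hM' := hM.mono (hball R ((le_abs_self R).trans hr1))
  have hR0 := hball ρ (by linarith)
  have hTf : ∀ t : ℝ, t ∈ Icc (0:ℝ) 1 → ‖(t * T) • f‖ ≤ T := by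
    intro t ht
    rw [norm_smul, Real.norm_eq_abs, abs_mul, abs_of_nonneg ht.1, abs_of_pos hT0]
    have h3 : t * T * ‖f‖ ≤ t * T * 1 :=
      mul_le_mul_of_nonneg_left hf (mul_nonneg ht.1 hT0.le)
    have h4 : t * T ≤ 1 * T := mul_le_mul_of_nonneg_right ht.2 hT0.le
    linarith
  -- first segment
  have s1 := tmov hn hη hη₂ hnd hnd₂ h1 h2 (a := c) (b := c + T • f) (c := z) (R := L / 2 + ρ₁)
    hR0 (by
      intro t _
      have e1 : κ (c + t • (c + T • f - c)) = κ c := by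
        simp only [map_add, map_smul, map_sub, hκf, smul_zero, smul_eq_mul]
        ring
      have := bκ (c + t • (c + T • f - c))
      rw [e1] at this
      linarith) (by
      intro t ht
      apply pair_sub
      have e1 : c + t • (c + T • f - c) - z = c + (t * T) • f - z := by
        rw [add_sub_cancel_left, smul_smul]
      rw [e1]
      have n1 := norm_sub_le (c + (t * T) • f) z
      have n2 := norm_add_le c ((t * T) • f)
      have n3 := hTf t ht
      linarith)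
  -- second segment
  have s2 := tmov hn hη hη₂ hnd hnd₂ h1 h2 (a := c + T • f) (b := c + T • f + (σ * L) • e)
    (c := z) (R := L / 2 + ρ₁) hR0 (by
      intro t _
      have e1 : φ (c + T • f + t • (c + T • f + (σ * L) • e - (c + T • f))) = φ c + T := by
        simp only [map_add, map_smul, map_sub, hφf, hφe, smul_eq_mul]
        ring
      have b1 := bφ (c + T • f + t • (c + T • f + (σ * L) • e - (c + T • f)))
      rw [e1] at b1
      have b2 := bφ c
      have b3 := neg_abs_le (φ c)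
      have b4 := le_abs_self (φ c + T)
      linarith) (by
      intro t ht
      apply pair_sub
      have e1 : c + T • f + t • (c + T • f + (σ * L) • e - (c + T • f)) - z =
          c + ((1 : ℝ) * T) • f + (σ * (L * (t - 1 / 2))) • e := by
        rw [add_sub_cancel_left, smul_smul, hz, one_mul, add_sub_assoc, ← sub_smul]
        congr 2
        ring
      rw [e1]
      have n1 := norm_add_le (c + ((1 : ℝ) * T) • f) ((σ * (L * (t - 1 / 2))) • e)
      have n2 := norm_add_le c (((1 : ℝ) * T) • f)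
      have n3 := hTf 1 ⟨zero_le_one, le_rfl⟩
      have n4 : ‖(σ * (L * (t - 1 / 2))) • e‖ ≤ L / 2 := by
        rw [norm_smul, Real.norm_eq_abs, abs_mul, hσ1, one_mul, abs_mul, abs_of_pos hL0]
        have a1 : |t - 1 / 2| ≤ 1 / 2 := by
          rw [abs_le]
          constructor
          · linarith [ht.1]
          · linarith [ht.2]
        have a2 : 0 ≤ |t - 1 / 2| := abs_nonneg _
        calc L * |t - 1 / 2| * ‖e‖ ≤ L * |t - 1 / 2| * 1 :=
              mul_le_mul_of_nonneg_left he (by positivity)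
          _ ≤ L / 2 := by nlinarith
      linarith)
  -- third segment
  have s3 := tmov hn hη hη₂ hnd hnd₂ h1 h2 (a := c + T • f + (σ * L) • e) (b := (σ * L) • e)
    (c := z) (R := L / 2 + ρ₁) hR0 (by
      intro t ht
      have e1 : ε (c + T • f + (σ * L) • e + t • ((σ * L) • e - (c + T • f + (σ * L) • e))) =
          σ * L + (1 - t) * ε c := by
        simp only [map_add, map_smul, map_sub, hεf, hεe, smul_eq_mul]
        ring
      have b1 := bε (c + T • f + (σ * L) • e + t • ((σ * L) • e - (c + T • f + (σ * L) • e)))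
      rw [e1] at b1
      have b2 := bε c
      have b3 : |(1 - t) * ε c| ≤ ‖c‖ := by
        rw [abs_mul, abs_of_nonneg (by linarith [ht.2])]
        have : (1 - t) * |ε c| ≤ 1 * ‖c‖ :=
          mul_le_mul (by linarith [ht.1]) b2 (abs_nonneg _) zero_le_one
        linarith
      have b4 : |σ * L| = L := by rw [abs_mul, hσ1, one_mul, abs_of_pos hL0]
      have b5 : |σ * L| - |(1 - t) * ε c| ≤ |σ * L + (1 - t) * ε c| := by
        have := abs_sub_abs_le_abs_sub (σ * L) (-((1 - t) * ε c))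
        rw [abs_neg, sub_neg_eq_add] at this
        exact this
      linarith) (by
      intro t ht
      apply pair_sub
      have e1 : c + T • f + (σ * L) • e + t • ((σ * L) • e - (c + T • f + (σ * L) • e)) - z =
          (1 - t) • c + ((1 - t) * T) • f + z := by
        rw [hz]
        module
      rw [e1]
      have n1 := norm_add_le ((1 - t) • c + ((1 - t) * T) • f) z
      have n2 := norm_add_le ((1 - t) • c) (((1 - t) * T) • f)
      have n3 := hTf (1 - t) ⟨by linarith [ht.2], by linarith [ht.1]⟩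
      have n4 : ‖(1 - t) • c‖ ≤ ‖c‖ := by
        rw [norm_smul, Real.norm_eq_abs, abs_of_nonneg (by linarith [ht.2])]
        nlinarith [ht.1]
      linarith)
  exact ((hM'.trans s1).trans s2).trans s3

theorem pair_co1 {n : ℕ} (i : Fin n) (v : EE n) : |co1 n i v| ≤ ‖v‖ := by
  rw [co1_apply, ← Real.norm_eq_abs]
  exact (norm_le_pi_norm v.1 i).trans (norm_fst_le v)

theorem pair_co2 {n : ℕ} (i : Fin n) (v : EE n) : |co2 n i v| ≤ ‖v‖ := by
  rw [co2_apply, ← Real.norm_eq_abs]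
  exact (norm_le_pi_norm v.2 i).trans (norm_snd_le v)

theorem pair_coord {n : ℕ} (hn : 2 ≤ n) (v : EE n) (r : ℝ) (h : r < ‖v‖) :
    (∃ i, r < |v.1 i|) ∨ (∃ i, r < |v.2 i|) := by
  by_contra hcon
  rw [not_or] at hcon
  obtain ⟨g1, g2⟩ := hcon
  push Not at g1 g2
  have hr : 0 ≤ r := (abs_nonneg _).trans (g1 ⟨0, by omega⟩)
  have h3 : ‖v‖ ≤ r := by
    rw [Prod.norm_def]
    refine max_le ?_ ?_
    · rw [pi_norm_le_iff_of_nonneg hr]
      intro i
      rw [Real.norm_eq_abs]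
      exact g1 i
    · rw [pi_norm_le_iff_of_nonneg hr]
      intro i
      rw [Real.norm_eq_abs]
      exact g2 i
  linarith

theorem pair_n1 {n : ℕ} (i : Fin n) : ‖((Pi.single i 1, 0) : EE n)‖ ≤ 1 := by
  rw [Prod.norm_def]
  refine max_le ?_ (by simp)
  rw [pi_norm_le_iff_of_nonneg zero_le_one]
  intro j
  by_cases hj : j = i
  · subst hj
    simp
  · simp [Pi.single_eq_of_ne hj]

theorem pair_n2 {n : ℕ} (i : Fin n) : ‖((0, Pi.single i 1) : EE n)‖ ≤ 1 := by
  rw [Prod.norm_def]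
  refine max_le (by simp) ?_
  rw [pi_norm_le_iff_of_nonneg zero_le_one]
  intro j
  by_cases hj : j = i
  · subst hj
    simp
  · simp [Pi.single_eq_of_ne hj]

theorem pairs {n : ℕ} (hn : 2 ≤ n) {η η₂ : EE n → B2 (EE n)} (hη : Fo η) (hη₂ : Fo η₂)
    (hnd : ∀ x, Nondeg (om0 n + η x)) (hnd₂ : ∀ x, Nondeg (om0 n + η₂ x)) {ρ : ℝ}
    (h1 : ∀ x ∉ closedBall (0 : EE n) ρ, η x = 0) (h2 : ∀ x ∉ closedBall (0 : EE n) ρ, η₂ x = 0)
    {c : EE n} (hc : 2 * ρ < ‖c‖) {R : ℝ}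
    (hM : Mov (closedBall 0 R) (fun _ => om0 n) (fun x => om0 n + η x + η₂ (x - c))) :
    ∃ L₀ ρ₁ : ℝ, ρ ≤ ρ₁ ∧ ∀ L, L₀ ≤ L → ∀ σ : ℝ, (σ = 1 ∨ σ = -1) →
      Mov (closedBall ((σ * (L / 2)) • e1 hn) (L / 2 + ρ₁)) (fun _ => om0 n)
        (fun x => om0 n + η x + η₂ (x - (σ * L) • e1 hn)) := by
  have hi01 : (⟨0, by omega⟩ : Fin n) ≠ ⟨1, by omega⟩ := by
    intro h
    have := congrArg Fin.val h
    exact absurd this (by norm_num)
  have he : ‖e1 hn‖ ≤ 1 := pair_n1 _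
  have hεe : co1 n ⟨0, by omega⟩ (e1 hn) = 1 := by
    rw [co1_apply]
    simp [e1]
  -- the case of a coordinate different from the second one
  have key : ∀ κ : EE n →L[ℝ] ℝ, (∀ v, |κ v| ≤ ‖v‖) → 2 * ρ < |κ c| →
      κ ((Pi.single ⟨1, by omega⟩ 1, 0) : EE n) = 0 → ∃ L₀ ρ₁ : ℝ, ρ ≤ ρ₁ ∧ ∀ L, L₀ ≤ L →
      ∀ σ : ℝ, (σ = 1 ∨ σ = -1) →
      Mov (closedBall ((σ * (L / 2)) • e1 hn) (L / 2 + ρ₁)) (fun _ => om0 n)
        (fun x => om0 n + η x + η₂ (x - (σ * L) • e1 hn)) := by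
    intro κ hκ1 hκ2 hκ3
    refine pair_abs hn hη hη₂ hnd hnd₂ h1 h2 hM he (pair_n1 ⟨1, by omega⟩) hκ1
      (pair_co1 ⟨1, by omega⟩) (pair_co1 ⟨0, by omega⟩) hκ2 hκ3 ?_ ?_ ?_ hεe
    · rw [co1_apply]
      simp
    · rw [co1_apply]
      show (Pi.single (⟨0, by omega⟩ : Fin n) (1 : ℝ) : Fin n → ℝ) ⟨1, by omega⟩ = 0
      exact Pi.single_eq_of_ne hi01.symm _
    · rw [co1_apply]
      show (Pi.single (⟨1, by omega⟩ : Fin n) (1 : ℝ) : Fin n → ℝ) ⟨0, by omega⟩ = 0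
      exact Pi.single_eq_of_ne hi01 _
  rcases pair_coord hn c (2 * ρ) hc with ⟨i, hi⟩ | ⟨i, hi⟩
  · by_cases hi1 : i = ⟨1, by omega⟩
    · refine pair_abs hn hη hη₂ hnd hnd₂ h1 h2 hM he (pair_n2 ⟨0, by omega⟩) (pair_co1 i)
        (pair_co2 ⟨0, by omega⟩) (pair_co1 ⟨0, by omega⟩) hi ?_ ?_ ?_ ?_ hεe
      · rw [co1_apply]
        rfl
      · rw [co2_apply]
        simp
      · rw [co2_apply]
        rfl
      · rw [co1_apply]
        rfl
    · refine key (co1 n i) (pair_co1 i) hi ?_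
      rw [co1_apply]
      exact Pi.single_eq_of_ne hi1 _
  · refine key (co2 n i) (pair_co2 i) hi ?_
    rw [co2_apply]
    rfl

end Pool.Agent.H60.Sy
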