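import Pool.Agent.H60.Sy.Step
import Pool.Agent.H60.Sy.Ndo

/-!
[H60 SY PATH] A continuous path of symplectic forms, constant off a cube, consists of isomorphic forms.

Statement to prove (keep it): `mov_path`.

Proof. The image of the compact set `Icc 0 1 ×ˢ closedBall c r` under `(t,x) ↦ κ t x` is compact and
consists of nondegenerate forms; take `ε` from `exists_nondeg_of_compact`. By uniform continuity
(`IsCompact.uniformContinuousOn_of_continuous`) there is `N ≥ 1` such that `|t - t'| ≤ 1/N` in `[0,1]` implies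
`dist (κ t x) (κ t' x) < ε` for all `x` in the cube. For such `t, t'` and `s ∈ [0,1]` the form
`κ t x + s • (κ t' x - κ t x)` has distance `≤ s dist(κ t' x, κ t x) < ε` from `κ t x` for `x` in the cube
and equals `κ t x` off the cube (`hK` for both). So `mov_step` gives `Mov (closedBall c r) (κ t) (κ t')`.
Chain over `t = i/N`, `i = 0..N` (induction with `Mov.trans`, `Mov.refl`).
-/

set_option autoImplicit false
set_option linter.unusedSectionVars false

open scoped ContDiff Topology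
open Set Metric

namespace Pool.Agent.H60.Sy

theorem dist_lin_lt {G : Type} [NormedAddCommGroup G] [NormedSpace ℝ G] {a b : G} {s ε : ℝ}
    (hs : s ∈ Icc (0:ℝ) 1) (h : dist a b < ε) : dist (a + s • (b - a)) a < ε := by
  rw [dist_comm, dist_eq_norm] at h
  rw [dist_eq_norm, add_sub_cancel_left, norm_smul, Real.norm_eq_abs, abs_of_nonneg hs.1]
  calc s * ‖b - a‖ ≤ 1 * ‖b - a‖ := mul_le_mul_of_nonneg_right hs.2 (norm_nonneg _)
    _ = ‖b - a‖ := one_mul _
    _ < ε := h

theorem lin_self {G : Type} [NormedAddCommGroup G] [NormedSpace ℝ G] (a : G) (s : ℝ) :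
    a + s • (a - a) = a := by
  rw [sub_self, smul_zero, add_zero]

theorem mov_path {n : ℕ} (hn : 2 ≤ n) (κ : ℝ → EE n → B2 (EE n))
    (hs : ∀ t ∈ Icc (0:ℝ) 1, Symp (κ t))
    (hc : ContinuousOn (fun q : ℝ × EE n => κ q.1 q.2) (Icc (0:ℝ) 1 ×ˢ univ))
    {c : EE n} {r : ℝ} (hK : ∀ t ∈ Icc (0:ℝ) 1, ∀ x ∉ closedBall c r, κ t x = κ 0 x) :
    Mov (closedBall c r) (κ 0) (κ 1) := by
  have hcpt : IsCompact (Icc (0:ℝ) 1 ×ˢ closedBall c r) :=
    isCompact_Icc.prod (isCompact_closedBall c r)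
  have hc' : ContinuousOn (fun q : ℝ × EE n => κ q.1 q.2) (Icc (0:ℝ) 1 ×ˢ closedBall c r) :=
    hc.mono (prod_mono_right (subset_univ _))
  obtain ⟨ε, hε, hnd⟩ := exists_nondeg_of_compact (hcpt.image_of_continuousOn hc') (by
    rintro A ⟨q, hq, rfl⟩
    exact (hs q.1 hq.1).nondeg q.2)
  have huc : UniformContinuousOn (fun q : ℝ × EE n => κ q.1 q.2) (Icc (0:ℝ) 1 ×ˢ closedBall c r) :=
    IsCompact.uniformContinuousOn_of_continuous hcpt hc'
  have huc2 := (Metric.uniformContinuousOn_iff (α := ℝ × EE n) (β := EE n →L[ℝ] EE n →L[ℝ] ℝ)).1 huc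
  obtain ⟨δ, hδ, hd⟩ := huc2 ε hε
  -- one step
  have hstep : ∀ t ∈ Icc (0:ℝ) 1, ∀ t' ∈ Icc (0:ℝ) 1, dist t t' < δ →
      Mov (closedBall c r) (κ t) (κ t') := by
    intro t ht t' ht' htt
    refine mov_step hn (hs t ht) (hs t' ht') (fun x hx => ?_) (fun s hs' x => ?_)
    · rw [hK t ht x hx, hK t' ht' x hx]
    · by_cases hx : x ∈ closedBall c r
      · refine hnd (κ t x) ⟨(t, x), ⟨ht, hx⟩, rfl⟩ _ ?_
        have h1 : dist (κ t x) (κ t' x) < ε := by
          refine hd (t, x) ⟨ht, hx⟩ (t', x) ⟨ht', hx⟩ ?_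
          rw [Prod.dist_eq, dist_self]
          exact max_lt htt hδ
        exact dist_lin_lt (G := EE n →L[ℝ] EE n →L[ℝ] ℝ) hs' h1
      · have e1 : κ t' x = κ t x := by rw [hK t ht x hx, hK t' ht' x hx]
        have e : κ t x + s • (κ t' x - κ t x) = κ t x := by
          rw [e1]
          exact lin_self (G := EE n →L[ℝ] EE n →L[ℝ] ℝ) (κ t x) s
        rw [e]
        exact (hs t ht).nondeg x
  obtain ⟨N, hN⟩ := exists_nat_one_div_lt hδ
  have hN1 : (0:ℝ) < (N:ℝ) + 1 := by positivity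
  have hmem : ∀ i : ℕ, i ≤ N + 1 → (i:ℝ) / ((N:ℝ) + 1) ∈ Icc (0:ℝ) 1 := by
    intro i hi
    refine ⟨by positivity, ?_⟩
    rw [div_le_one hN1]
    exact_mod_cast hi
  have hall : ∀ i : ℕ, i ≤ N + 1 → Mov (closedBall c r) (κ 0) (κ ((i:ℝ) / ((N:ℝ) + 1))) := by
    intro i
    induction i with
    | zero =>
      intro _
      rw [Nat.cast_zero, zero_div]
      exact Mov.refl _ _
    | succ i ih =>
      intro hi
      refine (ih (by omega)).trans (hstep _ (hmem i (by omega)) _ (hmem (i+1) hi) ?_)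
      rw [Real.dist_eq]
      have e : (i:ℝ) / ((N:ℝ) + 1) - ((i + 1 : ℕ):ℝ) / ((N:ℝ) + 1) = -(1 / ((N:ℝ) + 1)) := by
        push_cast
        field_simp
        ring
      rw [e, abs_neg, abs_of_pos (by positivity)]
      exact hN
  have h := hall (N+1) le_rfl
  have e : ((N + 1 : ℕ):ℝ) / ((N:ℝ) + 1) = 1 := by
    push_cast
    exact div_self hN1.ne'
  rw [e] at h
  exact h

end Pool.Agent.H60.Sy
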