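import Pool.Agent.H60.Sy.Defs
import Pool.Agent.H60.Sy.Pint

/-!
[H60 SY PRIM2] Primitive of a closed two-form by integration along the lines of direction `e`.

Statement to prove (keep it): `prim2`.

Data: `ℓ e = 1`; `β` closed, alternating, smooth and zero where `ℓ < a` or `ℓ > b` (hence, by
continuity, also where `ℓ ≤ a` or `ℓ ≥ b`: `x = lim (x ∓ t e)`).
Put `m(x) = ℓ x - a`, `H_u(x) = x + (u-1) m(x) e` (so `H_1 = id`, `ℓ (H_0 x) = a`) and
  `α(x)(v) = ∫_0^1 m(x) β(H_u x)(e, v) du`,   i.e. `α(x) = ∫_0^1 m(x) • β(H_u x) e du`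
(smooth by `contDiff_pint`). For fixed `u` let `α_u(x) = m(x) • β(H_u x) e`. Then with
`D_u v = v + (u-1) ℓ(v) e = fderiv H_u x v`,
  `dd α_u x v w = ℓ(v) β(H_u x)(e,w) - ℓ(w) β(H_u x)(e,v)
     + m(x) [ (Dβ(H_u x)(D_u v))(e,w) - (Dβ(H_u x)(D_u w))(e,v) ]`
and, because `β` is closed and alternating, this is the derivative in `u` of
`F(u) = β(H_u x)(D_u v, D_u w)` (use `Closed` at the vectors `e, D_u v, D_u w`, and `Dβ(..)(e,e) = 0`).
Hence (`fderiv_pint`) `dd α x v w = ∫_0^1 F'(u) du = F(1) - F(0) = β x v w - 0`, since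
`ℓ (H_0 x) = a` gives `β (H_0 x) = 0`.
* `ℓ x ≤ a`: all points `H_u x` have `ℓ ≤ a`, so `α x = 0`.
* `γ(x) := ∫_0^1 (b-a) • β(x + (u (b-a) - m(x)) e) e du`; note `γ x = α (x - (ℓ x - b) e)`, so
  `γ = (α ∘ π)` with `π x = x - (ℓ x - b) e`. Since `α(y) e = 0` (as `β(e,e) = 0`),
  `γ x v = α(π x)(v) = α(π x)(Dπ v)`, i.e. `γ` is the pull-back of `α` by `π` and
  `dd γ x v w = dd α (π x) (Dπ v) (Dπ w) = β (π x) (Dπ v) (Dπ w) = 0` because `ℓ (π x) = b`.
  (Direct computation: derivative of `x ↦ α (π x)` is `(fderiv α (π x)) ∘ Dπ`; and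
  `(fderiv α y u) e = 0` for all `y, u`.)
* `b ≤ ℓ x`: `α x = ∫_a^{ℓ x} β(H_0 x + (t-a) e) e dt` (substitution `t = a + u m(x)`), the part
  `t ≥ b` is zero, and the part `a..b` is `γ x`.
* If `β` vanishes on the whole line `x + ℝ e` both integrands vanish.
-/

set_option autoImplicit false
set_option linter.unusedSectionVars false

open scoped ContDiff Topology
open Set Metric

namespace Pool.Agent.H60.Sy

variable {E : Type} [NormedAddCommGroup E] [NormedSpace ℝ E]

theorem prim2_lim {β : E → B2 E} (hc : Continuous β) (d : E) (y : E)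
    (h : ∀ t : ℝ, 0 < t → β (y + t • d) = 0) : β y = 0 := by
  have h1 : Filter.Tendsto (fun t : ℝ => β (y + t • d)) (𝓝[>] 0) (𝓝 (β (y + (0:ℝ) • d))) := by
    have : Continuous (fun t : ℝ => β (y + t • d)) := by fun_prop
    exact (this.tendsto 0).mono_left nhdsWithin_le_nhds
  have h2 : Filter.Tendsto (fun t : ℝ => β (y + t • d)) (𝓝[>] 0) (𝓝 0) := by
    refine tendsto_const_nhds.congr' ?_
    filter_upwards [self_mem_nhdsWithin] with t ht
    exact (h t ht).symm
  have h3 := tendsto_nhds_unique h1 h2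
  rwa [zero_smul, add_zero] at h3

theorem prim2_alt {β : E → B2 E} (hβ : Fo β) (x u v w : E) :
    fderiv ℝ β x u v w = - fderiv ℝ β x u w v := by
  have hd : DifferentiableAt ℝ β x := hβ.sm.differentiable (by simp) x
  rw [fderiv_apply2 hd, fderiv_apply2 hd]
  have h1 : (fun y => β y v w) = fun y => - β y w v := by
    funext y
    exact hβ.alt y v w
  rw [h1, fderiv_fun_neg]
  rfl

theorem prim2_self {β : E → B2 E} (hβ : Fo β) (x v : E) : β x v v = 0 := by
  have := hβ.alt x v v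
  linarith

theorem prim2_dself {β : E → B2 E} (hβ : Fo β) (x u v : E) : fderiv ℝ β x u v v = 0 := by
  have := prim2_alt hβ x u v v
  linarith

/-- the integrand -/
noncomputable def p2f (ℓ : E →L[ℝ] ℝ) (e : E) (a : ℝ) (β : E → B2 E) (x : E) (u : ℝ) :
    E →L[ℝ] ℝ := (ℓ x - a) • β (x + ((u - 1) * (ℓ x - a)) • e) e

theorem p2f_contDiff (ℓ : E →L[ℝ] ℝ) (e : E) (a : ℝ) {β : E → B2 E} (hβ : Fo β) :
    ContDiff ℝ ∞ (fun p : E × ℝ => p2f ℓ e a β p.1 p.2) := by
  have h0 := hβ.sm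
  have h1 : ContDiff ℝ ∞ (fun p : E × ℝ => p.1 + ((p.2 - 1) * (ℓ p.1 - a)) • e) := by
    fun_prop
  have h2 : ContDiff ℝ ∞ (fun p : E × ℝ => β (p.1 + ((p.2 - 1) * (ℓ p.1 - a)) • e)) :=
    h0.comp h1
  have h3 : ContDiff ℝ ∞ (fun p : E × ℝ => ℓ p.1 - a) := by fun_prop
  exact h3.smul (h2.clm_apply contDiff_const)

theorem p2f_fderiv (ℓ : E →L[ℝ] ℝ) (e : E) (a : ℝ) {β : E → B2 E} (hβ : Fo β) (x v w : E)
    (u : ℝ) : fderiv ℝ (fun y => p2f ℓ e a β y u) x v w =
      ℓ v * β (x + ((u - 1) * (ℓ x - a)) • e) e w + (ℓ x - a) *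
        fderiv ℝ β (x + ((u - 1) * (ℓ x - a)) • e) (v + ((u - 1) * ℓ v) • e) e w := by
  have hH : HasFDerivAt (fun y : E => y + ((u - 1) * (ℓ y - a)) • e)
      (ContinuousLinearMap.id ℝ E + ((u - 1) • ℓ).smulRight e) x := by
    have h1 : HasFDerivAt (fun y : E => (u - 1) * (ℓ y - a)) ((u - 1) • ℓ) x :=
      (ℓ.hasFDerivAt.sub_const a).const_mul (u - 1)
    exact (hasFDerivAt_id x).add (h1.smul_const e)
  have hB : HasFDerivAt β (fderiv ℝ β (x + ((u - 1) * (ℓ x - a)) • e))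
      (x + ((u - 1) * (ℓ x - a)) • e) :=
    (hβ.sm.differentiable (by simp) _).hasFDerivAt
  have h1 : HasFDerivAt (fun y : E => β (y + ((u - 1) * (ℓ y - a)) • e))
      ((fderiv ℝ β (x + ((u - 1) * (ℓ x - a)) • e)).comp
        (ContinuousLinearMap.id ℝ E + ((u - 1) • ℓ).smulRight e)) x :=
    HasFDerivAt.comp (g := β) x hB hH
  have h2 := h1.clm_apply (hasFDerivAt_const e x)
  have h3 := (ℓ.hasFDerivAt.sub_const a).smul h2
  have h4 : fderiv ℝ (fun y => p2f ℓ e a β y u) x = _ := h3.fderiv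
  rw [h4]
  simp
  ring

theorem p2F_deriv (ℓ : E →L[ℝ] ℝ) (e : E) (a : ℝ) {β : E → B2 E} (hβ : Fo β) (x v w : E)
    (u : ℝ) : HasDerivAt (fun u : ℝ => β (x + ((u - 1) * (ℓ x - a)) • e)
        (v + ((u - 1) * ℓ v) • e) (w + ((u - 1) * ℓ w) • e))
      (fderiv ℝ (fun y => p2f ℓ e a β y u) x v w - fderiv ℝ (fun y => p2f ℓ e a β y u) x w v)
      u := by
  have hl : ∀ (z : E) (c : ℝ), HasDerivAt (fun u : ℝ => z + ((u - 1) * c) • e) (c • e) u := by
    intro z c
    have h1 : HasDerivAt (fun u : ℝ => (u - 1) * c) c u := by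
      have := ((hasDerivAt_id u).sub_const 1).mul_const c
      rwa [one_mul] at this
    exact (h1.smul_const e).const_add z
  have hB : HasFDerivAt β (fderiv ℝ β (x + ((u - 1) * (ℓ x - a)) • e))
      (x + ((u - 1) * (ℓ x - a)) • e) :=
    (hβ.sm.differentiable (by simp) _).hasFDerivAt
  have h1 : HasDerivAt (fun u : ℝ => β (x + ((u - 1) * (ℓ x - a)) • e))
      (fderiv ℝ β (x + ((u - 1) * (ℓ x - a)) • e) ((ℓ x - a) • e)) u :=
    HasFDerivAt.comp_hasDerivAt (l := β) u hB (hl x (ℓ x - a))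
  have h2 := (h1.clm_apply (hl v (ℓ v))).clm_apply (hl w (ℓ w))
  refine h2.congr_deriv ?_
  rw [p2f_fderiv ℓ e a hβ, p2f_fderiv ℓ e a hβ]
  obtain ⟨y, hy⟩ : ∃ y, y = x + ((u - 1) * (ℓ x - a)) • e := ⟨_, rfl⟩
  have hcl := hβ.closed y e (v + ((u - 1) * ℓ v) • e) (w + ((u - 1) * ℓ w) • e)
  have e1 := prim2_self hβ y e
  have e2 := hβ.alt y v e
  have e3 := prim2_dself hβ y v e
  have e4 := prim2_dself hβ y w e
  have e5 := prim2_dself hβ y e e
  have e6 := prim2_alt hβ y e v e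
  have e7 := prim2_alt hβ y e w e
  simp only [← hy, map_add, map_smul, add_apply,
    smul_apply, smul_eq_mul] at hcl ⊢
  rw [e1, e2]
  rw [e3, e4, e5] at hcl
  rw [e5]
  linear_combination (ℓ x - a) * hcl

theorem prim2 (ℓ : E →L[ℝ] ℝ) (e : E) (he : ℓ e = 1) {a b : ℝ} (hab : a < b)
    {β : E → B2 E} (hβ : Fo β) (hs : ∀ x, ℓ x < a ∨ b < ℓ x → β x = 0) :
    ∃ α γ : E → (E →L[ℝ] ℝ), ContDiff ℝ ∞ α ∧ ContDiff ℝ ∞ γ ∧ (∀ x, dd α x = β x) ∧
      (∀ x, dd γ x = 0) ∧ (∀ x, ℓ x ≤ a → α x = 0) ∧ (∀ x, b ≤ ℓ x → α x = γ x) ∧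
      (∀ x, (∀ t : ℝ, β (x + t • e) = 0) → α x = 0 ∧ γ x = 0) := by
  obtain ⟨α, hα⟩ : ∃ α : E → (E →L[ℝ] ℝ), α = fun x => ∫ u in (0:ℝ)..1, p2f ℓ e a β x u :=
    ⟨_, rfl⟩
  have hf := p2f_contDiff ℓ e a hβ
  have hc : Continuous β := hβ.sm.continuous
  have hz : ∀ y, ℓ y ≤ a → β y = 0 := by
    intro y hy
    refine prim2_lim hc (-e) y fun t ht => hs _ (Or.inl ?_)
    rw [map_add, map_smul, map_neg, he, smul_eq_mul]
    linarith
  have hz' : ∀ y, b ≤ ℓ y → β y = 0 := by
    intro y hy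
    refine prim2_lim hc e y fun t ht => hs _ (Or.inr ?_)
    rw [map_add, map_smul, he, smul_eq_mul]
    linarith
  have hαs : ContDiff ℝ ∞ α := by
    rw [hα]
    exact contDiff_pint hf
  have hα' : ∀ x v, fderiv ℝ α x v = ∫ u in (0:ℝ)..1, fderiv ℝ (fun y => p2f ℓ e a β y u) x v := by
    intro x v
    rw [hα]
    exact fderiv_pint hf x v
  have hcd : ∀ x v, Continuous fun u : ℝ => fderiv ℝ (fun y => p2f ℓ e a β y u) x v := by
    intro x v
    have h1 : ContDiff ℝ ∞ (Function.uncurry fun (u : ℝ) (y : E) => p2f ℓ e a β y u) :=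
      hf.comp (contDiff_snd.prodMk contDiff_fst)
    have h2 : ContDiff ℝ 0 (fun u : ℝ => fderiv ℝ (fun y => p2f ℓ e a β y u) x) :=
      ContDiff.fderiv (f := fun (u : ℝ) (y : E) => p2f ℓ e a β y u) (g := fun _ : ℝ => x) h1
        contDiff_const (by simp)
    exact h2.continuous.clm_apply continuous_const
  have hdd : ∀ x, dd α x = β x := by
    intro x
    ext v w
    rw [dd_apply, hα', hα', ContinuousLinearMap.intervalIntegral_apply
      ((hcd x v).intervalIntegrable _ _), ContinuousLinearMap.intervalIntegral_apply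
      ((hcd x w).intervalIntegrable _ _), ← intervalIntegral.integral_sub
      (((hcd x v).clm_apply continuous_const).intervalIntegrable _ _)
      (((hcd x w).clm_apply continuous_const).intervalIntegrable _ _),
      intervalIntegral.integral_eq_sub_of_hasDerivAt
        (fun u _ => p2F_deriv ℓ e a hβ x v w u)
        ((((hcd x v).clm_apply continuous_const).sub
          ((hcd x w).clm_apply continuous_const)).intervalIntegrable _ _)]
    have h0 : β (x + ((0 - 1 : ℝ) * (ℓ x - a)) • e) = 0 := by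
      apply hz
      rw [map_add, map_smul, he, smul_eq_mul]
      linarith
    rw [h0]
    simp
  have hαe : ∀ y, α y e = 0 := by
    intro y
    have h1 : Continuous fun u : ℝ => p2f ℓ e a β y u :=
      hf.continuous.comp (continuous_const.prodMk continuous_id)
    rw [hα]
    simp only
    rw [ContinuousLinearMap.intervalIntegral_apply (h1.intervalIntegrable _ _)]
    have h2 : ∀ u : ℝ, p2f ℓ e a β y u e = 0 := by
      intro u
      simp only [p2f, smul_apply, prim2_self hβ, smul_zero]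
    simp only [h2, intervalIntegral.integral_zero]
  have hαde : ∀ y u, fderiv ℝ α y u e = 0 := by
    intro y u
    rw [fderiv_apply1 (hαs.differentiable (by simp) y)]
    have h1 : (fun z => α z e) = fun _ => 0 := by
      funext z
      exact hαe z
    rw [h1]
    simp
  obtain ⟨γ, hγ⟩ : ∃ γ : E → (E →L[ℝ] ℝ), γ = fun x => α (x - (ℓ x - b) • e) := ⟨_, rfl⟩
  have hπs : ContDiff ℝ ∞ (fun x : E => x - (ℓ x - b) • e) := by fun_prop
  have hγs : ContDiff ℝ ∞ γ := by
    rw [hγ]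
    exact hαs.comp hπs
  have hγ' : ∀ x v, fderiv ℝ γ x v = fderiv ℝ α (x - (ℓ x - b) • e) (v - ℓ v • e) := by
    intro x v
    have hπ : HasFDerivAt (fun x : E => x - (ℓ x - b) • e)
        (ContinuousLinearMap.id ℝ E - ℓ.smulRight e) x :=
      (hasFDerivAt_id x).sub ((ℓ.hasFDerivAt.sub_const b).smul_const e)
    have h1 : HasFDerivAt γ ((fderiv ℝ α (x - (ℓ x - b) • e)).comp
        (ContinuousLinearMap.id ℝ E - ℓ.smulRight e)) x := by
      rw [hγ]
      exact HasFDerivAt.comp (g := α) x (hαs.differentiable (by simp) _).hasFDerivAt hπ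
    rw [h1.fderiv]
    simp
  have hφ : ∀ x, α x = ∫ t in a..(ℓ x), β (x + (t - ℓ x) • e) e := by
    intro x
    have h1 := intervalIntegral.smul_integral_comp_mul_add (a := 0) (b := 1)
      (fun t : ℝ => β (x + (t - ℓ x) • e) e) (ℓ x - a) a
    have h2 : (ℓ x - a) * 0 + a = a := by ring
    have h3 : (ℓ x - a) * 1 + a = ℓ x := by ring
    rw [h2, h3] at h1
    rw [← h1, hα, ← intervalIntegral.integral_smul]
    simp only
    congr 1
    funext u
    have h4 : (u - 1) * (ℓ x - a) = (ℓ x - a) * u + a - ℓ x := by ring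
    unfold p2f
    rw [h4]
  have hline : ∀ x, Continuous fun t : ℝ => β (x + (t - ℓ x) • e) e := by
    intro x
    exact (hc.comp (by fun_prop)).clm_apply continuous_const
  refine ⟨α, γ, hαs, hγs, hdd, ?_, ?_, ?_, ?_⟩
  · intro x
    ext v w
    rw [dd_apply, hγ', hγ']
    have h1 : β (x - (ℓ x - b) • e) = 0 := by
      apply hz'
      rw [map_sub, map_smul, he, smul_eq_mul]
      linarith
    have h2 := congrArg (fun A : B2 E => A (v - ℓ v • e) (w - ℓ w • e)) (hdd (x - (ℓ x - b) • e))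
    simp only [dd_apply, h1, zero_apply] at h2
    rw [map_sub (fderiv ℝ α (x - (ℓ x - b) • e) (v - ℓ v • e)),
      map_sub (fderiv ℝ α (x - (ℓ x - b) • e) (w - ℓ w • e)), map_smul, map_smul, hαde, hαde,
      smul_zero, smul_zero, sub_zero, sub_zero] at h2
    simpa using h2
  · intro x hx
    rw [hα]
    simp only
    have h1 : ∀ u ∈ uIcc (0:ℝ) 1, p2f ℓ e a β x u = 0 := by
      intro u hu
      rw [uIcc_of_le zero_le_one] at hu
      have h2 : β (x + ((u - 1) * (ℓ x - a)) • e) = 0 := by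
        apply hz
        rw [map_add, map_smul, he, smul_eq_mul]
        nlinarith [hu.1, hu.2]
      unfold p2f
      rw [h2, zero_apply, smul_zero]
    rw [intervalIntegral.integral_congr h1, intervalIntegral.integral_zero]
  · intro x hx
    have e1 : ℓ (x - (ℓ x - b) • e) = b := by
      rw [map_sub, map_smul, he, smul_eq_mul]
      ring
    have e2 : γ x = ∫ t in a..b, β (x + (t - ℓ x) • e) e := by
      rw [hγ]
      simp only
      rw [hφ, e1]
      congr 1
      funext t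
      congr 2
      module
    rw [e2, hφ, ← intervalIntegral.integral_add_adjacent_intervals
      ((hline x).intervalIntegrable a b) ((hline x).intervalIntegrable b (ℓ x))]
    have h1 : ∀ t ∈ uIcc b (ℓ x), β (x + (t - ℓ x) • e) e = 0 := by
      intro t ht
      rw [uIcc_of_le hx] at ht
      have h2 : β (x + (t - ℓ x) • e) = 0 := by
        apply hz'
        rw [map_add, map_smul, he, smul_eq_mul]
        linarith [ht.1]
      rw [h2, zero_apply]
    rw [intervalIntegral.integral_congr h1, intervalIntegral.integral_zero, add_zero]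
  · intro x hx
    have h1 : ∀ x, (∀ t : ℝ, β (x + t • e) = 0) → α x = 0 := by
      intro x hx
      rw [hφ]
      have h2 : ∀ t : ℝ, β (x + (t - ℓ x) • e) e = 0 := by
        intro t
        rw [hx, zero_apply]
      simp only [h2, intervalIntegral.integral_zero]
    refine ⟨h1 x hx, ?_⟩
    rw [hγ]
    apply h1
    intro t
    have h2 : x - (ℓ x - b) • e + t • e = x + (t - (ℓ x - b)) • e := by module
    rw [h2]
    exact hx _

end Pool.Agent.H60.Sy
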