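import Pool.Agent.H60.Sy.Moser
import Pool.Agent.H60.Sy.Cpl

/-!
[H60 SY STEP] The Moser step.

Statement to prove (keep it): `mov_step`.

Proof. `β x = κ' x - κ x` is a smooth closed alternating form (`Fo.sub`), zero off the cube; `cpl` gives
`ν` with `dd ν = β` and `ν = 0` off the cube (compact: `isCompact_closedBall`). `moser` (Moser.lean) with
`κ`, `ν`, `S = closedBall c r` gives `f` with `f = id` off `S` and `pb f (fun x => κ x + dd ν x) = κ`, and
`κ x + dd ν x = κ' x`.
-/

set_option autoImplicit false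
set_option linter.unusedSectionVars false

open scoped ContDiff Topology
open Set Metric

namespace Pool.Agent.H60.Sy

theorem mov_step {n : ℕ} (hn : 2 ≤ n) {κ κ' : EE n → B2 (EE n)} (hκ : Symp κ) (hκ' : Symp κ')
    {c : EE n} {r : ℝ} (hK : ∀ x ∉ closedBall c r, κ' x = κ x)
    (hnd : ∀ s ∈ Icc (0:ℝ) 1, ∀ x, Nondeg (κ x + s • (κ' x - κ x))) :
    Mov (closedBall c r) κ κ' := by
  have hβ : Fo (fun x => κ' x - κ x) := hκ'.fo.sub hκ.fo
  obtain ⟨ν, hν, hd, hz⟩ := cpl hn hβ (c := c) (r := r) (by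
    intro x hx
    have h := hK x hx
    change κ' x - κ x = 0
    rw [h]
    exact sub_self (κ x))
  obtain ⟨f, hf, hp⟩ := moser hκ hν (S := closedBall c r) (by
    intro s hs x
    rw [hd x]
    exact hnd s hs x) (isCompact_closedBall c r) hz
  refine ⟨f, hf, ?_⟩
  have e : (fun x => κ x + dd ν x) = κ' := by
    funext x
    rw [hd x]
    exact add_sub_cancel (κ x) (κ' x)
  rw [e] at hp
  exact hp

end Pool.Agent.H60.Sy
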