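import Pool.Agent.H60.Sy.Path

/-!
[H60 SY TMOV] Translating one summand while it stays away from the other one.

Statement to prove (keep it): `tmov`.

Proof. `mov_path` for `κ t x = om0 + η x + η₂ (x - (a + t • (b - a)))`. `Fo`: sums and a translate (closedness
and smoothness of `x ↦ η₂ (x - q)`: `fderiv_comp_sub` / chain rule). Nondegenerate: not both `η x` and
`η₂ (x - q)` are nonzero, because `‖x‖ ≤ ρ` and `‖x - q‖ ≤ ρ` would give `‖q‖ ≤ 2 ρ`; so the form is
`om0 + η x` or `om0 + η₂ (x - q)`. Support in `closedBall c R` by `hR`, `hseg` (off it both vanish for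
all `t`; note `closedBall 0 ρ` and `closedBall q ρ`).
-/

set_option autoImplicit false
set_option linter.unusedSectionVars false

open scoped ContDiff Topology
open Set Metric

namespace Pool.Agent.H60.Sy

private theorem tmov_hasFD {E G : Type} [NormedAddCommGroup E] [NormedSpace ℝ E]
    [NormedAddCommGroup G] [NormedSpace ℝ G] {f : E → G} {f' : E →L[ℝ] G} {q x : E}
    (h : HasFDerivAt f f' (x - q)) : HasFDerivAt (fun x => f (x - q)) f' x := by
  have h1 : HasFDerivAt (fun x : E => x - q) (ContinuousLinearMap.id ℝ E) x :=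
    (hasFDerivAt_id x).sub_const q
  have h3 := HasFDerivAt.comp x h h1
  rw [ContinuousLinearMap.comp_id] at h3
  exact h3

private theorem tmov_add1 {G : Type} [NormedAddCommGroup G] (a b c : G) (h : b = 0) :
    a + b + c = a + c := by rw [h, add_zero]

private theorem tmov_add2 {G : Type} [NormedAddCommGroup G] (a b c : G) (h : c = 0) :
    a + b + c = a + b := by rw [h, add_zero]

private theorem tmov_cont {X G : Type} [TopologicalSpace X] [NormedAddCommGroup G] (a : G)
    {f g : X → G} (hf : Continuous f) (hg : Continuous g) :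
    Continuous (fun x => a + f x + g x) := (continuous_const.add hf).add hg

private theorem tmov_fo {E : Type} [NormedAddCommGroup E] [NormedSpace ℝ E] {η : E → B2 E}
    (h : Fo η) (q : E) : Fo (fun x => η (x - q)) where
  sm := h.sm.comp (contDiff_id.sub contDiff_const)
  closed := fun x u v w => by
    have e : fderiv ℝ (fun x => η (x - q)) x = fderiv ℝ η (x - q) :=
      (tmov_hasFD (G := E →L[ℝ] E →L[ℝ] ℝ)
        (h.sm.differentiable (by simp) (x - q)).hasFDerivAt).fderiv
    rw [e]
    exact h.closed (x - q) u v w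
  alt := fun x v w => h.alt (x - q) v w

private theorem tmov_zero {n : ℕ} {η : EE n → B2 (EE n)} {ρ : ℝ}
    (h : ∀ x ∉ closedBall (0 : EE n) ρ, η x = 0) {x : EE n} (hx : ρ < ‖x‖) : η x = 0 := by
  apply h
  rw [mem_closedBall, dist_zero_right]
  exact not_le.2 hx

theorem tmov {n : ℕ} (hn : 2 ≤ n) {η η₂ : EE n → B2 (EE n)} (hη : Fo η) (hη₂ : Fo η₂)
    (hnd : ∀ x, Nondeg (om0 n + η x)) (hnd₂ : ∀ x, Nondeg (om0 n + η₂ x)) {ρ : ℝ}
    (h1 : ∀ x ∉ closedBall (0 : EE n) ρ, η x = 0) (h2 : ∀ x ∉ closedBall (0 : EE n) ρ, η₂ x = 0)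
    {a b c : EE n} {R : ℝ} (hR : closedBall (0 : EE n) ρ ⊆ closedBall c R)
    (hsep : ∀ t ∈ Icc (0:ℝ) 1, 2 * ρ < ‖a + t • (b - a)‖)
    (hseg : ∀ t ∈ Icc (0:ℝ) 1, closedBall (a + t • (b - a)) ρ ⊆ closedBall c R) :
    Mov (closedBall c R) (fun x => om0 n + η x + η₂ (x - a)) (fun x => om0 n + η x + η₂ (x - b)) := by
  have hoff : ∀ t ∈ Icc (0:ℝ) 1, ∀ x ∉ closedBall c R,
      η x = 0 ∧ η₂ (x - (a + t • (b - a))) = 0 := by
    intro t ht x hx
    constructor
    · exact h1 x fun h => hx (hR h)
    · apply h2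
      intro h
      apply hx
      apply hseg t ht
      rw [mem_closedBall, dist_eq_norm]
      rw [mem_closedBall, dist_zero_right] at h
      exact h
  have hpath := mov_path hn (fun t x => om0 n + η x + η₂ (x - (a + t • (b - a))))
    (fun t ht => ?_) ?_ (c := c) (r := R) (fun t ht x hx => ?_)
  · have e0 : a + (0:ℝ) • (b - a) = a := by rw [zero_smul, add_zero]
    have e1 : a + (1:ℝ) • (b - a) = b := by rw [one_smul, add_sub_cancel]
    simp only [e0, e1] at hpath
    exact hpath
  · refine (((fo_om0 n).add hη).add (tmov_fo hη₂ (a + t • (b - a)))).symp fun x => ?_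
    have hor : η x = 0 ∨ η₂ (x - (a + t • (b - a))) = 0 := by
      by_contra hcon
      rw [not_or] at hcon
      have k1 : ‖x‖ ≤ ρ := by
        by_contra h
        exact hcon.1 (tmov_zero h1 (not_le.1 h))
      have k2 : ‖x - (a + t • (b - a))‖ ≤ ρ := by
        by_contra h
        exact hcon.2 (tmov_zero h2 (not_le.1 h))
      have k3 : ‖a + t • (b - a)‖ ≤ ‖x‖ + ‖x - (a + t • (b - a))‖ := by
        have := norm_sub_le x (x - (a + t • (b - a)))
        rwa [sub_sub_cancel] at this
      have k4 := hsep t ht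
      linarith
    rcases hor with h | h
    · have e : om0 n + η x + η₂ (x - (a + t • (b - a))) =
          om0 n + η₂ (x - (a + t • (b - a))) :=
        tmov_add1 (G := EE n →L[ℝ] EE n →L[ℝ] ℝ) _ _ _ h
      rw [e]
      exact hnd₂ _
    · have e : om0 n + η x + η₂ (x - (a + t • (b - a))) = om0 n + η x :=
        tmov_add2 (G := EE n →L[ℝ] EE n →L[ℝ] ℝ) _ _ _ h
      rw [e]
      exact hnd _
  · apply Continuous.continuousOn
    have c1 : Continuous (fun q : ℝ × EE n => η q.2) := hη.sm.continuous.comp continuous_snd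
    have c2 : Continuous (fun q : ℝ × EE n => q.2 - (a + q.1 • (b - a))) :=
      continuous_snd.sub (continuous_const.add (continuous_fst.smul continuous_const))
    have c3 : Continuous (fun q : ℝ × EE n => η₂ (q.2 - (a + q.1 • (b - a)))) :=
      hη₂.sm.continuous.comp c2
    exact tmov_cont (G := EE n →L[ℝ] EE n →L[ℝ] ℝ) (om0 n) c1 c3
  · have k1 := hoff t ht x hx
    have k2 := hoff 0 ⟨le_rfl, zero_le_one⟩ x hx
    rw [k1.2, k2.2]

end Pool.Agent.H60.Sy
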